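import Mathlib

/-!
# Isotropic left inverses in a ring with an anti-involution
-/

set_option autoImplicit false

open Finset

namespace Pool.Agent.H92SD

section

variable {B : Type*} [Ring B]

lemma ortho_sum_mul {π : ℕ → B} (hππ : ∀ i j, π i * π j = if i = j then π i else 0) {d n : ℕ}
    (hn : n < d) : (∑ i ∈ range d, π i) * π n = π n := by
  rw [sum_mul, sum_eq_single n]
  · rw [hππ, if_pos rfl]
  · intro i _ hi
    rw [hππ, if_neg hi]
  · intro h
    exact absurd (mem_range.2 hn) h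

lemma ortho_mul_sum {π : ℕ → B} (hππ : ∀ i j, π i * π j = if i = j then π i else 0) {d n : ℕ}
    (hn : n < d) : π n * (∑ i ∈ range d, π i) = π n := by
  rw [mul_sum, sum_eq_single n]
  · rw [hππ, if_pos rfl]
  · intro i _ hi
    rw [hππ, if_neg (Ne.symm hi)]
  · intro h
    exact absurd (mem_range.2 hn) h

lemma ortho_sum_mul_ge {π : ℕ → B} (hππ : ∀ i j, π i * π j = if i = j then π i else 0) {d n : ℕ}
    (hn : d ≤ n) : (∑ i ∈ range d, π i) * π n = 0 := by
  rw [sum_mul, sum_eq_zero]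
  intro i hi
  rw [mem_range] at hi
  rw [hππ, if_neg (by omega)]

/-- A strictly upper triangular element is nilpotent. -/
lemma strict_upper_nilpotent {π : ℕ → B} {d : ℕ} {ν : B}
    (h1 : (∑ i ∈ range d, π i) * ν = ν) (h2 : ν * (∑ i ∈ range d, π i) = ν)
    (h3 : ∀ i < d, ∀ j < d, j ≤ i → π i * ν * π j = 0) : ν ^ (d + 1) = 0 := by
  have key : ∀ k : ℕ, ∀ i < d, ∀ j < d, j < i + (k + 1) → π i * ν ^ (k + 1) * π j = 0 := by
    intro k
    induction k with
    | zero =>
      intro i hi j hj hij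
      rw [zero_add, pow_one]
      exact h3 i hi j hj (by omega)
    | succ k ih =>
      intro i hi j hj hij
      have e1 : π i * ν ^ (k + 1 + 1) * π j =
          ∑ l ∈ range d, (π i * ν ^ (k + 1)) * π l * (ν * π j) := by
        rw [← sum_mul, ← mul_sum]
        calc π i * ν ^ (k + 1 + 1) * π j = π i * ν ^ (k + 1) * (ν * π j) := by
              rw [pow_succ ν (k + 1)]
              simp only [mul_assoc]
          _ = π i * ν ^ (k + 1) * (((∑ i ∈ range d, π i) * ν) * π j) := by rw [h1]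
          _ = π i * ν ^ (k + 1) * (∑ i ∈ range d, π i) * (ν * π j) := by simp only [mul_assoc]
      rw [e1]
      apply sum_eq_zero
      intro l hl
      rw [mem_range] at hl
      by_cases h4 : l < i + (k + 1)
      · rw [ih i hi l hl h4, zero_mul]
      · have h5 : π l * (ν * π j) = 0 := by
          rw [← mul_assoc]
          exact h3 l hl j hj (by omega)
        rw [mul_assoc, h5, mul_zero]
  have e2 : (∑ i ∈ range d, π i) * ν ^ (d + 1) * (∑ i ∈ range d, π i) = ν ^ (d + 1) := by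
    have e3 : (∑ i ∈ range d, π i) * ν ^ (d + 1) = ν ^ (d + 1) := by
      rw [pow_succ', ← mul_assoc, h1]
    rw [e3, pow_succ, mul_assoc, h2]
  rw [← e2, sum_mul, sum_mul]
  apply sum_eq_zero
  intro i hi
  rw [mul_sum]
  apply sum_eq_zero
  intro j hj
  rw [mem_range] at hi hj
  exact key d i hi j hj (by omega)

variable [Algebra ℚ B]

/-- **The isotropic left inverse.** -/
theorem exists_isotropic_inverse (σ : B →+ B) (hmul : ∀ a b, σ (a * b) = σ b * σ a)
    (hinv : ∀ a, σ (σ a) = a) (S : Subalgebra ℚ B) (M : Submodule ℚ B) {T : B} (hT : σ T = T)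
    (hSM : ∀ s ∈ S, ∀ m ∈ M, s * m ∈ M) (hMS : ∀ m ∈ M, ∀ s ∈ S, m * s ∈ M)
    (hMT : ∀ m ∈ M, m * T ∈ S) (hσM : ∀ m ∈ M, σ m ∈ M)
    {π : ℕ → B} (hπ : ∀ n, π n ∈ S) {d c e : ℕ} (hde : e = d + c)
    (hππ : ∀ i j, π i * π j = if i = j then π i else 0)
    (hσπ : ∀ n ≤ 2 * e, σ (π n) = π (2 * e - n))
    (hwb : ∀ a b, a + 2 * c < b → π b * T * π a = 0)
    (hγ : ∀ n < d, ∃ γ ∈ M, π n * γ * π (n + 2 * c) * T * π n = π n) :
    ∃ G ∈ M, (∑ n ∈ range d, π n) * G = G ∧
      G * T * (∑ n ∈ range d, π n) = ∑ n ∈ range d, π n ∧ G * T * σ G = 0 := by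
  obtain ⟨γ, hγM, hγ2⟩ : ∃ γ : ℕ → B, (∀ n < d, γ n ∈ M) ∧
      ∀ n < d, π n * γ n * π (n + 2 * c) * T * π n = π n := by
    have h1 : ∀ n, ∃ g : B, n < d → g ∈ M ∧ π n * g * π (n + 2 * c) * T * π n = π n := by
      intro n
      by_cases hn : n < d
      · obtain ⟨g, h2, h3⟩ := hγ n hn
        exact ⟨g, fun _ => ⟨h2, h3⟩⟩
      · exact ⟨0, fun h => absurd h hn⟩
    choose g hg using h1
    exact ⟨g, fun n hn => (hg n hn).1, fun n hn => (hg n hn).2⟩
  obtain ⟨P, hP⟩ : ∃ P, P = ∑ n ∈ range d, π n := ⟨_, rfl⟩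
  obtain ⟨Γ, hΓ⟩ : ∃ Γ, Γ = ∑ n ∈ range d, π n * γ n * π (n + 2 * c) := ⟨_, rfl⟩
  obtain ⟨ν, hν⟩ : ∃ ν, ν = Γ * T * P - P := ⟨_, rfl⟩
  rw [← hP]
  have hPS : P ∈ S := hP ▸ S.sum_mem fun n _ => hπ n
  have hPP : P * P = P := by
    nth_rewrite 2 [hP]
    rw [mul_sum, hP]
    apply sum_congr rfl
    intro n hn
    exact ortho_sum_mul hππ (mem_range.1 hn)
  have hPπ : ∀ n < d, P * π n = π n := fun n hn => hP ▸ ortho_sum_mul hππ hn
  have hπP : ∀ n < d, π n * P = π n := fun n hn => hP ▸ ortho_mul_sum hππ hn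
  have hΓM : Γ ∈ M := by
    rw [hΓ]
    refine M.sum_mem fun n hn => hMS _ (hSM _ (hπ n) _ (hγM n (mem_range.1 hn))) _ (hπ _)
  have hPΓ : P * Γ = Γ := by
    rw [hΓ, mul_sum]
    apply sum_congr rfl
    intro n hn
    rw [← mul_assoc, ← mul_assoc, hPπ n (mem_range.1 hn)]
  have hπΓ : ∀ n < d, π n * Γ = π n * γ n * π (n + 2 * c) := by
    intro n hn
    rw [hΓ, mul_sum, sum_eq_single n]
    · rw [← mul_assoc, ← mul_assoc, hππ, if_pos rfl]
    · intro i _ hi
      rw [← mul_assoc, ← mul_assoc, hππ, if_neg (Ne.symm hi), zero_mul, zero_mul]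
    · intro h
      exact absurd (mem_range.2 hn) h
  have hνS : ν ∈ S := by
    rw [hν]
    exact S.sub_mem (S.mul_mem (hMT _ hΓM) hPS) hPS
  have hPν : P * ν = ν := by
    rw [hν, mul_sub, ← mul_assoc, ← mul_assoc, hPΓ, hPP]
  have hνP : ν * P = ν := by
    rw [hν, sub_mul, mul_assoc, hPP]
  have hνn : ν ^ (d + 1) = 0 := by
    apply strict_upper_nilpotent (π := π)
    · rw [← hP]; exact hPν
    · rw [← hP]; exact hνP
    · intro i hi j hj hij
      rw [hν, mul_sub, sub_mul, hπP i hi, ← mul_assoc, ← mul_assoc, hπΓ i hi, mul_assoc _ P,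
        hPπ j hj]
      rcases Nat.lt_or_ge j i with h1 | h1
      · have h2 : π (i + 2 * c) * T * π j = 0 := hwb j _ (by omega)
        rw [mul_assoc _ T, mul_assoc _ (π (i + 2 * c)), ← mul_assoc (π (i + 2 * c)), h2, mul_zero,
          hππ, if_neg (by omega), sub_zero]
      · obtain rfl : i = j := by omega
        rw [hγ2 i hi, hππ, if_pos rfl, sub_self]
  obtain ⟨v, hvS, hv1, hv2⟩ : ∃ v ∈ S, v * (1 + ν) = 1 ∧ (1 + ν) * v = 1 := by
    have h1 : IsNilpotent (⟨ν, hνS⟩ : S) := ⟨d + 1, by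
      apply Subtype.ext
      change ν ^ (d + 1) = 0
      exact hνn⟩
    obtain ⟨u, hu⟩ := h1.isUnit_one_add
    refine ⟨((u⁻¹ : Sˣ) : S), Subtype.property _, ?_, ?_⟩
    · have h2 := congrArg (Subtype.val : S → B) (u.inv_mul)
      rw [hu] at h2
      exact h2
    · have h2 := congrArg (Subtype.val : S → B) (u.mul_inv)
      rw [hu] at h2
      exact h2
  have hvP : P * v = v * P := by
    have e1 : (1 + ν) * P = P * (1 + ν) := by rw [add_mul, mul_add, hνP, hPν, one_mul, mul_one]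
    calc P * v = (v * (1 + ν)) * (P * v) := by rw [hv1, one_mul]
      _ = v * ((1 + ν) * P) * v := by simp only [mul_assoc]
      _ = v * P * ((1 + ν) * v) := by rw [e1]; simp only [mul_assoc]
      _ = v * P := by rw [hv2, mul_one]
  obtain ⟨G, hG⟩ : ∃ G, G = v * Γ := ⟨_, rfl⟩
  have hGM : G ∈ M := hG ▸ hSM v hvS Γ hΓM
  have hPG : P * G = G := by rw [hG, ← mul_assoc, hvP, mul_assoc, hPΓ]
  have hGTP : G * T * P = P := by
    have e1 : Γ * T * P = (1 + ν) * P := by
      rw [add_mul, hνP, one_mul, hν]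
      abel
    rw [hG, mul_assoc v, mul_assoc v, e1, ← mul_assoc, hv1, one_mul]
  have hσG : σ G = σ G * σ P := by
    rw [← hmul, hPG]
  have hiso : σ P * T * P = 0 := by
    rw [hP, map_sum, sum_mul, sum_mul]
    apply sum_eq_zero
    intro i hi
    rw [mul_sum]
    apply sum_eq_zero
    intro j hj
    rw [mem_range] at hi hj
    rw [hσπ i (by omega)]
    exact hwb j _ (by omega)
  obtain ⟨W, hW⟩ : ∃ W, W = G * T * σ G := ⟨_, rfl⟩
  have hWM : W ∈ M := by
    rw [hW]
    exact hSM _ (hMT _ hGM) _ (hσM _ hGM)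
  have hσW : σ W = W := by
    rw [hW, hmul, hmul, hinv, hT, mul_assoc]
  have hPW : P * W = W := by
    rw [hW, ← mul_assoc, ← mul_assoc, hPG]
  have hWTP : W * T * P = 0 := by
    have e1 : W * T * P = G * T * σ G * (σ P * T * P) := by
      rw [hW]
      conv_lhs => rw [hσG]
      simp only [mul_assoc]
    rw [e1, hiso, mul_zero]
  have hGTW : G * T * W = W := by
    calc G * T * W = G * T * (P * W) := by rw [hPW]
      _ = G * T * P * W := by simp only [mul_assoc]
      _ = W := by rw [hGTP, hPW]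
  have hWTG : W * T * σ G = W := by
    have h1 := congrArg σ hGTW
    rw [hmul, hmul, hσW, hT, ← mul_assoc] at h1
    exact h1
  have hWTW : W * T * W = 0 := by
    calc W * T * W = W * T * (P * W) := by rw [hPW]
      _ = W * T * P * W := by simp only [mul_assoc]
      _ = 0 := by rw [hWTP, zero_mul]
  have hsmul : ∀ (q : ℚ) (x : B), σ (q • x) = q • σ x := fun q x => map_rat_smul σ q x
  refine ⟨G - (1 / 2 : ℚ) • W, M.sub_mem hGM (M.smul_mem _ hWM), ?_, ?_, ?_⟩
  · rw [mul_sub, hPG, mul_smul_comm, hPW]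
  · rw [sub_mul, sub_mul, hGTP, smul_mul_assoc, smul_mul_assoc, hWTP, smul_zero, sub_zero]
  · rw [map_sub, hsmul, hσW]
    have e1 : (G - (1 / 2 : ℚ) • W) * T * (σ G - (1 / 2 : ℚ) • W) =
        G * T * σ G - (1 / 2 : ℚ) • (G * T * W) - (1 / 2 : ℚ) • (W * T * σ G) +
          (1 / 4 : ℚ) • (W * T * W) := by
      simp only [sub_mul, mul_sub, smul_mul_assoc, mul_smul_comm, smul_sub, smul_smul]
      norm_num
      abel
    rw [e1, ← hW, hGTW, hWTG, hWTW, smul_zero, add_zero, sub_sub, ← add_smul]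
    norm_num

end

end Pool.Agent.H92SD
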