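import Pool.Agent.H92SD.WL

/-!
# Products of weight-bounded Lefschetz correspondences
-/

set_option autoImplicit false

open CategoryTheory AlgebraicGeometry

universe u v w

namespace Pool.Agent.H92SD

open Pool.Agent.H914 Pool.Agent.H914.VarClass Pool.Agent.H914.VarClass.Obj Pool.Agent.W492.BB
  Pool.Agent.W550.Corr Pool.Agent.TH133 Pool.Agent.Y107

set_option linter.unusedSectionVars false

variable {k : Type u} [Field k] {𝒱 : VarClass k}

variable {C : TheoryData.{u, v, 0} 𝒱 ℚ} [hC : IsChowProj C] {X Y Z : 𝒱.Obj}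

section chow

include hC

/-- The external product of self-correspondences. -/
noncomputable def tn (a : Cor C X) (b : Cor C Z) : Cor C (X.prod Z) :=
  tens C (X := X) (Y := X) (Z := Z) (W := Z) a b

lemma tn_mul (a a' : Cor C X) (b b' : Cor C Z) : tn a b * tn a' b' = tn (a * a') (b * b') :=
  tens_comp' (X := X) (Z := Z) a' a b' b

lemma tn_one : tn (1 : Cor C X) (1 : Cor C Z) = 1 := tens_dg C X Z

lemma tn_zero_left (b : Cor C Z) : tn (0 : Cor C X) b = 0 :=
  tens_zero_left (X := X) (Y := X) (Z := Z) (W := Z) b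

lemma tn_zero_right (a : Cor C X) : tn a (0 : Cor C Z) = 0 :=
  tens_zero_right (X := X) (Y := X) (Z := Z) (W := Z) a

lemma tn_add_right (a : Cor C X) (b b' : Cor C Z) : tn a (b + b') = tn a b + tn a b' :=
  map_add (tensL (X := X) (Y := X) (Z := Z) (W := Z) a) b b'

lemma tn_sub_right (a : Cor C X) (b b' : Cor C Z) : tn a (b - b') = tn a b - tn a b' :=
  map_sub (tensL (X := X) (Y := X) (Z := Z) (W := Z) a) b b'

lemma tn_smul_right (q : ℚ) (a : Cor C X) (b : Cor C Z) : tn a (q • b) = q • tn a b :=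
  map_smul (tensL (X := X) (Y := X) (Z := Z) (W := Z) a) q b

lemma tn_add_left (a a' : Cor C X) (b : Cor C Z) : tn (a + a') b = tn a b + tn a' b :=
  LinearMap.map_add₂ (tensL (X := X) (Y := X) (Z := Z) (W := Z)) a a' b

lemma tn_sub_left (a a' : Cor C X) (b : Cor C Z) : tn (a - a') b = tn a b - tn a' b :=
  LinearMap.map_sub₂ (tensL (X := X) (Y := X) (Z := Z) (W := Z)) a a' b

lemma tn_smul_left (q : ℚ) (a : Cor C X) (b : Cor C Z) : tn (q • a) b = q • tn a b :=
  LinearMap.map_smul₂ (tensL (X := X) (Y := X) (Z := Z) (W := Z)) q a b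

lemma tn_mem {a : Cor C X} {b : Cor C Z} {i j : ℤ} (ha : a ∈ crg C X i) (hb : b ∈ crg C Z j) :
    tn a b ∈ crg C (X.prod Z) (i + j) := by
  have h := tens_mem C (X := X) (Y := X) (Z := Z) (W := Z) ha hb
  rw [mem_crg, dim_prod]
  rwa [show (X.dim : ℤ) + i + (Z.dim + j) = ((X.dim + Z.dim : ℕ) : ℤ) + (i + j) by
    push_cast; ring] at h

lemma tpR_tn (a : Cor C X) (b : Cor C Z) :
    tpR C (X.prod Z) (tn a b) = tn (tpR C X a) (tpR C Z b) :=
  tp_tens (X := X) (Y := X) (Z := Z) (W := Z) a b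

/-- The product family. -/
noncomputable def PP (π : ℕ → Cor C X) (π' : ℕ → Cor C Z) : ℕ → Cor C (X.prod Z) :=
  fun n => ∑ i ∈ Finset.range (n + 1), tn (π i) (π' (n - i))

lemma PP_eq (π : ℕ → Cor C X) (π' : ℕ → Cor C Z) :
    PP π π' = prodCK C (X := X) (Z := Z) π π' := rfl

/-- Leading parts of external products. -/
lemma IsLeading.tn {π : ℕ → Cor C X} {π' : ℕ → Cor C Z} {w w' : ℕ} {A a : Cor C X}
    {B b : Cor C Z} (h : IsLeading π w A a) (h' : IsLeading π' w' B b) :
    IsLeading (PP π π') (w + w') (Pool.Agent.H92SD.tn A B) (Pool.Agent.H92SD.tn a b) where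
  bounded p q hpq := by
    unfold PP
    rw [Finset.sum_mul, Finset.sum_mul]
    apply Finset.sum_eq_zero
    intro i hi
    rw [Finset.mul_sum]
    apply Finset.sum_eq_zero
    intro j hj
    rw [Finset.mem_range] at hi hj
    rw [tn_mul, tn_mul]
    by_cases h1 : j + w < i
    · rw [h.bounded j i h1, tn_zero_left]
    · rw [h'.bounded (p - j) (q - i) (by omega), tn_zero_right]
  lead p := by
    unfold PP
    rw [Finset.mul_sum, Finset.mul_sum]
    apply Finset.sum_congr rfl
    intro j hj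
    rw [Finset.mem_range] at hj
    rw [Finset.sum_mul, Finset.sum_mul, Finset.sum_eq_single (j + w)]
    · rw [tn_mul, tn_mul, tn_mul, h.lead,
        show p + (w + w') - (j + w) = p - j + w' by omega, h'.lead]
    · intro i hi hij
      rw [Finset.mem_range] at hi
      rw [tn_mul, tn_mul]
      by_cases h1 : j + w < i
      · rw [h.bounded j i h1, tn_zero_left]
      · rw [h'.bounded (p - j) _ (by omega), tn_zero_right]
    · intro h1
      exfalso
      apply h1
      rw [Finset.mem_range]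
      omega

lemma sl2_tn {h e f : Cor C X} {h' e' f' : Cor C Z} (t : Sl2 h e f) (t' : Sl2 h' e' f') :
    Sl2 (tn h 1 + tn 1 h') (tn e 1 + tn 1 e') (tn f 1 + tn 1 f') := by
  have key : ∀ (a b : Cor C X) (a' b' : Cor C Z),
      (tn a 1 + tn 1 a') * (tn b 1 + tn 1 b') - (tn b 1 + tn 1 b') * (tn a 1 + tn 1 a') =
        tn (a * b - b * a) 1 + tn 1 (a' * b' - b' * a') := by
    intro a b a' b'
    rw [tn_sub_left, tn_sub_right]
    simp only [mul_add, add_mul, tn_mul, one_mul, mul_one]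
    abel
  have two : ∀ (a : Cor C X) (a' : Cor C Z), tn (2 * a) 1 + tn 1 (2 * a') =
      2 * (tn a 1 + tn 1 a') := by
    intro a a'
    rw [two_mul, two_mul, two_mul, tn_add_left, tn_add_right]
    abel
  refine ⟨?_, ?_, ?_⟩
  · rw [key, t.ef, t'.ef]
  · rw [key, t.he, t'.he, two]
  · rw [key, t.hf, t'.hf, ← two]
    have e1 : tn (-(2 * f)) (1 : Cor C Z) = -(tn (2 * f) 1) := by
      have := tn_smul_left (-1) (2 * f) (1 : Cor C Z)
      rwa [neg_smul, one_smul, neg_smul, one_smul] at this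
    have e2 : tn (1 : Cor C X) (-(2 * f')) = -(tn 1 (2 * f')) := by
      have := tn_smul_right (-1) (1 : Cor C X) (2 * f')
      rwa [neg_smul, one_smul, neg_smul, one_smul] at this
    rw [e1, e2, neg_add]

end chow

variable {K : Type w} [Field K] {H : WeilTheoryData.{u, v, w} C K} [hH : IsWeilProj H]

include hC hH

/-- The product family as a double sum. -/
lemma PP_double {π : ℕ → Cor C X} {π' : ℕ → Cor C Z} (h : IsCK H X π) (h' : IsCK H Z π')
    (n : ℕ) : PP π π' n = ∑ i ∈ Finset.range (2 * X.dim + 1),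
      ∑ j ∈ Finset.range (2 * Z.dim + 1), if i + j = n then tn (π i) (π' j) else 0 := by
  have e1 : ∀ i ∈ Finset.range (2 * X.dim + 1), (∑ j ∈ Finset.range (2 * Z.dim + 1),
      if i + j = n then tn (π i) (π' j) else 0) = if i ≤ n then tn (π i) (π' (n - i)) else 0 := by
    intro i _
    split_ifs with hin
    · by_cases h1 : n - i < 2 * Z.dim + 1
      · rw [Finset.sum_eq_single (n - i)]
        · rw [if_pos (by omega)]
        · intro j _ hj
          rw [if_neg (by omega)]
        · intro h2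
          exact absurd (Finset.mem_range.2 h1) h2
      · rw [show π' (n - i) = 0 from h'.out _ (by omega), tn_zero_right]
        apply Finset.sum_eq_zero
        intro j hj
        rw [Finset.mem_range] at hj
        rw [if_neg (by omega)]
    · apply Finset.sum_eq_zero
      intro j _
      rw [if_neg (by omega)]
  rw [Finset.sum_congr rfl e1]
  unfold PP
  have e2 : ∑ i ∈ Finset.range (n + 1), tn (π i) (π' (n - i)) =
      ∑ i ∈ Finset.range (n + 1 + (2 * X.dim + 1)),
        if i ≤ n then tn (π i) (π' (n - i)) else 0 := by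
    rw [Finset.sum_range_add _ (n + 1) (2 * X.dim + 1),
      Finset.sum_eq_zero (s := Finset.range (2 * X.dim + 1)), add_zero]
    · apply Finset.sum_congr rfl
      intro i hi
      rw [Finset.mem_range] at hi
      rw [if_pos (by omega)]
    · intro i _
      rw [if_neg (by omega)]
  have e3 : ∑ i ∈ Finset.range (2 * X.dim + 1),
      (if i ≤ n then tn (π i) (π' (n - i)) else 0) =
      ∑ i ∈ Finset.range (2 * X.dim + 1 + (n + 1)),
        if i ≤ n then tn (π i) (π' (n - i)) else 0 := by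
    rw [Finset.sum_range_add _ (2 * X.dim + 1) (n + 1),
      Finset.sum_eq_zero (s := Finset.range (n + 1)), add_zero]
    intro i _
    rw [show π (2 * X.dim + 1 + i) = 0 from h.out _ (by omega), tn_zero_left]
    split_ifs <;> rfl
  rw [e2, e3]
  congr 2
  omega

lemma PP_selfDual {π : ℕ → Cor C X} {π' : ℕ → Cor C Z} (h : IsCK H X π) (h' : IsCK H Z π')
    (hs : ∀ n ≤ 2 * X.dim, tpR C X (π n) = π (2 * X.dim - n))
    (hs' : ∀ n ≤ 2 * Z.dim, tpR C Z (π' n) = π' (2 * Z.dim - n)) (n : ℕ)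
    (hn : n ≤ 2 * (X.prod Z).dim) :
    tpR C (X.prod Z) (PP π π' n) = PP π π' (2 * (X.prod Z).dim - n) := by
  rw [dim_prod] at hn ⊢
  rw [PP_double h h', PP_double h h', map_sum,
    ← Finset.sum_range_reflect (fun i => ∑ j ∈ Finset.range (2 * Z.dim + 1),
      if i + j = 2 * (X.dim + Z.dim) - n then tn (π i) (π' j) else 0)]
  apply Finset.sum_congr rfl
  intro i hi
  rw [map_sum, ← Finset.sum_range_reflect (fun j =>
    if 2 * X.dim + 1 - 1 - i + j = 2 * (X.dim + Z.dim) - n then
      tn (π (2 * X.dim + 1 - 1 - i)) (π' j) else 0)]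
  apply Finset.sum_congr rfl
  intro j hj
  rw [Finset.mem_range] at hi hj
  by_cases h1 : i + j = n
  · rw [if_pos h1, if_pos (by omega), tpR_tn, hs i (by omega), hs' j (by omega)]
    rw [show 2 * X.dim + 1 - 1 - i = 2 * X.dim - i by omega,
      show 2 * Z.dim + 1 - 1 - j = 2 * Z.dim - j by omega]
  · rw [if_neg h1, if_neg (by omega), map_zero]

/-- **Products.** -/
theorem WLRing.prod {L : Cor C X} {L' : Cor C Z} {π : ℕ → Cor C X} {π' : ℕ → Cor C Z}
    (hL : L ∈ crg C X 1) (hL' : L' ∈ crg C Z 1) (h : WLRing H L π) (h' : WLRing H L' π') :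
    WLRing H (tn L 1 + tn 1 L') (PP π π') := by
  have hck : IsCK H (X.prod Z) (PP π π') := h.ck.prod h'.ck
  obtain ⟨e, he, hl⟩ := h.exists_leading hL
  obtain ⟨e', he', hl'⟩ := h'.exists_leading hL'
  obtain ⟨f, hf, t⟩ := exists_sl2 h.ck he
    (fun n => hl.homogeneous (fun i j => h.ck.mul_eq i j) h.ck.sum_eq n)
    (fun s hs => h.lead_iso hl s hs)
  obtain ⟨f', hf', t'⟩ := exists_sl2 h'.ck he'
    (fun n => hl'.homogeneous (fun i j => h'.ck.mul_eq i j) h'.ck.sum_eq n)
    (fun s hs => h'.lead_iso hl' s hs)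
  have T := sl2_tn t t'
  have hone : IsLeading π 0 1 1 := IsLeading.one (fun i j => h.ck.mul_eq i j) h.ck.sum_eq
  have hone' : IsLeading π' 0 1 1 := IsLeading.one (fun i j => h'.ck.mul_eq i j) h'.ck.sum_eq
  have l1 : IsLeading (PP π π') 2 (tn L 1) (tn e 1) := hl.tn hone'
  have l2 : IsLeading (PP π π') 2 (tn 1 L') (tn 1 e') := by
    have := hone.tn hl'
    rwa [zero_add] at this
  have l3 := l1.add l2
  have hE : tn e 1 + tn 1 e' ∈ crg C (X.prod Z) 1 := by
    refine Submodule.add_mem _ ?_ ?_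
    · have := tn_mem he (crg_one (C := C) (X := Z))
      rwa [add_zero] at this
    · have := tn_mem (crg_one (C := C) (X := X)) he'
      rwa [zero_add] at this
  have hF : tn f 1 + tn 1 f' ∈ crg C (X.prod Z) (-1) := by
    refine Submodule.add_mem _ ?_ ?_
    · have := tn_mem hf (crg_one (C := C) (X := Z))
      rwa [add_zero] at this
    · have := tn_mem (crg_one (C := C) (X := X)) hf'
      rwa [zero_add] at this
  have hh : ∀ n, (tn (gradingElt C X π) 1 + tn 1 (gradingElt C Z π')) * PP π π' n =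
      ((n : ℚ) - (X.prod Z).dim) • PP π π' n := by
    intro n
    unfold PP
    rw [Finset.mul_sum, Finset.smul_sum]
    apply Finset.sum_congr rfl
    intro i hi
    rw [Finset.mem_range] at hi
    rw [add_mul, tn_mul, tn_mul, one_mul, one_mul, gradingElt_mul h.ck, gradingElt_mul h'.ck,
      tn_smul_left, tn_smul_right, ← add_smul, dim_prod]
    congr 1
    push_cast [Nat.cast_sub (show i ≤ n by omega)]
    ring
  refine ⟨hck, fun n hn => PP_selfDual h.ck h'.ck h.selfDual h'.selfDual n hn, l3.bounded,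
    fun s hs => iso_of_lead hck l3 s hs (lefschetz_of_sl2 hck T hE hF hh s hs)⟩

omit hH in
lemma mulCorr_ext_left (D : C.A X) : C.mulCorr (C.pull (fst X Z) D) =
    tn (X := X) (Z := Z) (C.mulCorr D) 1 := by
  have e0 : C.pull (fst X Z) D = C.ext D (1 : C.A Z) := by
    rw [TheoryData.ext, map_one, mul_one]
  have e1 : prodMap (Obj.lift (𝟙 X) (𝟙 X)) (Obj.lift (𝟙 Z) (𝟙 Z)) ≫ mid X X Z Z =
      Obj.lift (𝟙 (X.prod Z)) (𝟙 (X.prod Z)) := by
    apply prod_ext
    · apply prod_ext <;> simp [mid, prodMap, comp_lift]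
    · apply prod_ext <;> simp [mid, prodMap, comp_lift]
  have e2 : tn (X := X) (Z := Z) (C.mulCorr D) 1 = tens C (C.mulCorr D) (dg C Z) := rfl
  rw [e2, tens_eq C, pull_iso C (mid X Z X Z) (mid X X Z Z) (mid_mid _ _ _ _)
    (mid_mid _ _ _ _), dg, TheoryData.mulCorr, TheoryData.mulCorr, TheoryData.graph,
    ← push_ext C, ← C.push_comp, e1, e0]

omit hH in
lemma mulCorr_ext_right (D : C.A Z) : C.mulCorr (C.pull (snd X Z) D) =
    tn (X := X) (Z := Z) 1 (C.mulCorr D) := by
  have e0 : C.pull (snd X Z) D = C.ext (1 : C.A X) D := by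
    rw [TheoryData.ext, map_one, one_mul]
  have e1 : prodMap (Obj.lift (𝟙 X) (𝟙 X)) (Obj.lift (𝟙 Z) (𝟙 Z)) ≫ mid X X Z Z =
      Obj.lift (𝟙 (X.prod Z)) (𝟙 (X.prod Z)) := by
    apply prod_ext
    · apply prod_ext <;> simp [mid, prodMap, comp_lift]
    · apply prod_ext <;> simp [mid, prodMap, comp_lift]
  have e2 : tn (X := X) (Z := Z) 1 (C.mulCorr D) = tens C (dg C X) (C.mulCorr D) := rfl
  rw [e2, tens_eq C, pull_iso C (mid X Z X Z) (mid X X Z Z) (mid_mid _ _ _ _)
    (mid_mid _ _ _ _), dg, TheoryData.mulCorr, TheoryData.mulCorr, TheoryData.graph,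
    ← push_ext C, ← C.push_comp, e1, e0]

omit hH in
lemma mulCorr_mem {D : C.A X} (hD : C.Deg 1 D) : (C.mulCorr D : Cor C X) ∈ crg C X 1 := by
  have h := C.push_mem (Obj.lift (𝟙 X) (𝟙 X)) hD
  have e1 : (1 : ℤ) + 1 * (((X.prod X).dim : ℤ) - (X.dim : ℤ)) = X.dim + 1 := by
    rw [dim_prod]; push_cast; ring
  rwa [e1] at h

/-- Products of Lefschetz pairs. -/
theorem LefschetzPair.prod {D : C.A X} {E : C.A Z} (h : LefschetzPair H X D)
    (h' : LefschetzPair H Z E) :
    LefschetzPair H (X.prod Z) (boxSum C D E) := by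
  obtain ⟨hD, π, h⟩ := h
  obtain ⟨hE, π', h'⟩ := h'
  rw [boxSum, ext_one_right, ext_one_left]
  refine ⟨Submodule.add_mem _ (C.pull_mem _ hD) (C.pull_mem _ hE), PP π π', ?_⟩
  have e1 : mc (C.pull (fst X Z) D + C.pull (snd X Z) E) =
      (tn (X := X) (Z := Z) (C.mulCorr D) 1 + tn (X := X) (Z := Z) 1 (C.mulCorr E) :
        Cor C (X.prod Z)) := by
    rw [← mulCorr_ext_left, ← mulCorr_ext_right]
    exact map_add (C.push _) _ _
  refine wl_iff.2 ?_
  rw [e1]
  exact WLRing.prod (mulCorr_mem hD) (mulCorr_mem hE) (wl_iff.1 h) (wl_iff.1 h')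

end Pool.Agent.H92SD
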