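import Pool.Agent.H92SD.WL

/-!
# Self-dual Chow-Kunneth decompositions of sections
-/

set_option autoImplicit false

open CategoryTheory AlgebraicGeometry

universe u v w

namespace Pool.Agent.H92SD

open Pool.Agent.H914 Pool.Agent.H914.VarClass Pool.Agent.H914.VarClass.Obj Pool.Agent.W492.BB
  Pool.Agent.W550.Corr Pool.Agent.TH133 Pool.Agent.Y107

set_option linter.unusedSectionVars false

variable {k : Type u} [Field k] {𝒱 : VarClass k}

variable {C : TheoryData.{u, v, 0} 𝒱 ℚ} [hC : IsChowProj C] {X Y Z : 𝒱.Obj}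

section chow

include hC

/-- The map `z ↦ i^* ∘ z ∘ i_*` from the self-correspondences of `Y` to those of `X`. -/
noncomputable def pl (i : X ⟶ Y) : Cor C Y →ₗ[ℚ] Cor C X :=
  ((compL C (X := X) (Y := Y) (Z := X)).flip (C.cograph i)).comp
    (compL C (X := X) (Y := Y) (Z := Y) (C.graph i))

lemma pl_apply (i : X ⟶ Y) (z : Cor C Y) :
    pl i z = C.comp (C.comp (C.graph i) (z : C.A (Y.prod Y))) (C.cograph i) := rfl

/-- The correspondence `i_* ∘ i^*`. -/
noncomputable def ti (C : TheoryData.{u, v, 0} 𝒱 ℚ) [IsChowProj C] (i : X ⟶ Y) : Cor C Y :=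
  C.mulCorr (C.push i 1)

lemma pl_mul (i : X ⟶ Y) (z w : Cor C Y) : pl i z * pl i w = pl i (z * ti C i * w) := by
  have e1 : ∀ z w : C.A (Y.prod Y),
      C.comp (C.comp (C.comp (C.graph i) w) (C.cograph i))
        (C.comp (C.comp (C.graph i) z) (C.cograph i)) =
      C.comp (C.comp (C.graph i) (C.comp w (C.comp (C.comp (C.cograph i) (C.graph i)) z)))
        (C.cograph i) := by
    intro z w
    simp only [comp_assoc]
  have e2 := e1 z w
  rw [cograph_graph] at e2
  exact e2

lemma tp_cograph (i : X ⟶ Y) : tp C (C.cograph i) = C.graph i := by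
  rw [tp_eq_push, TheoryData.cograph, ← C.push_comp]
  have e1 : Obj.lift i (𝟙 X) ≫ sw Y X = Obj.lift (𝟙 X) i := by
    apply prod_ext <;> simp [sw, comp_lift]
  rw [e1]
  rfl

lemma tp_graph (i : X ⟶ Y) : tp C (C.graph i) = C.cograph i := by
  rw [← tp_cograph, tp_tp]

lemma tpR_pl (i : X ⟶ Y) (z : Cor C Y) : tpR C X (pl i z) = pl i (tpR C Y z) := by
  have e1 : ∀ z : C.A (Y.prod Y), tp C (C.comp (C.comp (C.graph i) z) (C.cograph i)) =
      C.comp (C.comp (C.graph i) (tp C z)) (C.cograph i) := by
    intro z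
    rw [tp_comp C (ch_comm C), tp_comp C (ch_comm C), tp_cograph, tp_graph, comp_assoc]
  exact e1 z

lemma pl_mem (i : X ⟶ Y) {c : ℕ} (hc : Y.dim = X.dim + c) {j : ℤ} {z : Cor C Y}
    (hz : z ∈ crg C Y j) : pl i z ∈ crg C X (j + c) := by
  have h1 : C.graph i ∈ C.gr (X.prod Y) ((X.dim : ℤ) + c) := by
    have := graph_mem' (C := C) i
    rwa [hc, show ((X.dim + c : ℕ) : ℤ) = (X.dim : ℤ) + c by push_cast; ring] at this
  have h2 : C.cograph i ∈ C.gr (Y.prod X) ((Y.dim : ℤ) + 0) := by
    rw [add_zero]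
    exact cograph_mem i
  have h3 := comp_mem C (comp_mem C h1 hz) h2
  rw [mem_crg]
  rwa [show (c : ℤ) + j + 0 = j + c by ring] at h3

lemma lx_pl (i : X ⟶ Y) (D : C.A Y) (z : Cor C Y) :
    mc (C.pull i D) * pl i z = pl i (mc D * z) := by
  have e1 : ∀ z : C.A (Y.prod Y),
      C.comp (C.comp (C.comp (C.graph i) z) (C.cograph i)) (C.mulCorr (C.pull i D)) =
      C.comp (C.comp (C.graph i) (C.comp z (C.mulCorr D))) (C.cograph i) := by
    intro z
    rw [comp_assoc C _ (C.cograph i), ← mulCorr_cograph]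
    simp only [comp_assoc]
  exact e1 z

lemma lx_pow_pl (i : X ⟶ Y) (D : C.A Y) (s : ℕ) (z : Cor C Y) :
    mc (C.pull i D) ^ s * pl i z = pl i (mc D ^ s * z) := by
  induction s with
  | zero => rw [pow_zero, pow_zero, one_mul, one_mul]
  | succ s ih => rw [pow_succ', mul_assoc, ih, lx_pl, pow_succ', mul_assoc]

lemma ti_mem (i : X ⟶ Y) {c : ℕ} (hc : Y.dim = X.dim + c) : ti C i ∈ crg C Y c := by
  have h0 := C.push_mem i (C.one_mem X)
  have h := C.push_mem (Obj.lift (𝟙 Y) (𝟙 Y)) h0
  have e1 : (0 : ℤ) + 1 * ((Y.dim : ℤ) - X.dim) +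
      1 * (((Y.prod Y).dim : ℤ) - (Y.dim : ℤ)) = Y.dim + c := by
    rw [dim_prod, hc]; push_cast; ring
  rwa [e1] at h

lemma tpR_ti (i : X ⟶ Y) : tpR C Y (ti C i) = ti C i := tp_mulCorr _

end chow

variable {K : Type w} [Field K] {H : WeilTheoryData.{u, v, w} C K} [hH : IsWeilProj H]

include hC hH

lemma actH_pl (i : X ⟶ Y) (z : Cor C Y) (x : H.A X) :
    actH C X H (pl i z) x = H.pull i (actH C Y H z (H.push i x)) := by
  have h1 : ∀ z : C.A (Y.prod Y), H.act (H.cl (C.comp (C.comp (C.graph i) z) (C.cograph i))) x =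
      H.pull i (H.act (H.cl z) (H.push i x)) := by
    intro z
    rw [actH_comp, actH_comp]
    have e1 : H.cl (C.graph i) = H.graph i := by
      rw [TheoryData.graph, TheoryData.graph, H.cl_push, map_one]
    have e2 : H.cl (C.cograph i) = H.cograph i := by
      rw [TheoryData.cograph, TheoryData.cograph, H.cl_push, map_one]
    rw [e1, e2, H.act_graph, H.act_cograph]
  exact h1 z

lemma actH_pl_pull (i : X ⟶ Y) (z : Cor C Y) (y : H.A Y) :
    actH C X H (pl i z) (H.pull i y) = H.pull i (actH C Y H (z * ti C i) y) := by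
  rw [actH_pl]
  have e1 : H.push i (H.pull i y) = actH C Y H (ti C i) y := by
    have e2 : actH C Y H (ti C i) y = H.act (H.cl (C.comp (C.cograph i) (C.graph i))) y := by
      rw [cograph_graph]
      rfl
    have e3 : H.cl (C.graph i) = H.graph i := by
      rw [TheoryData.graph, TheoryData.graph, H.cl_push, map_one]
    have e4 : H.cl (C.cograph i) = H.cograph i := by
      rw [TheoryData.cograph, TheoryData.cograph, H.cl_push, map_one]
    rw [e2, actH_comp, e3, e4, H.act_graph, H.act_cograph]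
  rw [e1, map_mul]
  rfl

/-- **The decomposition of a section.** -/
theorem exists_section (i : X ⟶ Y) {c : ℕ} (hc : Y.dim = X.dim + c) {π : ℕ → Cor C Y}
    (hπ : IsCK H Y π) (hs : ∀ n ≤ 2 * Y.dim, tpR C Y (π n) = π (2 * Y.dim - n))
    (hwb : ∀ a b, a + 2 * c < b → π b * ti C i * π a = 0)
    (hγ : ∀ n < X.dim, ∃ γ ∈ crg C Y (-c), π n * γ * π (n + 2 * c) * ti C i * π n = π n)
    (hsurj : ∀ n < X.dim, ∀ x : H.A X, H.Deg n x → ∃ y : H.A Y, H.Deg n y ∧ H.pull i y = x) :
    ∃ (G : Cor C Y) (ρ : ℕ → Cor C X), G ∈ crg C Y (-c) ∧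
      (∑ n ∈ Finset.range X.dim, π n) * G = G ∧
      G * ti C i * (∑ n ∈ Finset.range X.dim, π n) = ∑ n ∈ Finset.range X.dim, π n ∧
      IsCK H X ρ ∧ IsSelfDual C (X := X) ρ ∧ ∀ n < X.dim, ρ n = pl i (π n * G) := by
  have hππ := fun i j => hπ.mul_eq i j
  have hti : ti C i ∈ crg C Y c := ti_mem i hc
  obtain ⟨G, hG, hPG, hGTP, hGG⟩ := exists_isotropic_inverse (tpR C Y) tpR_mul tpR_tpR
    (cor0 C Y) (crg C Y (-c)) (tpR_ti i)
    (fun s hs m hm => by
      have := crg_mul (crg_zero_iff.2 hs) hm
      rwa [zero_add] at this)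
    (fun m hm s hs => by
      have := crg_mul hm (crg_zero_iff.2 hs)
      rwa [add_zero] at this)
    (fun m hm => by
      have := crg_mul hm hti
      rw [neg_add_cancel] at this
      exact crg_zero_iff.1 this)
    (fun m hm => by
      have : tp C (X := Y) (Y := Y) m ∈ C.gr (Y.prod Y) ((Y.dim : ℤ) + -c) := tp_mem C hm
      exact this)
    (π := π) (fun n => hπ.deg n) hc hππ hs hwb hγ
  obtain ⟨P, hP⟩ : ∃ P, P = ∑ n ∈ Finset.range X.dim, π n := ⟨_, rfl⟩
  rw [← hP] at hPG hGTP
  have hPπ : ∀ n < X.dim, P * π n = π n := fun n hn => hP ▸ ortho_sum_mul hππ hn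
  have hGTπ : ∀ n < X.dim, G * ti C i * π n = π n := by
    intro n hn
    calc G * ti C i * π n = G * ti C i * (P * π n) := by rw [hPπ n hn]
      _ = G * ti C i * P * π n := by simp only [mul_assoc]
      _ = π n := by rw [hGTP, hPπ n hn]
  let q : ℕ → Cor C X := fun n => if n < X.dim then pl i (π n * G) else 0
  have q1 : ∀ n < X.dim, q n = pl i (π n * G) := fun n hn => by simp only [q]; rw [if_pos hn]
  have q2 : ∀ n, ¬ n < X.dim → q n = 0 := fun n hn => by simp only [q]; rw [if_neg hn]
  have hact : ∀ (n : ℕ) (m : ℤ) (a : H.A X), n < X.dim → a ∈ H.gr X m →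
      actH C X H (q n) a = if m = n then a else 0 := by
    intro n m a hn ha
    rw [q1 n hn]
    split_ifs with hmn
    · subst hmn
      obtain ⟨y, hy, rfl⟩ := hsurj n hn a ha
      rw [actH_pl_pull]
      congr 1
      have e1 : actH C Y H (π n) y = y := by
        rw [hπ.actH_eq' n n hy, if_pos rfl]
      calc actH C Y H (π n * G * ti C i) y
          = actH C Y H (π n * G * ti C i) (actH C Y H (π n) y) := by rw [e1]
        _ = actH C Y H (π n * G * ti C i * π n) y := by rw [map_mul _ _ (π n)]; rfl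
        _ = actH C Y H (π n) y := by
            have e2 : π n * G * ti C i * π n = π n := by
              calc π n * G * ti C i * π n = π n * (G * ti C i * π n) := by
                    simp only [mul_assoc]
                _ = π n := by rw [hGTπ n hn, hππ, if_pos rfl]
            rw [e2]
        _ = y := e1
    · rw [actH_pl]
      have h1 : H.push i a ∈ H.gr Y (m + 2 * c) := by
        have := H.push_mem i ha
        rwa [hc, show m + 2 * (((X.dim + c : ℕ) : ℤ) - (X.dim : ℤ)) = m + 2 * c by
          push_cast; ring] at this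
      have h2 : actH C Y H G (H.push i a) ∈ H.gr Y m := by
        have := actH_crg (H := H) hG h1
        rwa [show m + 2 * (c : ℤ) + 2 * -(c : ℤ) = m by ring] at this
      rw [map_mul, Module.End.mul_apply, hπ.actH_eq' n m h2, if_neg hmn, map_zero]
  have key : ∃ π : ℕ → Cor C X, IsCK H X π ∧ IsSelfDual C (X := X) π ∧
      ∀ n < X.dim, π n = q n := by
    refine selfDual_of_half' (H := H) q ?_ ?_ ?_ ?_ ?_ hact ?_
    · intro n
      by_cases hn : n < X.dim
      · rw [q1 n hn]
        have h4 : π n * G ∈ crg C Y (-c) := by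
          have := crg_mul (crg_zero_iff.2 (hπ.deg n)) hG
          rwa [zero_add] at this
        have := pl_mem i hc h4
        rw [neg_add_cancel] at this
        exact crg_zero_iff.1 this
      · rw [q2 n hn]
        exact (cor0 C X).zero_mem
    · intro n hn
      exact q2 n (by omega)
    · intro m n
      by_cases hm : m < X.dim
      · by_cases hn : n < X.dim
        · rw [q1 m hm, q1 n hn, pl_mul]
          have e1 : π m * G * ti C i * (π n * G) = π m * (G * ti C i * π n) * G := by
            simp only [mul_assoc]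
          rw [e1, hGTπ n hn, hππ]
          split_ifs
          · rfl
          · rw [zero_mul, map_zero]
        · rw [q2 n hn, mul_zero, if_neg (by omega)]
      · rw [q2 m hm, zero_mul]
        split_ifs <;> rfl
    · intro m n
      by_cases hm : m < X.dim
      · by_cases hn : n < X.dim
        · rw [q1 m hm, q1 n hn, tpR_pl, pl_mul, tpR_mul]
          have e1 : π m * G * ti C i * (tpR C Y G * tpR C Y (π n)) =
              π m * (G * ti C i * tpR C Y G) * tpR C Y (π n) := by
            simp only [mul_assoc]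
          rw [e1, hGG, mul_zero, zero_mul, map_zero]
        · rw [q2 n hn, map_zero, mul_zero]
      · rw [q2 m hm, zero_mul]
    · intro m n
      by_cases hm : m < X.dim
      · by_cases hn : n < X.dim
        · rw [q1 m hm, q1 n hn, tpR_pl, pl_mul, tpR_mul, hs m (by omega)]
          have e1 : tpR C Y G * π (2 * Y.dim - m) * ti C i * (π n * G) =
              tpR C Y G * (π (2 * Y.dim - m) * ti C i * π n) * G := by
            simp only [mul_assoc]
          rw [e1, hwb n _ (by omega), mul_zero, zero_mul, map_zero]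
        · rw [q2 n hn, mul_zero]
      · rw [q2 m hm, map_zero, zero_mul]
    · intro n m a hn ha
      have h1 := Pool.Agent.Helper45M.SK.actH_tp (H := H) (a := q n)
        (fun m => if m = n then (1 : K) else 0)
        (fun m x hx => by
          rw [hact n m x hn hx]
          split_ifs
          · rw [one_smul]
          · rw [zero_smul]) m a ha
      rw [h1]
      by_cases h2 : m = (2 * X.dim - n : ℕ)
      · rw [if_pos h2, if_pos (by omega), one_smul]
      · rw [if_neg h2, if_neg (by omega), zero_smul]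

  obtain ⟨ρ, h1, h2, h3⟩ := key
  refine ⟨G, ρ, hG, ?_, ?_, h1, h2, fun n hn => ?_⟩
  · rw [← hP]; exact hPG
  · rw [← hP]; exact hGTP
  · rw [h3 n hn, q1 n hn]

end Pool.Agent.H92SD
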