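import Pool.Agent.H92SD.Ext
import Pool.Agent.H92SD.Section

/-!
# Curves are Lefschetz pairs
-/

set_option autoImplicit false

open CategoryTheory AlgebraicGeometry

universe u v w

namespace Pool.Agent.H92SD

open Pool.Agent.H914 Pool.Agent.H914.VarClass Pool.Agent.H914.VarClass.Obj Pool.Agent.W492.BB
  Pool.Agent.W550.Corr Pool.Agent.TH133 Pool.Agent.Y107

set_option linter.unusedSectionVars false

variable {k : Type u} [Field k] {𝒱 : VarClass k}

variable {C : TheoryData.{u, v, 0} 𝒱 ℚ} [hC : IsChowProj C] {X Y Z : 𝒱.Obj}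

section chow

include hC

lemma mc_mem {D : C.A X} (hD : C.Deg 1 D) : mc D ∈ crg C X 1 := by
  have h := C.push_mem (Obj.lift (𝟙 X) (𝟙 X)) hD
  have e1 : (1 : ℤ) + 1 * (((X.prod X).dim : ℤ) - (X.dim : ℤ)) = X.dim + 1 := by
    rw [dim_prod]; push_cast; ring
  rwa [e1] at h

lemma mc_ac (D x : C.A X) : ac (mc D) x = D * x := C.act_mulCorr D x

lemma mc_pow_mul_ex (D v α : C.A X) (n : ℕ) : mc D ^ n * ex v α = ex v (D ^ n * α) := by
  induction n with
  | zero => rw [pow_zero, pow_zero, one_mul, one_mul]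
  | succ n ih => rw [pow_succ', mul_assoc, ih, mul_ex, mc_ac, pow_succ', mul_assoc]

/-- The isomorphism `h^0 → h^(2d)(d)` given by `D^d`. -/
lemma iso_zero {D x : C.A X} (hx1 : HasDegree C x 1) {N : ℚ} (hN : N ≠ 0)
    (hD : HasDegree C (D ^ X.dim) N) : ∃ g ∈ crg C X (-X.dim),
    ex x 1 * g * ex 1 x * mc D ^ X.dim * ex x 1 = ex x 1 ∧
    ex 1 x * mc D ^ X.dim * ex x 1 * g * ex 1 x = ex 1 x := by
  have hx1' : HasDegree C (x * 1) 1 := by rw [mul_one]; exact hx1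
  have hx1'' : HasDegree C (1 * x) 1 := by rw [one_mul]; exact hx1
  have e1 : ex 1 x * mc D ^ X.dim * ex x 1 = N • ex x x := by
    rw [mul_assoc, mc_pow_mul_ex, mul_one, ex_mul_ex (q := N) (by rw [mul_one]; exact hD)]
  have e2 : ex x 1 * ex 1 1 * ex 1 x = ex (X := X) (C := C) 1 1 := by
    rw [ex_mul_ex hx1'', one_smul, ex_mul_ex hx1', one_smul]
  refine ⟨N⁻¹ • ex 1 1, ?_, ?_, ?_⟩
  · refine Submodule.smul_mem _ _ ?_
    have := ex_mem (C := C) (C.one_mem X) (C.one_mem X)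
    rwa [add_zero, zero_sub] at this
  · calc ex x 1 * (N⁻¹ • ex 1 1) * ex 1 x * mc D ^ X.dim * ex x 1
        = N⁻¹ • (ex x 1 * ex 1 1 * ex 1 x) * (mc D ^ X.dim * ex x 1) := by
          simp only [mul_smul_comm, smul_mul_assoc, mul_assoc]
      _ = N⁻¹ • (ex 1 1 * (mc D ^ X.dim * ex x 1)) := by rw [e2, smul_mul_assoc]
      _ = ex x 1 := by
          rw [mc_pow_mul_ex, mul_one, ex_mul_ex (q := N) (by rw [mul_one]; exact hD), smul_smul,
            inv_mul_cancel₀ hN, one_smul]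
  · rw [e1]
    simp only [mul_smul_comm, smul_mul_assoc, smul_smul]
    rw [inv_mul_cancel₀ hN, one_smul, ex_mul_ex hx1'', one_smul, ex_mul_ex hx1', one_smul]

end chow

variable {K : Type w} [Field K] {H : WeilTheoryData.{u, v, w} C K} [hH : IsWeilProj H]

include hC hH

lemma iso_mid {L : Cor C X} {ρ : ℕ → Cor C X} (hρ : IsCK H X ρ) : ∃ g ∈ crg C X (-((0 : ℕ) : ℤ)),
    ρ (X.dim - 0) * g * ρ (X.dim + 0) * L ^ 0 * ρ (X.dim - 0) = ρ (X.dim - 0) ∧
    ρ (X.dim + 0) * L ^ 0 * ρ (X.dim - 0) * g * ρ (X.dim + 0) = ρ (X.dim + 0) := by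
  have hρρ := fun i j => hρ.mul_eq i j
  refine ⟨1, crg_one, ?_, ?_⟩
  · rw [Nat.sub_zero, Nat.add_zero, pow_zero, mul_one, mul_one, hρρ, if_pos rfl, hρρ, if_pos rfl]
  · rw [Nat.sub_zero, Nat.add_zero, pow_zero, mul_one, mul_one, hρρ, if_pos rfl, hρρ, if_pos rfl]

end Pool.Agent.H92SD
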