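import Pool.Agent.H92SD.LamAlg
import Pool.Agent.H92SD.Curve

/-!
# Triangular systems of partial inverses give Lefschetz pairs
-/

set_option autoImplicit false

open CategoryTheory AlgebraicGeometry

universe u v w

namespace Pool.Agent.H92SD

open Pool.Agent.H914 Pool.Agent.H914.VarClass Pool.Agent.H914.VarClass.Obj Pool.Agent.W492.BB
  Pool.Agent.W550.Corr Pool.Agent.TH133 Pool.Agent.Y107

set_option linter.unusedSectionVars false

variable {k : Type u} [Field k] {𝒱 : VarClass k}

variable {C : TheoryData.{u, v, 0} 𝒱 ℚ} [hC : IsChowProj C] {X Y Z : 𝒱.Obj}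

variable {K : Type w} [Field K] {H : WeilTheoryData.{u, v, w} C K} [hH : IsWeilProj H]

include hC hH

lemma actH_smul_zero {a : Cor C X} {q : ℚ} {y : H.A X} (h : actH C X H a y = 0) :
    actH C X H (q • a) y = 0 := by
  rw [Algebra.smul_def, map_mul, Module.End.mul_apply, h, map_zero]

/-- **Triangular systems.** -/
theorem exists_wl_of_lamSys {L : Cor C X} (hL : L ∈ crg C X 1) {Λ : ℕ → Cor C X}
    (h : LamSys Λ (tpR C X) L X.dim) (hΛ : ∀ n < X.dim, Λ n ∈ crg C X ((n : ℤ) - X.dim))
    (hact : ∀ n < X.dim, ∀ (m : ℤ) (y : H.A X), y ∈ H.gr X m →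
      actH C X H (Λ n * L ^ (X.dim - n)) y = if m = n then y else 0) :
    ∃ ρ : ℕ → Cor C X, WLRing H L ρ := by
  obtain ⟨d, hd⟩ : ∃ d, d = X.dim := ⟨_, rfl⟩
  rw [← hd] at h hΛ hact
  have hLp : ∀ r : ℕ, L ^ r ∈ crg C X r := fun r => by
    have := crg_pow hL r
    rwa [mul_one] at this
  have hpm : ∀ n < d, Λ n * L ^ (d - n) ∈ crg C X 0 := by
    intro n hn
    have := crg_mul (hΛ n hn) (hLp (d - n))
    rwa [show (n : ℤ) - d + ((d - n : ℕ) : ℤ) = 0 by omega] at this
  have hFm : ∀ n ≤ d, FF Λ L d n ∈ crg C X 0 := by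
    intro n
    induction n with
    | zero => exact fun _ => crg_one
    | succ n ih =>
      intro hn
      change FF Λ L d n * (1 - Λ n * L ^ (d - n)) ∈ _
      have := crg_mul (ih (by omega)) (Submodule.sub_mem _ (crg_one (C := C) (X := X))
        (hpm n (by omega)))
      rwa [add_zero] at this
  have hqm : ∀ n < d, qq Λ L d n ∈ crg C X 0 := by
    intro n hn
    have := crg_mul (hFm n hn.le) (hpm n hn)
    rwa [add_zero] at this
  have hQm : QQ Λ L d ∈ crg C X 0 :=
    Submodule.sum_mem _ fun n hn => hqm n (Finset.mem_range.1 hn)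
  have hσQm : tpR C X (QQ Λ L d) ∈ crg C X 0 := by
    rw [crg_zero_iff] at hQm ⊢
    exact tpR_mem hQm
  have hqcm : ∀ n < d, qc Λ (tpR C X) L d n ∈ crg C X 0 := by
    intro n hn
    have := crg_mul (hqm n hn) (Submodule.sub_mem _ (crg_one (C := C) (X := X))
      (Submodule.smul_mem _ (1 / 2 : ℚ) hσQm))
    rwa [add_zero] at this
  -- the action on the cohomology
  have hFact : ∀ n ≤ d, ∀ m : ℤ, (n : ℤ) ≤ m → ∀ y ∈ H.gr X m,
      actH C X H (FF Λ L d n) y = y := by
    intro n
    induction n with
    | zero =>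
      intro _ m _ y _
      have e1 : FF Λ L d 0 = 1 := rfl
      rw [e1, map_one]
      rfl
    | succ n ih =>
      intro hn m hm y hy
      have e1 : FF Λ L d (n + 1) = FF Λ L d n * (1 - Λ n * L ^ (d - n)) := rfl
      rw [e1, map_mul, Module.End.mul_apply, map_sub, LinearMap.sub_apply,
        hact n (by omega) m y hy, if_neg (by push_cast at hm; omega), sub_zero, map_one,
        Module.End.one_apply]
      exact ih (by omega) m (by push_cast at hm; omega) y hy
  have hqact : ∀ n < d, ∀ (m : ℤ) (y : H.A X), y ∈ H.gr X m →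
      actH C X H (qq Λ L d n) y = if m = n then y else 0 := by
    intro n hn m y hy
    have e1 : qq Λ L d n = FF Λ L d n * (Λ n * L ^ (d - n)) := rfl
    rw [e1, map_mul, Module.End.mul_apply, hact n hn m y hy]
    split_ifs with h1
    · exact hFact n hn.le m (by omega) y hy
    · rw [map_zero]
  have hQact : ∀ (m : ℤ) (y : H.A X), y ∈ H.gr X m →
      actH C X H (QQ Λ L d) y = (if m < d then (1 : K) else 0) • y := by
    intro m y hy
    by_cases hy0 : y = 0
    · rw [hy0, map_zero, smul_zero]
    have hm0 := nonneg_of_mem H hy hy0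
    obtain ⟨m, rfl⟩ := Int.eq_ofNat_of_zero_le hm0
    unfold QQ
    rw [map_sum, LinearMap.sum_apply]
    by_cases hmd : (m : ℤ) < d
    · rw [if_pos hmd, one_smul, Finset.sum_eq_single m]
      · rw [hqact m (by omega) m y hy, if_pos rfl]
      · intro j hj hjm
        rw [hqact j (Finset.mem_range.1 hj) m y hy, if_neg]
        intro h1; apply hjm; exact_mod_cast h1.symm
      · intro h1
        exfalso; apply h1; rw [Finset.mem_range]; omega
    · rw [if_neg hmd, zero_smul]
      apply Finset.sum_eq_zero
      intro j hj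
      rw [Finset.mem_range] at hj
      rw [hqact j hj m y hy, if_neg (by omega)]
  have hσQact : ∀ (m : ℤ) (y : H.A X), y ∈ H.gr X m →
      actH C X H (tpR C X (QQ Λ L d)) y = if (d : ℤ) < m then y else 0 := by
    intro m y hy
    rw [Pool.Agent.Helper45M.SK.actH_tp (H := H) (a := QQ Λ L d)
      (fun m => if m < (d : ℤ) then (1 : K) else 0) (fun m x hx => hQact m x hx) m y hy]
    by_cases h1 : (d : ℤ) < m
    · rw [if_pos h1, if_pos (by omega), one_smul]
    · rw [if_neg h1, if_neg (by omega), zero_smul]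
  have hqcact : ∀ n < d, ∀ (m : ℤ) (y : H.A X), y ∈ H.gr X m →
      actH C X H (qc Λ (tpR C X) L d n) y = if m = n then y else 0 := by
    intro n hn m y hy
    have e1 : qc Λ (tpR C X) L d n = qq Λ L d n -
        (1 / 2 : ℚ) • (qq Λ L d n * tpR C X (QQ Λ L d)) := by
      unfold qc
      rw [mul_sub, mul_one, mul_smul_comm]
    have e2 : actH C X H (qq Λ L d n * tpR C X (QQ Λ L d)) y = 0 := by
      rw [map_mul, Module.End.mul_apply, hσQact m y hy]
      split_ifs with h1
      · rw [hqact n hn m y hy, if_neg (by omega)]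
      · rw [map_zero]
    rw [e1, map_sub, LinearMap.sub_apply, actH_smul_zero e2, sub_zero, hqact n hn m y hy]
  let q : ℕ → Cor C X := fun n => if n < d then qc Λ (tpR C X) L d n else 0
  have q1 : ∀ n < d, q n = qc Λ (tpR C X) L d n := fun n hn => if_pos hn
  have q2 : ∀ n, ¬ n < d → q n = 0 := fun n hn => if_neg hn
  have key : ∃ π : ℕ → Cor C X, IsCK H X π ∧ IsSelfDual C (X := X) π ∧
      ∀ n < X.dim, π n = q n := by
    refine selfDual_of_half' (H := H) q ?_ ?_ ?_ ?_ ?_ ?_ ?_
    · intro n
      by_cases hn : n < d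
      · rw [q1 n hn]
        exact crg_zero_iff.1 (hqcm n hn)
      · rw [q2 n hn]
        exact (cor0 C X).zero_mem
    · intro n hn
      exact q2 n (by omega)
    · intro m n
      by_cases hm : m < d
      · by_cases hn : n < d
        · rw [q1 m hm, q1 n hn, h.qc_mul tpR_mul hm hn]
        · rw [q2 n hn, mul_zero, if_neg (by omega)]
      · rw [q2 m hm, zero_mul]
        split_ifs <;> rfl
    · intro m n
      by_cases hm : m < d
      · by_cases hn : n < d
        · rw [q1 m hm, q1 n hn, h.qc_σqc tpR_mul tpR_tpR tpR_one hm hn]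
        · rw [q2 n hn, map_zero, mul_zero]
      · rw [q2 m hm, zero_mul]
    · intro m n
      by_cases hm : m < d
      · by_cases hn : n < d
        · rw [q1 m hm, q1 n hn, h.σqc_mul tpR_mul hm hn]
        · rw [q2 n hn, mul_zero]
      · rw [q2 m hm, map_zero, zero_mul]
    · intro n m a hn ha
      rw [← hd] at hn
      rw [q1 n hn, hqcact n hn m a ha]
    · intro n m a hn ha
      rw [← hd] at hn
      have h1 := Pool.Agent.Helper45M.SK.actH_tp (H := H) (a := q n)
        (fun m => if m = n then (1 : K) else 0)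
        (fun m x hx => by
          rw [q1 n hn, hqcact n hn m x hx]
          split_ifs
          · rw [one_smul]
          · rw [zero_smul]) m a ha
      rw [h1]
      by_cases h2 : m = (2 * X.dim - n : ℕ)
      · rw [if_pos h2, if_pos (by omega), one_smul]
      · rw [if_neg h2, if_neg (by omega), zero_smul]
  obtain ⟨ρ, hck, hsd, hρq⟩ := key
  have hsd' : ∀ n ≤ 2 * X.dim, tpR C X (ρ n) = ρ (2 * X.dim - n) := hsd
  have hρ : ∀ n < d, ρ n = qc Λ (tpR C X) L d n := by
    intro n hn
    rw [hρq n (by omega), q1 n hn]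
  have hρρ := fun i j => hck.mul_eq i j
  have hρW : ∀ n < d, InW Λ (n + 1) (ρ n) := by
    intro n hn
    rw [hρ n hn]
    exact qc_mem n
  -- the low parts
  have hlow : ∀ a ≤ d, ∀ v, InW Λ a v → ∀ b, a ≤ b → ρ b * v = 0 := by
    intro a ha v hv b hab
    have e1 : v = ∑ m ∈ Finset.range a, ρ m * v := by
      have e2 : ∀ m ∈ Finset.range a, ρ m * v = qq Λ L d m * v := by
        intro m hm
        rw [Finset.mem_range] at hm
        rw [hρ m (by omega)]
        exact h.qc_W tpR_mul (hv.mono ha)
      rw [Finset.sum_congr rfl e2, h.sum_q_W ha hv]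
    rw [e1, Finset.mul_sum]
    apply Finset.sum_eq_zero
    intro m hm
    rw [Finset.mem_range] at hm
    rw [← mul_assoc, hρρ, if_neg (by omega), zero_mul]
  have low : ∀ a b, a < d → a + 2 < b → ρ b * L * ρ a = 0 := by
    intro a b ha hab
    rcases le_or_gt b d with hb | hb
    · rw [mul_assoc]
      exact hlow (a + 3) (by omega) _ (h.L_W (by omega) (hρW a ha)) b (by omega)
    · rcases le_or_gt b (2 * d) with hb2 | hb2
      · have e1 : ρ b = tpR C X (ρ (2 * d - b)) := by
          rw [hsd' _ (by omega), ← hd]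
          congr 1
          omega
        rw [e1]
        have := h.vanish tpR_mul (j := 1) (a := a + 1) (l := 2 * d - b + 1) (by omega)
          (by omega) (by omega) (hρW a ha) (hρW (2 * d - b) (by omega))
        rwa [pow_one] at this
      · rw [show ρ b = 0 from hck.out b (by omega), zero_mul, zero_mul]
  refine ⟨ρ, hck, hsd', fun a b hab => ?_, fun s hs => ?_⟩
  · rcases lt_or_ge a d with ha | ha
    · exact low a b ha hab
    · rcases le_or_gt b (2 * X.dim) with hb2 | hb2
      · have h1 := low (2 * X.dim - b) (2 * X.dim - a) (by omega) (by omega)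
        have h2 := congrArg (tpR C X) h1
        rw [tpR_mul, tpR_mul, map_zero, h.sL, hsd' _ (by omega), hsd' _ (by omega),
          ← mul_assoc, show 2 * X.dim - (2 * X.dim - b) = b by omega,
          show 2 * X.dim - (2 * X.dim - a) = a by omega] at h2
        exact h2
      · rw [show ρ b = 0 from hck.out b hb2, zero_mul, zero_mul]
  · rcases Nat.eq_zero_or_pos s with hs0 | hs0
    · subst hs0
      exact iso_mid hck
    · obtain ⟨n, hn⟩ : ∃ n, n = X.dim - s := ⟨_, rfl⟩
      have hnd : n < d := by omega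
      have hdn : d - n = s := by omega
      have hΛn := h.sΛ n hnd
      obtain ⟨F, hF⟩ : ∃ F, F = FF Λ L d n := ⟨_, rfl⟩
      obtain ⟨R, hR⟩ : ∃ R, R = 1 - (1 / 2 : ℚ) • tpR C X (QQ Λ L d) := ⟨_, rfl⟩
      have e0 : ρ n = F * Λ n * L ^ s * R := by
        rw [hρ n hnd, hF, hR, ← hdn]
        unfold qc qq
        simp only [mul_assoc]
      have hLs : tpR C X (L ^ s) = L ^ s := by
        clear e0 hdn hs0 hn
        induction s with
        | zero => rw [pow_zero, tpR_one]
        | succ s ih => rw [pow_succ, tpR_mul, ih (by omega), h.sL, ← pow_succ', pow_succ]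
      have e0' : ρ (X.dim + s) = tpR C X R * L ^ s * (Λ n * tpR C X F) := by
        have e1 : ρ (X.dim + s) = tpR C X (ρ n) := by
          rw [hsd' n (by omega)]
          congr 1
          omega
        rw [e1, e0, tpR_mul, tpR_mul, tpR_mul, hΛn, hLs]
        simp only [mul_assoc]
      -- `F Λ = Λ` modulo the lower part
      have hv : InW Λ n (Λ n - F * Λ n) := hF ▸ FF_Λ_sub n
      have hΛW : InW Λ (n + 1) (Λ n) := by
        have := InW.of (Λ := Λ) (show n < n + 1 by omega) 1
        rwa [mul_one] at this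
      have k1 : Λ n * L ^ s * (F * Λ n) = Λ n := by
        have e1 := h.vanish tpR_mul (j := s) (a := n) (l := n + 1) (by omega) (by omega)
          (by omega) hv hΛW
        rw [hΛn, mul_sub] at e1
        have e2 := h.inv n hnd
        rw [hdn] at e2
        rw [e2] at e1
        exact (sub_eq_zero.1 e1).symm
      have k2 : tpR C X (F * Λ n) * L ^ s * Λ n = Λ n := by
        have e1 : tpR C X (Λ n * L ^ s * (F * Λ n)) = tpR C X (F * Λ n) * L ^ s * Λ n := by
          rw [tpR_mul, tpR_mul (Λ n) (L ^ s), hLs, hΛn, ← mul_assoc]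
        rw [← e1, k1, hΛn]
      have k2' : Λ n * tpR C X F * L ^ s * Λ n = Λ n := by
        rw [tpR_mul, hΛn] at k2
        exact k2
      have k3 : tpR C X (F * Λ n) * L ^ s * (F * Λ n) = Λ n := by
        have hFW : InW Λ (n + 1) (F * Λ n) := by
          have e1 : F * Λ n = Λ n - (Λ n - F * Λ n) := by abel
          rw [e1]
          exact hΛW.sub (hv.mono (by omega))
        have e1 := h.vanish tpR_mul (j := s) (a := n) (l := n + 1) (by omega) (by omega)
          (by omega) hv hFW
        rw [mul_sub, k2] at e1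
        exact (sub_eq_zero.1 e1).symm
      have hRF : R * (F * Λ n) = F * Λ n := by
        have hFW : InW Λ d (F * Λ n) := by
          have e1 : F * Λ n = Λ n - (Λ n - F * Λ n) := by abel
          rw [e1]
          exact (hΛW.mono (by omega)).sub (hv.mono (by omega))
        rw [hR]
        exact h.R_W tpR_mul hFW
      have hFR : tpR C X (F * Λ n) * tpR C X R = tpR C X (F * Λ n) := by
        rw [← tpR_mul, hRF]
      -- the middle product
      have k4 : ρ (X.dim + s) * L ^ s * ρ n = tpR C X R * L ^ s * Λ n * L ^ s * R := by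
        rw [e0, e0']
        have e1 : tpR C X R * L ^ s * (Λ n * tpR C X F) * L ^ s * (F * Λ n * L ^ s * R) =
            tpR C X R * L ^ s * (Λ n * tpR C X F * L ^ s * (F * Λ n)) * L ^ s * R := by
          simp only [mul_assoc]
        have e2 : Λ n * tpR C X F * L ^ s * (F * Λ n) = Λ n := by
          have := k3
          rw [tpR_mul, hΛn] at this
          exact this
        rw [e1, e2]
      have hg : F * Λ n * tpR C X F ∈ crg C X (-s) := by
        have hFm' : F ∈ crg C X 0 := hF ▸ hFm n hnd.le
        have hFt : tpR C X F ∈ crg C X 0 := by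
          rw [crg_zero_iff] at hFm' ⊢
          exact tpR_mem hFm'
        have := crg_mul (crg_mul hFm' (hΛ n hnd)) hFt
        rwa [show (0 : ℤ) + ((n : ℤ) - d) + 0 = -s by omega] at this
      have hn2 : X.dim - s = n := hn.symm
      rw [hn2]
      have k5 : F * Λ n * tpR C X F * (ρ (X.dim + s) * L ^ s * ρ n) = ρ n := by
        rw [k4, e0]
        have e1 : F * Λ n * tpR C X F * (tpR C X R * L ^ s * Λ n * L ^ s * R) =
            F * ((Λ n * tpR C X F) * tpR C X R) * L ^ s * Λ n * L ^ s * R := by
          simp only [mul_assoc]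
        have e2 : (Λ n * tpR C X F) * tpR C X R = Λ n * tpR C X F := by
          have := hFR
          rw [tpR_mul, hΛn] at this
          exact this
        have e3 : F * (Λ n * tpR C X F) * L ^ s * Λ n * L ^ s * R =
            F * (Λ n * tpR C X F * L ^ s * Λ n) * L ^ s * R := by simp only [mul_assoc]
        rw [e1, e2, e3, k2']
      have k6 : ρ (X.dim + s) * L ^ s * ρ n * (F * Λ n * tpR C X F) = ρ (X.dim + s) := by
        rw [k4, e0']
        have e1 : tpR C X R * L ^ s * Λ n * L ^ s * R * (F * Λ n * tpR C X F) =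
            tpR C X R * L ^ s * (Λ n * L ^ s * (R * (F * Λ n))) * tpR C X F := by
          simp only [mul_assoc]
        rw [e1, hRF, k1]
        simp only [mul_assoc]
      refine ⟨F * Λ n * tpR C X F, hg, ?_, ?_⟩
      · calc ρ n * (F * Λ n * tpR C X F) * ρ (X.dim + s) * L ^ s * ρ n
            = ρ n * (F * Λ n * tpR C X F * (ρ (X.dim + s) * L ^ s * ρ n)) := by
              simp only [mul_assoc]
          _ = ρ n := by rw [k5, hρρ, if_pos rfl]
      · rw [k6, hρρ, if_pos rfl]

end Pool.Agent.H92SD
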