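import Pool.Agent.H92SD.Even
import Pool.Agent.H92SD.Lam

/-!
# Varieties with simple cohomology below the middle are Lefschetz pairs
-/

set_option autoImplicit false

open CategoryTheory AlgebraicGeometry Module

universe u v w

namespace Pool.Agent.H92SD

open Pool.Agent.H914 Pool.Agent.H914.VarClass Pool.Agent.H914.VarClass.Obj Pool.Agent.W492.BB
  Pool.Agent.W550.Corr Pool.Agent.TH133 Pool.Agent.Y107

set_option linter.unusedSectionVars false

variable {k : Type u} [Field k] {𝒱 : VarClass k}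

variable {C : TheoryData.{u, v, 0} 𝒱 ℚ} [hC : IsChowProj C] {X Y Z : 𝒱.Obj}

variable {K : Type w} [Field K] {H : WeilTheoryData.{u, v, w} C K} [hH : IsWeilProj H]

include hC hH

lemma actH_mc_pow (D : C.A X) (n : ℕ) (y : H.A X) :
    actH C X H (mc D ^ n) y = H.cl D ^ n * y := by
  induction n generalizing y with
  | zero => rw [pow_zero, pow_zero, one_mul, map_one]; rfl
  | succ n ih =>
    rw [pow_succ', pow_succ', map_mul, Module.End.mul_apply, ih, mul_assoc]
    exact actH_mc D _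

/-- The properties of the partial inverses on the even cohomology. -/
structure EvenGood (H : WeilTheoryData.{u, v, w} C K) [IsWeilProj H] {X : 𝒱.Obj} (D : C.A X)
    (i : ℕ) (E : Cor C X) : Prop where
  dec : E ∈ Dec C X i
  sym : tpR C X E = E
  inv : E * mc D ^ (X.dim - 2 * i) * E = E
  act : ∀ y ∈ H.gr X (2 * (i : ℤ)), actH C X H (E * mc D ^ (X.dim - 2 * i)) y = y

lemma even_zero {D : C.A X} (h : SimpleBelow H X D) (hd : 0 < X.dim) :
    ∃ E, EvenGood H D 0 E := by
  have hDd : D ^ X.dim ∈ C.gr X X.dim := by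
    have := pow_mul_gr h.deg X.dim (C.one_mem X)
    rwa [mul_one, add_zero] at this
  obtain ⟨N, hN⟩ := exists_hasDegree H hDd
  have hN0 : N ≠ 0 := by
    intro h0
    rw [h0] at hN
    have h1 := cl_eq_zero_of_hasDegree (H := H) hDd hN
    have h2 := (h.even 0 (by omega)).2 1 (by
      rw [Nat.cast_zero, mul_zero]
      exact H.one_mem X) (by
      rw [lefPow, mul_one, mul_zero, Nat.sub_zero, ← map_pow, h1])
    exact hH.one_ne_zero X h2
  have hN' : HasDegree C (D ^ X.dim * 1) N := by rw [mul_one]; exact hN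
  have e1 : ex (1 : C.A X) 1 * mc D ^ X.dim * ex 1 1 = N • ex 1 1 := by
    rw [mul_assoc, mc_pow_mul_ex, mul_one, ex_mul_ex (q := N) hN']
  have h1gr : (1 : C.A X) ∈ C.gr X ((0 : ℕ) : ℤ) := by
    rw [Nat.cast_zero]
    exact C.one_mem X
  refine ⟨N⁻¹ • ex 1 1, Submodule.smul_mem _ _ (ex_mem_dec h1gr h1gr), ?_, ?_, ?_⟩
  · rw [tpR_smul, tpR_ex]
  · rw [mul_zero, Nat.sub_zero, smul_mul_assoc, smul_mul_assoc, mul_smul_comm, e1, smul_smul N⁻¹ N,
      inv_mul_cancel₀ hN0, one_smul]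
  · intro y hy
    rw [Nat.cast_zero, mul_zero] at hy
    obtain ⟨c, rfl⟩ := hH.gr_zero X y hy
    rw [map_smul]
    congr 1
    rw [mul_zero, Nat.sub_zero, ← map_one H.cl, ← cl_ac, ac_mul, ac_pow, mul_one, smul_ac,
      ac_ex (q := N) (by rw [one_mul]; exact hN), smul_smul, inv_mul_cancel₀ hN0, one_smul]

lemma even_succ {D : C.A X} (h : SimpleBelow H X D) {i : ℕ} (hi : 2 * (i + 1) < X.dim)
    {E : Cor C X} (hE : EvenGood H D i E) :
    ∃ E', EvenGood H D (i + 1) E' ∧ E' * mc D ^ (X.dim - 2 * i - 1) * E = mc D * E := by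
  obtain ⟨⟨S, hS, hspan⟩, hinj⟩ := h.even (i + 1) hi
  have e1 : mc D ^ (X.dim - 2 * i) = mc D * mc D ^ (X.dim - 2 * (i + 1)) * mc D := by
    rw [← pow_succ', ← pow_succ]
    congr 1
    omega
  obtain ⟨E', h1, h2, h3, h4, h5⟩ := even_step (H := H) h.deg (i := i)
    (r := X.dim - 2 * (i + 1)) (by omega) hE.dec hE.sym (by rw [← e1]; exact hE.inv) S hS hspan
    (fun y hy hy0 => hinj y hy (by rw [lefPow, ← actH_mc_pow]; exact hy0))
  refine ⟨E', ⟨h1, h2, h3, h4⟩, ?_⟩
  rw [show X.dim - 2 * i - 1 = X.dim - 2 * (i + 1) + 1 by omega, pow_succ]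
  exact h5

lemma exists_even {D : C.A X} (h : SimpleBelow H X D) : ∃ E : ℕ → Cor C X,
    (∀ i, 2 * i < X.dim → EvenGood H D i (E i)) ∧
    ∀ i, 2 * (i + 1) < X.dim → E (i + 1) * mc D ^ (X.dim - 2 * i - 1) * E i = mc D * E i := by
  have key : ∀ n, ∃ E : ℕ → Cor C X, (∀ i ≤ n, 2 * i < X.dim → EvenGood H D i (E i)) ∧
      ∀ i < n, 2 * (i + 1) < X.dim →
        E (i + 1) * mc D ^ (X.dim - 2 * i - 1) * E i = mc D * E i := by
    intro n
    induction n with
    | zero =>
      by_cases hd : 0 < X.dim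
      · obtain ⟨E, hE⟩ := even_zero h hd
        refine ⟨fun _ => E, fun i hi _ => ?_, fun i hi => absurd hi (Nat.not_lt_zero i)⟩
        rw [Nat.le_zero.1 hi]
        exact hE
      · exact ⟨fun _ => 0, fun i _ hi => absurd hi (by omega),
          fun i hi => absurd hi (Nat.not_lt_zero i)⟩
    | succ n ih =>
      obtain ⟨E, hE, hl⟩ := ih
      by_cases hn : 2 * (n + 1) < X.dim
      · obtain ⟨E', hE', hl'⟩ := even_succ h hn (hE n le_rfl (by omega))
        refine ⟨Function.update E (n + 1) E', fun i hi hi2 => ?_, fun i hi hi2 => ?_⟩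
        · by_cases h1 : i = n + 1
          · rw [h1, Function.update_self]
            exact hE'
          · rw [Function.update_of_ne h1]
            exact hE i (by omega) hi2
        · by_cases h1 : i = n
          · rw [h1, Function.update_self, Function.update_of_ne (by omega)]
            exact hl'
          · rw [Function.update_of_ne (by omega), Function.update_of_ne (by omega)]
            exact hl i (by omega) hi2
      · refine ⟨E, fun i hi hi2 => ?_, fun i hi hi2 => ?_⟩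
        · exact hE i (by omega) hi2
        · exact hl i (by omega) hi2
  obtain ⟨E, h1, h2⟩ := key X.dim
  exact ⟨E, fun i hi => h1 i (by omega) hi, fun i hi => h2 i (by omega) hi⟩

/-- The properties of the partial inverse on `H^1`. -/
structure OddGood (H : WeilTheoryData.{u, v, w} C K) [IsWeilProj H] {X : 𝒱.Obj} (D : C.A X)
    (Λ : Cor C X) : Prop where
  mem : Λ ∈ crg C X (1 - X.dim)
  sym : tpR C X Λ = Λ
  act : ∀ y ∈ H.gr X 1, actH C X H (Λ * mc D ^ (X.dim - 1)) y = y
  act_ne : ∀ j : ℤ, j ≠ 2 * X.dim - 1 → ∀ v ∈ H.gr X j, actH C X H Λ v = 0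
  inv : Λ * mc D ^ (X.dim - 1) * Λ = Λ
  van : ∀ j : ℕ, j + 1 < X.dim → Λ * mc D ^ j * Λ = 0

lemma exists_oddGood {D : C.A X} (h : SimpleBelow H X D) (hd : 2 ≤ X.dim) :
    ∃ Λ, OddGood H D Λ := by
  obtain ⟨Λ₀, h1, h2⟩ := h.inverse hd
  have key : ∃ Λ0 : Cor C X, Λ0 ∈ crg C X (1 - X.dim) ∧
      ∀ y ∈ H.gr X 1, actH C X H (Λ0 * mc D ^ (X.dim - 1)) y = y := by
    obtain ⟨Λ0, hΛ0⟩ : ∃ Λ0 : Cor C X, Λ0 = Λ₀ := ⟨_, rfl⟩
    rw [← hΛ0] at h1 h2
    refine ⟨Λ0, ?_, fun y hy => ?_⟩
    · refine mem_crg.2 ?_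
      rw [show (X.dim : ℤ) + (1 - X.dim) = 1 by ring]
      exact h1
    · have e1 := h2 y hy
      rw [lefPow, ← actH_mc_pow] at e1
      rw [map_mul, Module.End.mul_apply]
      exact e1
  obtain ⟨Λ0, h3, h4⟩ := key
  obtain ⟨Λ, g1, g2, g3, g4, g5, g6⟩ := exists_odd (H := H) hd h.deg h3 h4 (by
    intro z hz hz0
    have h5 : C.Deg 1 (X := X.prod X) z := by
      rw [mem_crg, show (X.dim : ℤ) + (1 - X.dim) = 1 by ring] at hz
      exact hz
    have h6 : H.cl (X := X.prod X) z = 0 := by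
      apply hom_zero_of_act H (X := X) (Y := X)
      exact fun v => LinearMap.congr_fun hz0 v
    obtain ⟨a, b, ha, hb, hab⟩ := h.picard hd z h5 h6
    exact ⟨a, b, ha, hb, hab⟩)
  exact ⟨Λ, g1, g2, g3, g4, g5, g6⟩

lemma OddGood.van_dec {D : C.A X} (hD : C.Deg 1 D) {Λ : Cor C X} (h : OddGood H D Λ) {i t : ℕ}
    (hit : i + t < X.dim) {E : Cor C X} (hE : E ∈ Dec C X i) : Λ * mc D ^ t * E = 0 := by
  refine mul_dec_zero hE fun b hb => ?_
  rw [ac_mul, ac_pow]
  have h1 := pow_mul_gr hD t hb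
  have h2 := ac_mem h.mem h1
  rcases Nat.lt_or_ge (i + t + 1) X.dim with h3 | h3
  · rw [C.gr_neg X _ (by omega)] at h2
    exact (Submodule.mem_bot _).1 h2
  · rw [show (t : ℤ) + i + (1 - X.dim) = 0 by omega] at h2
    refine eq_zero_of_deg_zero (H := H) h2 ?_
    rw [cl_ac]
    exact h.act_ne (2 * (t + i)) (by omega) _ (H.cl_mem h1)

/-- **Varieties with simple cohomology below the middle.** -/
theorem lefschetzPair_simple {D : C.A X} (h : SimpleBelow H X D) : LefschetzPair H X D := by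
  have hD := h.deg
  have hL := mc_mem (C := C) hD
  obtain ⟨L, hLdef⟩ : ∃ L, L = mc D := ⟨_, rfl⟩
  obtain ⟨E, hE, hEl⟩ := exists_even h
  have hΛex : ∃ Λ : Cor C X, 2 ≤ X.dim → OddGood H D Λ := by
    by_cases hd : 2 ≤ X.dim
    · obtain ⟨Λ, hΛ⟩ := exists_oddGood h hd
      exact ⟨Λ, fun _ => hΛ⟩
    · exact ⟨0, fun hd' => absurd hd' hd⟩
  obtain ⟨Λ, hΛ⟩ := hΛex
  have hLt : tpR C X L = L := by rw [hLdef]; exact tpR_mc' D
  have hpt : ∀ n, tpR C X (L ^ n) = L ^ n := fun n => tpR_pow hLt n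
  have hO : ∀ i : ℕ, 2 * i + 1 < X.dim → OddGood H D Λ := fun i hi => hΛ (by omega)
  obtain ⟨F, hF⟩ : ∃ F : ℕ → Cor C X, F = fun n => if n % 2 = 0 then E (n / 2)
      else L ^ (n / 2) * Λ * L ^ (n / 2) := ⟨_, rfl⟩
  have hF0 : ∀ i, F (2 * i) = E i := by
    intro i
    rw [hF]
    simp only
    rw [if_pos (by omega), show 2 * i / 2 = i by omega]
  have hF1 : ∀ i, F (2 * i + 1) = L ^ i * Λ * L ^ i := by
    intro i
    rw [hF]
    simp only
    rw [if_neg (by omega), show (2 * i + 1) / 2 = i by omega]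
  have hpar : ∀ n : ℕ, (∃ i, n = 2 * i) ∨ ∃ i, n = 2 * i + 1 := by
    intro n
    rcases Nat.even_or_odd' n with ⟨i, hi | hi⟩
    · exact Or.inl ⟨i, hi⟩
    · exact Or.inr ⟨i, hi⟩
  have hFsym : ∀ n < X.dim, tpR C X (F n) = F n := by
    intro n hn
    rcases hpar n with ⟨i, rfl⟩ | ⟨i, rfl⟩
    · rw [hF0]
      exact (hE i hn).sym
    · rw [hF1, tpR_mul, tpR_mul, hpt, (hO i hn).sym, mul_assoc]
  have hsys : LamSys F (tpR C X) L X.dim := by
    refine ⟨hLt, hFsym, ?_, ?_, ?_⟩
    · intro n hn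
      rcases hpar n with ⟨i, rfl⟩ | ⟨i, rfl⟩
      · rw [hF0, hLdef]
        exact (hE i hn).inv
      · have h1 := (hO i hn).inv
        rw [← hLdef] at h1
        calc F (2 * i + 1) * L ^ (X.dim - (2 * i + 1)) * F (2 * i + 1)
            = L ^ i * (Λ * (L ^ i * L ^ (X.dim - (2 * i + 1)) * L ^ i) * Λ) * L ^ i := by
              rw [hF1]; simp only [mul_assoc]
          _ = L ^ i * (Λ * L ^ (X.dim - 1) * Λ) * L ^ i := by
              rw [← pow_add, ← pow_add, show i + (X.dim - (2 * i + 1)) + i = X.dim - 1 by omega]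
          _ = F (2 * i + 1) := by rw [h1, hF1]
    · have hmix : ∀ i i' j : ℕ, 2 * i < X.dim → 2 * i' + 1 < X.dim → i + (i' + j) < X.dim →
          F (2 * i' + 1) * L ^ j * F (2 * i) = 0 := by
        intro i i' j hi hi' hij
        have h1 := (hO i' hi').van_dec hD (t := i' + j) hij (hE i hi).dec
        rw [← hLdef, pow_add] at h1
        calc F (2 * i' + 1) * L ^ j * F (2 * i) = L ^ i' * (Λ * (L ^ i' * L ^ j) * E i) := by
              rw [hF1, hF0]; simp only [mul_assoc]
          _ = 0 := by rw [h1, mul_zero]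
      intro m hm n hn j hj
      rcases hpar m with ⟨i', rfl⟩ | ⟨i', rfl⟩
      · rcases hpar n with ⟨i, rfl⟩ | ⟨i, rfl⟩
        · rw [hF0, hF0, hLdef]
          exact dec_van hD (hE i hn).dec (hE i' hm).dec (by omega)
        · have h1 := congrArg (tpR C X) (hmix i' i j hm hn (by omega))
          rw [tpR_mul, tpR_mul, hpt, hFsym _ hn, hFsym _ hm, map_zero, ← mul_assoc] at h1
          exact h1
      · rcases hpar n with ⟨i, rfl⟩ | ⟨i, rfl⟩
        · exact hmix i i' j hn hm (by omega)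
        · have h1 := (hO i hn).van (i' + j + i) (by omega)
          rw [← hLdef, pow_add, pow_add] at h1
          calc F (2 * i' + 1) * L ^ j * F (2 * i + 1)
              = L ^ i' * (Λ * (L ^ i' * L ^ j * L ^ i) * Λ) * L ^ i := by
                rw [hF1, hF1]; simp only [mul_assoc]
            _ = 0 := by rw [h1, mul_zero, zero_mul]
    · intro n hn
      rcases hpar n with ⟨i, rfl⟩ | ⟨i, rfl⟩
      · have h1 := hEl i (by omega)
        rw [← hLdef, mul_assoc] at h1
        rw [hF0, ← h1, ← hF0 (i + 1)]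
        exact InW.of (by omega) _
      · have h1 := (hO i (by omega)).inv
        rw [← hLdef] at h1
        have h2 : L * F (2 * i + 1) = F (2 * (i + 1) + 1) *
            (L ^ (X.dim - 1 - (i + 1)) * Λ * L ^ i) := by
          calc L * F (2 * i + 1) = L ^ (i + 1) * Λ * L ^ i := by
                rw [hF1, pow_succ']; simp only [mul_assoc]
            _ = L ^ (i + 1) * (Λ * L ^ (i + 1 + (X.dim - 1 - (i + 1))) * Λ) * L ^ i := by
                rw [show i + 1 + (X.dim - 1 - (i + 1)) = X.dim - 1 by omega, h1]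
            _ = F (2 * (i + 1) + 1) * (L ^ (X.dim - 1 - (i + 1)) * Λ * L ^ i) := by
                rw [hF1, pow_add L (i + 1)]; simp only [mul_assoc]
        rw [h2]
        exact InW.of (by omega) _
  have hFm : ∀ n < X.dim, F n ∈ crg C X ((n : ℤ) - X.dim) := by
    intro n hn
    rcases hpar n with ⟨i, rfl⟩ | ⟨i, rfl⟩
    · rw [hF0]
      have := dec_crg (hE i hn).dec
      rwa [show (2 : ℤ) * i - X.dim = ((2 * i : ℕ) : ℤ) - X.dim by push_cast; ring] at this
    · rw [hF1, hLdef]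
      have := crg_mul (crg_mul (crg_pow hL i) (hO i hn).mem) (crg_pow hL i)
      rwa [mul_one, show (i : ℤ) + (1 - X.dim) + i = ((2 * i + 1 : ℕ) : ℤ) - X.dim by
        push_cast; ring] at this
  have hact : ∀ n < X.dim, ∀ (m : ℤ) (y : H.A X), y ∈ H.gr X m →
      actH C X H (F n * L ^ (X.dim - n)) y = if m = n then y else 0 := by
    intro n hn m y hy
    rcases hpar n with ⟨i, rfl⟩ | ⟨i, rfl⟩
    · rw [hF0, hLdef]
      split_ifs with hm
      · rw [hm] at hy
        refine (hE i hn).act y ?_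
        push_cast at hy
        exact hy
      · rw [map_mul, Module.End.mul_apply]
        have h1 := actH_pow_mem hL (X.dim - 2 * i) hy
        exact dec_act (hE i hn).dec (by push_cast at hm; omega) h1
    · rw [hF1]
      have h1 := hO i hn
      have e1 : L ^ i * Λ * L ^ i * L ^ (X.dim - (2 * i + 1)) =
          L ^ i * (Λ * L ^ (i + (X.dim - (2 * i + 1)))) := by
        rw [pow_add]; simp only [mul_assoc]
      rw [e1]
      split_ifs with hm
      · rw [hm] at hy
        obtain ⟨x, hx, rfl⟩ := h.odd i hn y (by push_cast at hy; exact hy)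
        rw [lefPow, ← actH_mc_pow, ← hLdef, ← Module.End.mul_apply, ← map_mul]
        have e2 : L ^ i * (Λ * L ^ (i + (X.dim - (2 * i + 1)))) * L ^ i =
            L ^ i * (Λ * L ^ (X.dim - 1)) := by
          calc L ^ i * (Λ * L ^ (i + (X.dim - (2 * i + 1)))) * L ^ i
              = L ^ i * (Λ * (L ^ (i + (X.dim - (2 * i + 1))) * L ^ i)) := by
                simp only [mul_assoc]
            _ = L ^ i * (Λ * L ^ (X.dim - 1)) := by
                rw [← pow_add, show i + (X.dim - (2 * i + 1)) + i = X.dim - 1 by omega]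
        rw [e2, map_mul, Module.End.mul_apply, hLdef, h1.act x hx]
      · rw [hLdef, map_mul, Module.End.mul_apply, map_mul (actH C X H) Λ, Module.End.mul_apply]
        have h2 := actH_pow_mem (H := H) hL (i + (X.dim - (2 * i + 1))) hy
        rw [h1.act_ne _ (by push_cast at hm ⊢; omega) _ h2, map_zero]
  rw [← hLdef] at hL
  obtain ⟨ρ, hρ⟩ := exists_wl_of_lamSys hL hsys hFm hact
  refine ⟨hD, ρ, ?_⟩
  rw [hLdef] at hρ
  exact wl_iff.2 hρ

end Pool.Agent.H92SD
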