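import Pool.Agent.H92SD.Closure
import Pool.Agent.H92SD.Prod
import Pool.Agent.H92SD.Simple

/-!
# Homogeneous Lefschetz pairs, multiples, sections
-/

set_option autoImplicit false

open CategoryTheory AlgebraicGeometry

universe u v w

namespace Pool.Agent.H92SD

open Pool.Agent.H914 Pool.Agent.H914.VarClass Pool.Agent.H914.VarClass.Obj Pool.Agent.W492.BB
  Pool.Agent.W550.Corr Pool.Agent.TH133 Pool.Agent.Y107

set_option linter.unusedSectionVars false

variable {k : Type u} [Field k] {𝒱 : VarClass k}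

variable {C : TheoryData.{u, v, 0} 𝒱 ℚ} [hC : IsChowProj C] {X Y Z : 𝒱.Obj}

variable {K : Type w} [Field K] {H : WeilTheoryData.{u, v, w} C K} [hH : IsWeilProj H]

include hC hH

/-- Sections of Lefschetz pairs. -/
theorem LefschetzPair.sect (i : X ⟶ Y) {c : ℕ} (hc : Y.dim = X.dim + c) {D : C.A Y}
    {m : ℚ} (hm : m ≠ 0) (hi : C.push i 1 = m • D ^ c)
    (hsurj : ∀ n < X.dim, ∀ x : H.A X, H.Deg n x → ∃ y : H.A Y, H.Deg n y ∧ H.pull i y = x)
    (h : LefschetzPair H Y D) : LefschetzPair H X (C.pull i D) := by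
  obtain ⟨hD, π, h⟩ := h
  obtain ⟨ρ, hρ⟩ := WLRing.section' i hc hD hm hi hsurj (wl_iff.1 h)
  exact ⟨C.pull_mem i hD, ρ, wl_iff.2 hρ⟩

lemma WLRing.smul {L : Cor C X} {π : ℕ → Cor C X} {q : ℚ} (hq : q ≠ 0) (h : WLRing H L π) :
    WLRing H (q • L) π := by
  refine ⟨h.ck, h.selfDual, fun a b hab => ?_, fun s hs => ?_⟩
  · rw [mul_smul_comm, smul_mul_assoc, h.bounded a b hab, smul_zero]
  · obtain ⟨g, hg, h1, h2⟩ := h.iso s hs
    have e3 : (q ^ s)⁻¹ * q ^ s = 1 := inv_mul_cancel₀ (pow_ne_zero _ hq)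
    refine ⟨(q ^ s)⁻¹ • g, Submodule.smul_mem _ _ hg, ?_, ?_⟩
    · rw [_root_.smul_pow, mul_smul_comm, smul_mul_assoc, mul_smul_comm, smul_mul_assoc,
        smul_mul_assoc, smul_mul_assoc, smul_smul, mul_comm (q ^ s), e3, one_smul]
      exact h1
    · rw [_root_.smul_pow, mul_smul_comm, smul_mul_assoc, mul_smul_comm, smul_mul_assoc,
        smul_mul_assoc, smul_mul_assoc, smul_smul, e3, one_smul]
      exact h2

/-- Multiples of Lefschetz pairs. -/
theorem LefschetzPair.smul {D : C.A X} {q : ℚ} (hq : q ≠ 0) (h : LefschetzPair H X D) :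
    LefschetzPair H X (q • D) := by
  obtain ⟨hD, π, h⟩ := h
  refine ⟨Submodule.smul_mem _ _ hD, π, wl_iff.2 ?_⟩
  rw [mc_smul]
  exact (wl_iff.1 h).smul hq

lemma wlRing_of_homogeneous {L : Cor C X} {π : ℕ → Cor C X} (h3 : IsCK H X π)
    (h4 : IsSelfDual C (X := X) π) (h5 : MotivicLefschetz C (X := X) L π) : WLRing H L π := by
  have hom : ∀ n, L * π n = π (n + 2) * L := h5.homogeneous
  have hππ := fun i j => h3.mul_eq i j
  have hom' : ∀ c n, L ^ c * π n = π (n + 2 * c) * L ^ c := by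
    intro c
    induction c with
    | zero => intro n; simp
    | succ c ih =>
      intro n
      rw [pow_succ', mul_assoc, ih, ← mul_assoc, hom, mul_assoc]
      rfl
  refine ⟨h3, h4, fun a b hab => ?_, fun s hs => ?_⟩
  · rw [mul_assoc, hom, ← mul_assoc, hππ, if_neg (by omega), zero_mul]
  · have e0 : X.dim - s + 2 * s = X.dim + s := by omega
    have e2 : L ^ s * π (X.dim - s) = π (X.dim + s) * L ^ s := by rw [hom', e0]
    have key : ∃ g ∈ crg C X (-s), g * (L ^ s * π (X.dim - s)) = π (X.dim - s) ∧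
        L ^ s * (g * π (X.dim + s)) = π (X.dim + s) := by
      obtain ⟨g, hg, g1, g2⟩ := h5.iso (X.dim - s) (by omega)
      rw [corPow_eq, show X.dim - (X.dim - s) = s by omega] at g1 g2
      rw [show 2 * X.dim - (X.dim - s) = X.dim + s by omega] at g2
      refine ⟨g, mem_crg.2 ?_, g1, g2⟩
      rw [show (X.dim : ℤ) + -(s : ℤ) = ((X.dim - s : ℕ) : ℤ) by omega]
      exact hg
    obtain ⟨g, hg, g1', g2'⟩ := key
    refine ⟨g, hg, ?_, ?_⟩
    · calc π (X.dim - s) * g * π (X.dim + s) * L ^ s * π (X.dim - s)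
          = π (X.dim - s) * g * (π (X.dim + s) * (L ^ s * π (X.dim - s))) := by
            simp only [mul_assoc]
        _ = π (X.dim - s) * (g * (L ^ s * π (X.dim - s))) := by
            rw [e2, ← mul_assoc (π (X.dim + s)), hππ, if_pos rfl]
            simp only [mul_assoc]
        _ = π (X.dim - s) := by rw [g1', hππ, if_pos rfl]
    · calc π (X.dim + s) * L ^ s * π (X.dim - s) * g * π (X.dim + s)
          = π (X.dim + s) * (L ^ s * π (X.dim - s)) * (g * π (X.dim + s)) := by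
            simp only [mul_assoc]
        _ = π (X.dim + s) * (L ^ s * (g * π (X.dim + s))) := by
            rw [e2, ← mul_assoc (π (X.dim + s)) (π (X.dim + s)), hππ, if_pos rfl, mul_assoc]
        _ = π (X.dim + s) := by rw [g2', hππ, if_pos rfl]

lemma motivicLefschetz_of {L : Cor C X} {π : ℕ → Cor C X} (h1 : IsCK H X π)
    (hom : ∀ n, L * π n = π (n + 2) * L)
    (hiso : ∀ s ≤ X.dim, ∃ g ∈ crg C X (-s),
      π (X.dim - s) * g * π (X.dim + s) * L ^ s * π (X.dim - s) = π (X.dim - s) ∧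
      π (X.dim + s) * L ^ s * π (X.dim - s) * g * π (X.dim + s) = π (X.dim + s)) :
    MotivicLefschetz C (X := X) L π := by
  have hππ := fun i j => h1.mul_eq i j
  have hom' : ∀ c n, L ^ c * π n = π (n + 2 * c) * L ^ c := by
    intro c
    induction c with
    | zero => intro n; simp
    | succ c ih =>
      intro n
      rw [pow_succ', mul_assoc, ih, ← mul_assoc, hom, mul_assoc]
      rfl
  refine ⟨hom, fun n hn => ?_⟩
  obtain ⟨g, hg, g1, g2⟩ := hiso (X.dim - n) (by omega)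
  rw [show X.dim - (X.dim - n) = n by omega, show X.dim + (X.dim - n) = 2 * X.dim - n by omega]
    at g1 g2
  have e0 : L ^ (X.dim - n) * π n = π (2 * X.dim - n) * L ^ (X.dim - n) := by
    rw [hom', show n + 2 * (X.dim - n) = 2 * X.dim - n by omega]
  have e1 : L ^ (X.dim - n) * π n = π (2 * X.dim - n) * L ^ (X.dim - n) * π n := by
    rw [mul_assoc, e0, ← mul_assoc, hππ, if_pos rfl]
  obtain ⟨G, hG⟩ : ∃ G, G = π n * g * π (2 * X.dim - n) := ⟨_, rfl⟩
  have hGm : G ∈ crg C X (-((X.dim - n : ℕ) : ℤ)) := by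
    rw [hG]
    have := crg_mul (crg_mul (crg_zero_iff.2 (h1.deg n)) hg)
      (crg_zero_iff.2 (h1.deg (2 * X.dim - n)))
    rwa [zero_add, add_zero] at this
  have f1 : G * (L ^ (X.dim - n) * π n) = π n := by
    rw [hG, ← mul_assoc]
    exact g1
  have f2 : L ^ (X.dim - n) * (G * π (2 * X.dim - n)) = π (2 * X.dim - n) := by
    calc L ^ (X.dim - n) * (G * π (2 * X.dim - n))
        = (L ^ (X.dim - n) * π n) * g * (π (2 * X.dim - n) * π (2 * X.dim - n)) := by
          rw [hG]; simp only [mul_assoc]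
      _ = π (2 * X.dim - n) * L ^ (X.dim - n) * π n * g * π (2 * X.dim - n) := by
          rw [hππ, if_pos rfl, e1]
      _ = π (2 * X.dim - n) := g2
  refine ⟨G, ?_, ?_, ?_⟩
  · rw [mem_crg, show (X.dim : ℤ) + -((X.dim - n : ℕ) : ℤ) = (n : ℤ) by omega] at hGm
    exact hGm
  · rw [corPow_eq]
    exact f1
  · rw [corPow_eq]
    exact f2

lemma wlRing_of_homogeneous' {L : Cor C X} (hL : L ∈ crg C X 1) (hLt : tpR C X L = L)
    {π : ℕ → Cor C X} (h1 : IsCK H X π)
    (hom : ∀ n, L * π n = π (n + 2) * L)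
    (hiso : ∀ s ≤ X.dim, ∃ g ∈ crg C X (-s),
      π (X.dim - s) * g * π (X.dim + s) * L ^ s * π (X.dim - s) = π (X.dim - s) ∧
      π (X.dim + s) * L ^ s * π (X.dim - s) * g * π (X.dim + s) = π (X.dim + s)) :
    ∃ ρ : ℕ → Cor C X, WLRing H L ρ := by
  have h2 := motivicLefschetz_of h1 hom hiso
  obtain ⟨π, h3, h4, h5⟩ := exists_selfDual_of_inSquare (C := C) (X := X) (H := H) hL
    hLt (hardLefschetz_of_motivic h1 h2)
    (inSquare_of_powersRegular (C := C) (X := X) hL
      (powersRegular_of_motivicLefschetz (C := C) (X := X) (H := H) hL h1 h2))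
  exact ⟨π, wlRing_of_homogeneous h3 h4 h5⟩

/-- A Chow-Kunneth decomposition, not necessarily self-dual, with motivic hard Lefschetz for `D`. -/
theorem lefschetzPair_homogeneous {D : C.A X} (h : Homogeneous H X D) : LefschetzPair H X D := by
  obtain ⟨hD, π₀, h1, hom, hiso⟩ := h
  obtain ⟨ρ, hρ⟩ := wlRing_of_homogeneous' (H := H) (mc_mem hD) (tpR_mc' D) (π := π₀) h1 hom
    (fun s hs => by
      have h2 := (isoComponent_iff (fun i j => h1.mul_eq i j)).1 (hiso s hs)
      rw [mc_pow]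
      exact h2)
  exact ⟨hD, ρ, wl_iff.2 hρ⟩

end Pool.Agent.H92SD
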