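import Pool.Agent.H92SD.Base

/-!
# The class of Lefschetz pairs generated by products and sections
-/

set_option autoImplicit false

open CategoryTheory AlgebraicGeometry

universe u v w

namespace Pool.Agent.H92SD

open Pool.Agent.H914 Pool.Agent.H914.VarClass Pool.Agent.H914.VarClass.Obj Pool.Agent.W492.BB
  Pool.Agent.W550.Corr Pool.Agent.TH133 Pool.Agent.Y107

variable {k : Type u} [Field k] {𝒱 : VarClass k} {C : TheoryData.{u, v, 0} 𝒱 ℚ}

variable [hC : IsChowProj C] {K : Type w} [Field K] {H : WeilTheoryData.{u, v, w} C K}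
  [hH : IsWeilProj H]

/-- All pairs in the class are Lefschetz pairs. -/
theorem Generated.lefschetzPair {X : 𝒱.Obj} {D : C.A X} (h : Generated H X D) :
    LefschetzPair H X D := by
  induction h with
  | simple X D h => exact lefschetzPair_simple h
  | homogeneous X D h => exact lefschetzPair_homogeneous h
  | smul X D q hq _ ih => exact ih.smul hq
  | prod X Z D E _ _ ih ih' => exact ih.prod ih'
  | sect X Y i c D _ hi ih =>
    obtain ⟨m, hm, h1⟩ := hi.push_one
    exact ih.sect i hi.dim hm h1 hi.onto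

omit hH in
lemma comp_component {X : 𝒱.Obj} {π : ℕ → Cor C X}
    (hππ : ∀ i j, π i * π j = if i = j then π i else 0) (a b : ℕ) (Γ g : Cor C X) :
    C.comp (X := X) (Y := X) (Z := X) (component C (X := X) π a b Γ)
      (component C (X := X) π b a g) = π a * g * π b * Γ * π a := by
  rw [component_eq, component_eq]
  have hb : π b * π b = π b := by rw [hππ, if_pos rfl]
  have e1 : (π a * g * π b) * (π b * Γ * π a) = π a * g * π b * Γ * π a := by
    calc (π a * g * π b) * (π b * Γ * π a) = π a * g * (π b * π b) * Γ * π a := by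
          simp only [mul_assoc]
      _ = π a * g * π b * Γ * π a := by rw [hb]
  rw [← e1]
  rfl

/-- The general form of the decomposition of a section. -/
theorem exists_selfDual_aux {X Y : 𝒱.Obj} (i : X ⟶ Y) (c : ℕ) (hc : Y.dim = X.dim + c)
    (π : ℕ → Cor C Y) (hπ : IsCK H Y π) (hs : IsSelfDual C (X := Y) π)
    (hwb : NotRaising C (X := Y) π c (C.mulCorr (C.push i 1)))
    (hγ : ∀ n < X.dim, ∃ γ : Cor C Y, γ ∈ crg C Y (-c) ∧
      C.comp (X := Y) (Y := Y) (Z := Y)
        (component C (X := Y) π n (n + 2 * c) (C.mulCorr (C.push i 1)))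
        (component C (X := Y) π (n + 2 * c) n γ) = π n)
    (hsurj : OntoBelow H i) :
    ∃ ρ : ℕ → C.A (X.prod X), IsCK H X ρ ∧ IsSelfDual C ρ := by
  obtain ⟨_, ρ, _, _, _, h1, h2, _⟩ := exists_section (C := C) (H := H) i hc (π := π) hπ hs
    (fun a b hab => (notRaising_iff (C := C) (X := Y)).1 hwb a b hab)
    (fun n hn => by
      obtain ⟨γ, hγ1, hγ2⟩ := hγ n hn
      exact ⟨γ, hγ1, (comp_component (fun i j => hπ.mul_eq i j) _ _ _ _).symm.trans hγ2⟩) hsurj
  exact ⟨ρ, h1, h2⟩

/-- The general form of the decomposition of a section, with correspondences as cycles. -/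
theorem exists_selfDual_of_morphism {X Y : 𝒱.Obj} (i : X ⟶ Y) (c : ℕ) (hc : Y.dim = X.dim + c)
    (π : ℕ → C.A (Y.prod Y)) (hπ : IsCK H Y π) (hs : IsSelfDual C π)
    (hwb : NotRaising C π c (C.mulCorr (C.push i 1)))
    (hγ : ∀ n < X.dim, LeftInvertible C π n (n + 2 * c) c (C.mulCorr (C.push i 1)))
    (hsurj : OntoBelow H i) :
    ∃ ρ : ℕ → C.A (X.prod X), IsCK H X ρ ∧ IsSelfDual C ρ := by
  refine exists_selfDual_aux i c hc π hπ hs hwb (fun n hn => ?_) hsurj
  obtain ⟨γ, hγ1, hγ2⟩ := hγ n hn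
  exact ⟨γ, mem_crg.2 hγ1, hγ2⟩

end Pool.Agent.H92SD
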