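import Pool.Agent.H92SD.Section

/-!
# Sections of Lefschetz pairs are Lefschetz pairs
-/

set_option autoImplicit false

open CategoryTheory AlgebraicGeometry

universe u v w

namespace Pool.Agent.H92SD

open Pool.Agent.H914 Pool.Agent.H914.VarClass Pool.Agent.H914.VarClass.Obj Pool.Agent.W492.BB
  Pool.Agent.W550.Corr Pool.Agent.TH133 Pool.Agent.Y107

set_option linter.unusedSectionVars false

variable {k : Type u} [Field k] {𝒱 : VarClass k}

variable {C : TheoryData.{u, v, 0} 𝒱 ℚ} [hC : IsChowProj C] {X Y Z : 𝒱.Obj}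

variable {K : Type w} [Field K] {H : WeilTheoryData.{u, v, w} C K} [hH : IsWeilProj H]

include hC hH

omit hH in
lemma mc_smul (q : ℚ) (D : C.A X) : mc (q • D) = q • mc D :=
  map_smul (C.push (Obj.lift (𝟙 X) (𝟙 X))) q D

/-- A left inverse of the leading part of `L^c` from hard Lefschetz. -/
lemma WLRing.exists_left_inverse {L : Cor C Y} (hL : L ∈ crg C Y 1) {π : ℕ → Cor C Y}
    (h : WLRing H L π) {c d : ℕ} (hd : Y.dim = d + c) (n : ℕ) (hn : n < d) :
    ∃ γ ∈ crg C Y (-c), π n * γ * π (n + 2 * c) * L ^ c * π n = π n := by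
  obtain ⟨e, he, hl⟩ := h.exists_leading hL
  obtain ⟨g, hg, h1, _⟩ := h.iso (Y.dim - n) (by omega)
  have e0 : Y.dim - (Y.dim - n) = n := by omega
  have e1 : Y.dim + (Y.dim - n) = 2 * Y.dim - n := by omega
  rw [e0, e1] at h1
  have hP0 : ∀ n, π n ∈ crg C Y 0 := fun n => crg_zero_iff.2 (h.ck.deg n)
  have hPP := fun i j => h.ck.mul_eq i j
  refine ⟨g * π (2 * Y.dim - n) * L ^ (Y.dim - n - c), ?_, ?_⟩
  · have h2 : L ^ (Y.dim - n - c) ∈ crg C Y ((Y.dim - n - c : ℕ) : ℤ) := by
      have := crg_pow hL (Y.dim - n - c)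
      rwa [mul_one] at this
    have := crg_mul (crg_mul hg (hP0 (2 * Y.dim - n))) h2
    rwa [show -((Y.dim - n : ℕ) : ℤ) + 0 + ((Y.dim - n - c : ℕ) : ℤ) = -c by omega] at this
  · have e2 : π (2 * Y.dim - n) * L ^ (Y.dim - n - c) * π (n + 2 * c) =
        e ^ (Y.dim - n - c) * π (n + 2 * c) := by
      have := hl.pow' h.ck (Y.dim - n - c) (n + 2 * c)
      rwa [show n + 2 * c + 2 * (Y.dim - n - c) = 2 * Y.dim - n by omega] at this
    have e3 : π (n + 2 * c) * L ^ c * π n = e ^ c * π n := hl.pow' h.ck c n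
    have e4 : π (2 * Y.dim - n) * L ^ (Y.dim - n) * π n = e ^ (Y.dim - n) * π n := by
      have := hl.pow' h.ck (Y.dim - n) n
      rwa [show n + 2 * (Y.dim - n) = 2 * Y.dim - n by omega] at this
    have e5 : π (n + 2 * c) * e ^ c = e ^ c * π n := hl.hom' h.ck c n
    calc π n * (g * π (2 * Y.dim - n) * L ^ (Y.dim - n - c)) * π (n + 2 * c) * L ^ c * π n
        = π n * g * (π (2 * Y.dim - n) * L ^ (Y.dim - n - c) * π (n + 2 * c)) * (L ^ c * π n) := by
          simp only [mul_assoc]
      _ = π n * g * (e ^ (Y.dim - n - c) * (π (n + 2 * c) * L ^ c * π n)) := by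
          rw [e2]; simp only [mul_assoc]
      _ = π n * g * (e ^ (Y.dim - n) * π n) := by
          rw [e3, ← mul_assoc (e ^ (Y.dim - n - c)), ← pow_add,
            show Y.dim - n - c + c = Y.dim - n by omega]
      _ = π n * g * π (2 * Y.dim - n) * L ^ (Y.dim - n) * π n := by
          rw [← e4]; simp only [mul_assoc]
      _ = π n := h1

/-- **Sections.** -/
theorem WLRing.section' (i : X ⟶ Y) {c : ℕ} (hc : Y.dim = X.dim + c) {D : C.A Y}
    (hD : C.Deg 1 D) {m : ℚ} (hm : m ≠ 0) (hi : C.push i 1 = m • D ^ c)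
    (hsurj : ∀ n < X.dim, ∀ x : H.A X, H.Deg n x → ∃ y : H.A Y, H.Deg n y ∧ H.pull i y = x)
    {π : ℕ → Cor C Y} (h : WLRing H (mc D) π) :
    ∃ ρ : ℕ → Cor C X, WLRing H (mc (C.pull i D)) ρ := by
  have hL : mc D ∈ crg C Y 1 := by
    have h := C.push_mem (Obj.lift (𝟙 Y) (𝟙 Y)) hD
    have e1 : (1 : ℤ) + 1 * (((Y.prod Y).dim : ℤ) - (Y.dim : ℤ)) = Y.dim + 1 := by
      rw [dim_prod]; push_cast; ring
    rwa [e1] at h
  have hti : ti C i = m • mc D ^ c := by
    unfold ti
    rw [hi, mc_pow, ← mc_smul]
    rfl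
  obtain ⟨e, he, hl⟩ := h.exists_leading hL
  have hππ := fun i j => h.ck.mul_eq i j
  have hbd : ∀ r a b, a + 2 * r < b → π b * mc D ^ r * π a = 0 := by
    intro r a b hab
    exact (hl.pow hππ h.ck.sum_eq r).bounded a b (by omega)
  obtain ⟨G, ρ, hG, hPG, hGTP, hck, hsd, hρ⟩ := exists_section i hc h.ck h.selfDual
    (fun a b hab => by
      rw [hti, mul_smul_comm, smul_mul_assoc, hbd c a b hab, smul_zero])
    (fun n hn => by
      obtain ⟨γ, hγ, h1⟩ := h.exists_left_inverse hL hc n hn
      refine ⟨m⁻¹ • γ, Submodule.smul_mem _ _ hγ, ?_⟩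
      rw [hti]
      simp only [mul_smul_comm, smul_mul_assoc, smul_smul]
      rw [mul_inv_cancel₀ hm, one_smul]
      exact h1) hsurj
  obtain ⟨P, hP⟩ : ∃ P, P = ∑ n ∈ Finset.range X.dim, π n := ⟨_, rfl⟩
  rw [← hP] at hPG hGTP
  have hsd' : ∀ n ≤ 2 * X.dim, tpR C X (ρ n) = ρ (2 * X.dim - n) := hsd
  have hPπ : ∀ n < X.dim, P * π n = π n := fun n hn => hP ▸ ortho_sum_mul hππ hn
  have hπP : ∀ n < X.dim, π n * P = π n := fun n hn => hP ▸ ortho_mul_sum hππ hn
  have hGTπ : ∀ n < X.dim, G * ti C i * π n = π n := by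
    intro n hn
    calc G * ti C i * π n = G * ti C i * (P * π n) := by rw [hPπ n hn]
      _ = G * ti C i * P * π n := by simp only [mul_assoc]
      _ = π n := by rw [hGTP, hPπ n hn]
  have hπTG : ∀ n < X.dim, π (2 * Y.dim - n) * ti C i * tpR C Y G = π (2 * Y.dim - n) := by
    intro n hn
    have h1 := congrArg (tpR C Y) (hGTπ n hn)
    rw [tpR_mul, tpR_mul, tpR_ti, h.selfDual n (by omega), ← mul_assoc] at h1
    exact h1
  have hρ2 : ∀ n < X.dim, ρ (2 * X.dim - n) = pl i (tpR C Y G * π (2 * Y.dim - n)) := by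
    intro n hn
    rw [← hsd' n (by omega), hρ n hn, tpR_pl, tpR_mul, h.selfDual n (by omega)]
  have hρρ := fun i j => hck.mul_eq i j
  -- the upper part kills
  have hkill : ∀ b, X.dim ≤ b → ∀ z : Cor C Y, P * z = z → ρ b * pl i z = 0 := by
    intro b hb z hz
    have e1 : pl i z = ∑ j ∈ Finset.range X.dim, ρ j * pl i z := by
      have e2 : ∀ j ∈ Finset.range X.dim, ρ j * pl i z = pl i (π j * z) := by
        intro j hj
        rw [Finset.mem_range] at hj
        rw [hρ j hj, pl_mul]
        congr 1
        calc π j * G * ti C i * z = π j * (G * ti C i * P) * z := by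
              nth_rewrite 1 [← hz]
              simp only [mul_assoc]
          _ = π j * z := by rw [hGTP, hπP j hj]
      rw [Finset.sum_congr rfl e2, ← map_sum, ← Finset.sum_mul, ← hP, hz]
    rw [e1, Finset.mul_sum]
    apply Finset.sum_eq_zero
    intro j hj
    rw [Finset.mem_range] at hj
    rw [← mul_assoc, hρρ, if_neg (by omega), zero_mul]
  have low : ∀ a b, a < X.dim → a + 2 < b → ρ b * mc (C.pull i D) * ρ a = 0 := by
    intro a b ha hab
    rw [mul_assoc, hρ a ha, lx_pl]
    rcases le_or_gt b X.dim with hb | hb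
    · have hz : P * (mc D * (π a * G)) = mc D * (π a * G) := by
        have e1 : P * (mc D * π a) = mc D * π a := by
          have e2 : ∑ j ∈ Finset.range (2 * Y.dim + 1), π j * (mc D * π a) = mc D * π a := by
            rw [← Finset.sum_mul, h.ck.sum_eq, one_mul]
          have e3 : ∑ j ∈ Finset.range X.dim, π j * (mc D * π a) =
              ∑ j ∈ Finset.range (2 * Y.dim + 1), π j * (mc D * π a) := by
            refine Finset.sum_subset (fun j hj => ?_) (fun j _ hj => ?_)
            · rw [Finset.mem_range] at hj ⊢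
              omega
            · rw [Finset.mem_range] at hj
              rw [← mul_assoc]
              exact h.bounded a j (by omega)
          rw [hP, Finset.sum_mul, e3, e2]
        rw [← mul_assoc (mc D), ← mul_assoc P, e1]
      rcases lt_or_eq_of_le hb with hb' | hb'
      · rw [hρ b hb', pl_mul]
        have e1 : π b * G * ti C i * (mc D * (π a * G)) = π b * mc D * π a * G := by
          calc π b * G * ti C i * (mc D * (π a * G))
              = π b * (G * ti C i * P) * (mc D * (π a * G)) := by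
                nth_rewrite 1 [← hz]
                simp only [mul_assoc]
            _ = π b * mc D * π a * G := by
                rw [hGTP, hπP b hb']; simp only [mul_assoc]
        rw [e1, h.bounded a b hab, zero_mul, map_zero]
      · exact hkill b hb'.ge _ hz
    · rcases le_or_gt b (2 * X.dim) with hb2 | hb2
      · have e1 : b = 2 * X.dim - (2 * X.dim - b) := by omega
        rw [e1, hρ2 (2 * X.dim - b) (by omega), pl_mul]
        have e2 : tpR C Y G * π (2 * Y.dim - (2 * X.dim - b)) * ti C i * (mc D * (π a * G)) =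
            m • (tpR C Y G * (π (2 * Y.dim - (2 * X.dim - b)) * mc D ^ (c + 1) * π a) * G) := by
          rw [hti, pow_succ]
          simp only [mul_smul_comm, smul_mul_assoc, mul_assoc]
        rw [e2, hbd (c + 1) a _ (by omega), mul_zero, zero_mul, smul_zero, map_zero]
      · rw [show ρ b = 0 from hck.out b hb2, zero_mul]
  refine ⟨ρ, hck, hsd', fun a b hab => ?_, fun s hs => ?_⟩
  · rcases lt_or_ge a X.dim with ha | ha
    · exact low a b ha hab
    · rcases le_or_gt b (2 * X.dim) with hb2 | hb2
      · have h1 := low (2 * X.dim - b) (2 * X.dim - a) (by omega) (by omega)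
        have h2 := congrArg (tpR C X) h1
        have e1 : tpR C X (mc (C.pull i D)) = mc (C.pull i D) := tp_mulCorr _
        rw [tpR_mul, tpR_mul, map_zero, e1, hsd' _ (by omega), hsd' _ (by omega),
          ← mul_assoc, show 2 * X.dim - (2 * X.dim - b) = b by omega,
          show 2 * X.dim - (2 * X.dim - a) = a by omega] at h2
        exact h2
      · rw [show ρ b = 0 from hck.out b hb2, zero_mul, zero_mul]
  · rcases Nat.eq_zero_or_pos s with hs0 | hs0
    · subst hs0
      refine ⟨1, crg_one, ?_, ?_⟩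
      · rw [Nat.sub_zero, Nat.add_zero, pow_zero, mul_one, mul_one, hρρ, if_pos rfl, hρρ,
          if_pos rfl]
      · rw [Nat.sub_zero, Nat.add_zero, pow_zero, mul_one, mul_one, hρρ, if_pos rfl, hρρ,
          if_pos rfl]
    · obtain ⟨g, hg, h1, h2⟩ := h.iso (s + c) (by omega)
      have e0 : Y.dim - (s + c) = X.dim - s := by omega
      have e1 : Y.dim + (s + c) = 2 * Y.dim - (X.dim - s) := by omega
      have e2 : X.dim + s = 2 * X.dim - (X.dim - s) := by omega
      rw [e0, e1] at h1 h2
      rw [e2]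
      obtain ⟨n, hn⟩ : ∃ n, n = X.dim - s := ⟨_, rfl⟩
      have hnX : n < X.dim := by omega
      rw [← hn] at h1 h2 ⊢
      obtain ⟨p', hp'⟩ : ∃ p', p' = π (2 * Y.dim - n) := ⟨_, rfl⟩
      rw [← hp'] at h1 h2
      have hpp' : p' * p' = p' := by rw [hp', hππ, if_pos rfl]
      have hpp : π n * π n = π n := by rw [hππ, if_pos rfl]
      have hρn := hρ n hnX
      have hρn' := hρ2 n hnX
      rw [← hp'] at hρn'
      have hGTn := hGTπ n hnX
      have hTGn := hπTG n hnX
      rw [← hp'] at hTGn
      refine ⟨m⁻¹ • pl i (π n * g * p'), ?_, ?_, ?_⟩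
      · refine Submodule.smul_mem _ _ ?_
        have h3 : π n * g * p' ∈ crg C Y (-((s + c : ℕ) : ℤ)) := by
          have := crg_mul (crg_mul (crg_zero_iff.2 (h.ck.deg n)) hg)
            (crg_zero_iff.2 (h.ck.deg (2 * Y.dim - n)))
          rw [zero_add, add_zero] at this
          rw [hp']
          exact this
        have := pl_mem i hc h3
        rwa [show -((s + c : ℕ) : ℤ) + c = -s by push_cast; ring] at this
      · rw [hρn, hρn', mul_smul_comm, smul_mul_assoc, smul_mul_assoc, smul_mul_assoc,
          mul_assoc _ (mc (C.pull i D) ^ s), lx_pow_pl, pl_mul, pl_mul, pl_mul]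
        have e3 : π n * G * ti C i * (π n * g * p') * ti C i * (tpR C Y G * p') * ti C i *
            (mc D ^ s * (π n * G)) = m • (π n * G) := by
          calc π n * G * ti C i * (π n * g * p') * ti C i * (tpR C Y G * p') * ti C i *
                (mc D ^ s * (π n * G))
              = π n * (G * ti C i * π n) * g * (p' * ti C i * tpR C Y G) * p' * ti C i *
                (mc D ^ s * (π n * G)) := by simp only [mul_assoc]
            _ = π n * g * p' * ti C i * (mc D ^ s * (π n * G)) := by
                rw [hGTn, hTGn, hpp, mul_assoc (π n * g), hpp']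
            _ = m • (π n * g * p' * mc D ^ (s + c) * π n * G) := by
                rw [hti, add_comm s c, pow_add]
                simp only [mul_smul_comm, smul_mul_assoc, mul_assoc]
            _ = m • (π n * G) := by rw [h1]
        rw [e3, map_smul, smul_smul, inv_mul_cancel₀ hm, one_smul]
      · rw [hρn, hρn', mul_assoc _ (mc (C.pull i D) ^ s), lx_pow_pl, pl_mul, mul_smul_comm,
          smul_mul_assoc, pl_mul, pl_mul]
        have e3 : tpR C Y G * p' * ti C i * (mc D ^ s * (π n * G)) * ti C i * (π n * g * p') *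
            ti C i * (tpR C Y G * p') = m • (tpR C Y G * p') := by
          calc tpR C Y G * p' * ti C i * (mc D ^ s * (π n * G)) * ti C i * (π n * g * p') *
                ti C i * (tpR C Y G * p')
              = tpR C Y G * p' * ti C i * mc D ^ s * π n * (G * ti C i * π n) * g *
                (p' * ti C i * tpR C Y G) * p' := by simp only [mul_assoc]
            _ = tpR C Y G * p' * ti C i * mc D ^ s * π n * g * p' := by
                rw [hGTn, hTGn, mul_assoc _ (π n) (π n), hpp, mul_assoc _ p' p', hpp']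
            _ = m • (tpR C Y G * (p' * mc D ^ (s + c) * π n * g * p')) := by
                rw [hti, add_comm s c, pow_add]
                simp only [mul_smul_comm, smul_mul_assoc, mul_assoc]
            _ = m • (tpR C Y G * p') := by rw [h2]
        rw [e3, map_smul, smul_smul, inv_mul_cancel₀ hm, one_smul]

end Pool.Agent.H92SD
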