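import Pool.Agent.H92SD.Odd

/-!
# Decomposable correspondences
-/

set_option autoImplicit false

open CategoryTheory AlgebraicGeometry Finset

universe u v w

namespace Pool.Agent.H92SD

open Pool.Agent.H914 Pool.Agent.H914.VarClass Pool.Agent.H914.VarClass.Obj Pool.Agent.W492.BB
  Pool.Agent.W550.Corr Pool.Agent.TH133 Pool.Agent.Y107

set_option linter.unusedSectionVars false

variable {k : Type u} [Field k] {𝒱 : VarClass k}

variable {C : TheoryData.{u, v, 0} 𝒱 ℚ} [hC : IsChowProj C] {X Y Z : 𝒱.Obj}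

section chow

include hC

variable (C X) in
/-- The correspondences which are sums of `b × c` with `b, c ∈ CH^i(X)`. -/
noncomputable def Dec (i : ℕ) : Submodule ℚ (Cor C X) :=
  Submodule.span ℚ {z | ∃ b c : C.A X, b ∈ C.gr X i ∧ c ∈ C.gr X i ∧ z = ex b c}

lemma ex_mem_dec {i : ℕ} {b c : C.A X} (hb : b ∈ C.gr X i) (hc : c ∈ C.gr X i) :
    ex b c ∈ Dec C X i := Submodule.subset_span ⟨b, c, hb, hc, rfl⟩

lemma dec_crg {i : ℕ} {a : Cor C X} (ha : a ∈ Dec C X i) : a ∈ crg C X (2 * i - X.dim) := by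
  unfold Dec at ha
  induction ha using Submodule.span_induction with
  | mem z hz =>
    obtain ⟨b, c, hb, hc, rfl⟩ := hz
    have := ex_mem hb hc
    rwa [← two_mul] at this
  | zero => exact Submodule.zero_mem _
  | add a b _ _ ha hb => exact Submodule.add_mem _ ha hb
  | smul q a _ ha => exact Submodule.smul_mem _ _ ha

lemma dec_conj {D : C.A X} (hD : C.Deg 1 D) {i : ℕ} {a : Cor C X} (ha : a ∈ Dec C X i) :
    mc D * a * mc D ∈ Dec C X (i + 1) := by
  unfold Dec at ha
  induction ha using Submodule.span_induction with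
  | mem z hz =>
    obtain ⟨b, c, hb, hc, rfl⟩ := hz
    rw [mul_ex, ex_mul, tpR_mc', mc_ac, mc_ac]
    refine ex_mem_dec ?_ ?_
    · have := C.mul_mem hD hb
      rwa [show (1 : ℤ) + i = ((i + 1 : ℕ) : ℤ) by push_cast; ring] at this
    · have := C.mul_mem hD hc
      rwa [show (1 : ℤ) + i = ((i + 1 : ℕ) : ℤ) by push_cast; ring] at this
  | zero => rw [mul_zero, zero_mul]; exact Submodule.zero_mem _
  | add a b _ _ ha hb => rw [mul_add, add_mul]; exact Submodule.add_mem _ ha hb
  | smul q a _ ha => rw [mul_smul_comm, smul_mul_assoc]; exact Submodule.smul_mem _ _ ha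

lemma pow_mul_gr {D : C.A X} (hD : C.Deg 1 D) (n : ℕ) {i : ℤ} {b : C.A X} (hb : b ∈ C.gr X i) :
    D ^ n * b ∈ C.gr X (n + i) := by
  induction n with
  | zero => rw [pow_zero, one_mul, Nat.cast_zero, zero_add]; exact hb
  | succ n ih =>
    rw [pow_succ', mul_assoc]
    have := C.mul_mem hD ih
    rwa [show (1 : ℤ) + (n + i) = ((n + 1 : ℕ) : ℤ) + i by push_cast; ring] at this

/-- A left multiplication which kills `CH^i(X)` kills `Dec i`. -/
lemma mul_dec_zero {i : ℕ} {a z : Cor C X} (ha : a ∈ Dec C X i)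
    (hz : ∀ b ∈ C.gr X i, ac z b = 0) : z * a = 0 := by
  unfold Dec at ha
  induction ha using Submodule.span_induction with
  | mem z hz' =>
    obtain ⟨b, c, hb, hc, rfl⟩ := hz'
    rw [mul_ex, hz c hc, ex_zero_right]
  | zero => rw [mul_zero]
  | add a b _ _ ha hb => rw [mul_add, ha, hb, add_zero]
  | smul q a _ ha => rw [mul_smul_comm, ha, smul_zero]

/-- The action of `Dec i` on cycles which are not of complementary codimension. -/
lemma ac_dec_zero {i : ℕ} {a : Cor C X} (ha : a ∈ Dec C X i) {j : ℤ} {z : C.A X}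
    (hz : z ∈ C.gr X j) (hj : i + j ≠ X.dim) : ac a z = 0 := by
  unfold Dec at ha
  induction ha using Submodule.span_induction with
  | mem w hw =>
    obtain ⟨b, c, hb, hc, rfl⟩ := hw
    rw [ac_ex (hasDegree_zero_of_ne (C.mul_mem hb hz) hj), zero_smul]
  | zero => rw [zero_ac]
  | add a b _ _ ha hb => rw [ac_add, ha, hb, add_zero]
  | smul q a _ ha => rw [smul_ac, ha, smul_zero]

lemma ac_pow (D b : C.A X) (j : ℕ) : ac (mc D ^ j) b = D ^ j * b := by
  have h1 : (mc D : Cor C X) ^ j = mc (D ^ j) := by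
    rw [← corPow_eq]
    exact mulCorr_pow D j
  rw [h1, mc_ac]

lemma dec_van {D : C.A X} (hD : C.Deg 1 D) {i i' j : ℕ} {a a' : Cor C X} (ha : a ∈ Dec C X i)
    (ha' : a' ∈ Dec C X i') (h : i' + j + i < X.dim) : a' * mc D ^ j * a = 0 := by
  refine mul_dec_zero ha fun b hb => ?_
  rw [ac_mul, ac_pow]
  exact ac_dec_zero ha' (pow_mul_gr hD j hb) (by omega)

lemma ac_map_add (a : Cor C X) (x y : C.A X) : ac a (x + y) = ac a x + ac a y :=
  act_map_add (T := C) (X := X) (Y := X) a x y

lemma ac_map_sub (a : Cor C X) (x y : C.A X) : ac a (x - y) = ac a x - ac a y :=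
  act_map_sub (T := C) (X := X) (Y := X) a x y

lemma ac_sum {ι : Type} (s : Finset ι) (f : ι → Cor C X) (x : C.A X) :
    ac (∑ j ∈ s, f j) x = ∑ j ∈ s, ac (f j) x := by
  classical
  induction s using Finset.induction_on with
  | empty => rw [sum_empty, sum_empty, zero_ac]
  | insert i s hi ih => rw [Finset.sum_insert hi, Finset.sum_insert hi, ac_add, ih]

end chow

variable {K : Type w} [Field K] {H : WeilTheoryData.{u, v, w} C K} [hH : IsWeilProj H]

include hC hH

lemma actH_smul' (q : ℚ) {a : Cor C X} {y : H.A X} (h : actH C X H a y = 0) :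
    actH C X H (q • a) y = 0 := by
  rw [Algebra.smul_def, map_mul, Module.End.mul_apply, h, map_zero]

lemma dec_act {i : ℕ} {a : Cor C X} (ha : a ∈ Dec C X i) {m : ℤ} (hm : m + 2 * i ≠ 2 * X.dim)
    {y : H.A X} (hy : y ∈ H.gr X m) : actH C X H a y = 0 := by
  unfold Dec at ha
  induction ha using Submodule.span_induction with
  | mem z hz =>
    obtain ⟨b, c, hb, hc, rfl⟩ := hz
    exact actH_ex_ne (H := H) hb hm hy
  | zero => rw [map_zero, LinearMap.zero_apply]
  | add a b _ _ ha hb => rw [map_add, LinearMap.add_apply, ha, hb, add_zero]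
  | smul q a _ ha => exact actH_smul' q ha

end Pool.Agent.H92SD
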