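import Pool.Agent.TH133.Defs

/-!
# Weight-bounded Lefschetz correspondences: definitions
-/

set_option autoImplicit false

open CategoryTheory AlgebraicGeometry

universe u v w

namespace Pool.Agent.H92SD

open Pool.Agent.H914 Pool.Agent.H914.VarClass Pool.Agent.H914.VarClass.Obj Pool.Agent.W492.BB
  Pool.Agent.W550.Corr Pool.Agent.TH133

variable {k : Type u} [Field k] {𝒱 : VarClass k} {C : TheoryData.{u, v, 0} 𝒱 ℚ}

/-- The component `h^a(X) → h(X) → h(X)(c) → h^b(X)(c)` of the self-correspondence `Γ` of degree `c`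
of `X`, with respect to the Chow-Kunneth decomposition `π`. -/
noncomputable def component (C : TheoryData.{u, v, 0} 𝒱 ℚ) {X : 𝒱.Obj}
    (π : ℕ → C.A (X.prod X)) (a b : ℕ) (Γ : C.A (X.prod X)) : C.A (X.prod X) :=
  C.comp (C.comp (π a) Γ) (π b)

/-- The self-correspondence `Γ` of degree `c` does not raise the weights: its component
`h^a(X) → h^b(X)(c)` is zero for `b > a + 2 c` (that is, if the weight `b - 2 c` of the target exceeds
the weight `a` of the source). The components with `b < a + 2 c` are arbitrary. -/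
def NotRaising (C : TheoryData.{u, v, 0} 𝒱 ℚ) {X : 𝒱.Obj} (π : ℕ → C.A (X.prod X)) (c : ℕ)
    (Γ : C.A (X.prod X)) : Prop :=
  ∀ a b, a + 2 * c < b → component C π a b Γ = 0

/-- The component `h^a(X) → h^b(X)(c)` of the self-correspondence `Γ` of degree `c` is an isomorphism
of Chow motives, with an inverse given by a cycle `g ∈ CH^(dim X - c)(X × X)`. -/
def IsoComponent (C : TheoryData.{u, v, 0} 𝒱 ℚ) {X : 𝒱.Obj} (π : ℕ → C.A (X.prod X))
    (a b c : ℕ) (Γ : C.A (X.prod X)) : Prop :=
  ∃ g : C.A (X.prod X), C.Deg ((X.dim : ℤ) - c) g ∧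
    C.comp (component C π a b Γ) (component C π b a g) = π a ∧
    C.comp (component C π b a g) (component C π a b Γ) = π b

/-- The component `h^a(X) → h^b(X)(c)` of the self-correspondence `Γ` of degree `c` has a left inverse
given by a cycle `g ∈ CH^(dim X - c)(X × X)`. -/
def LeftInvertible (C : TheoryData.{u, v, 0} 𝒱 ℚ) {X : 𝒱.Obj} (π : ℕ → C.A (X.prod X))
    (a b c : ℕ) (Γ : C.A (X.prod X)) : Prop :=
  ∃ g : C.A (X.prod X), C.Deg ((X.dim : ℤ) - c) g ∧
    C.comp (component C π a b Γ) (component C π b a g) = π a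

/-- `π` is a self-dual Chow-Kunneth decomposition of `X`, the intersection with the divisor class `D`
does not raise the weights, and for `s ≤ d = dim X` the component `h^(d-s)(X) → h^(d+s)(X)(s)` of the
intersection with `D^s` is an isomorphism of Chow motives. -/
structure WeightedLefschetz {K : Type w} [Field K] (H : WeilTheoryData.{u, v, w} C K) {X : 𝒱.Obj}
    (D : C.A X) (π : ℕ → C.A (X.prod X)) : Prop where
  ck : IsCK H X π
  selfDual : IsSelfDual C π
  bounded : NotRaising C π 1 (C.mulCorr D)
  iso : ∀ s ≤ X.dim, IsoComponent C π (X.dim - s) (X.dim + s) s (C.mulCorr (D ^ s))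

/-- The pair `(X, D)` of a variety and a divisor class has a self-dual Chow-Kunneth decomposition
for which the intersection with `D` does not raise the weights and the components
`h^(d-s)(X) → h^(d+s)(X)(s)` of the intersection with `D^s` are isomorphisms (`s ≤ d = dim X`). -/
def LefschetzPair {K : Type w} [Field K] (H : WeilTheoryData.{u, v, w} C K) (X : 𝒱.Obj)
    (D : C.A X) : Prop :=
  C.Deg 1 D ∧ ∃ π : ℕ → C.A (X.prod X), WeightedLefschetz H D π

/-- `X` has a Chow-Kunneth decomposition, not necessarily self-dual, satisfying motivic hard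
Lefschetz for `D`: the intersection with `D` maps `h^n(X)` to `h^(n+2)(X)(1)`, and the components
`h^(d-s)(X) → h^(d+s)(X)(s)` of the intersection with `D^s` are isomorphisms. -/
def Homogeneous {K : Type w} [Field K] (H : WeilTheoryData.{u, v, w} C K) (X : 𝒱.Obj)
    (D : C.A X) : Prop :=
  C.Deg 1 D ∧ ∃ π : ℕ → C.A (X.prod X), IsCK H X π ∧
    (∀ n, C.comp (π n) (C.mulCorr D) = C.comp (C.mulCorr D) (π (n + 2))) ∧
    ∀ s ≤ X.dim, IsoComponent C π (X.dim - s) (X.dim + s) s (C.mulCorr (D ^ s))

/-- The class `D ⊞ E = D × Z + X × E` on `X × Z`. -/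
noncomputable def boxSum (C : TheoryData.{u, v, 0} 𝒱 ℚ) {X Z : 𝒱.Obj} (D : C.A X) (E : C.A Z) :
    C.A (X.prod Z) :=
  C.ext D 1 + C.ext 1 E

/-- The product `D^n y` of the cohomology class `y` with the class of `D^n`. -/
noncomputable def lefPow {K : Type w} [Field K] (H : WeilTheoryData.{u, v, w} C K) {X : 𝒱.Obj}
    (D : C.A X) (n : ℕ) (y : H.A X) : H.A X :=
  H.cl D ^ n * y

/-- For `2 i < d = dim X` the group `H^(2i)(X)` is spanned by the classes of finitely many cycles and
`D^(d-2i)` is injective on it. -/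
def EvenBelow {K : Type w} [Field K] (H : WeilTheoryData.{u, v, w} C K) (X : 𝒱.Obj)
    (D : C.A X) : Prop :=
  ∀ i : ℕ, 2 * i < X.dim →
    (∃ S : Finset (C.A X), (∀ b ∈ S, C.Deg i b) ∧
      ∀ y : H.A X, H.Deg (2 * i) y → y ∈ Submodule.span K (H.cl '' (S : Set (C.A X)))) ∧
    ∀ y : H.A X, H.Deg (2 * i) y → lefPow H D (X.dim - 2 * i) y = 0 → y = 0

/-- For `2 i + 1 < dim X` every element of `H^(2i+1)(X)` is `D^i y` with `y ∈ H^1(X)`. -/
def OddBelow {K : Type w} [Field K] (H : WeilTheoryData.{u, v, w} C K) (X : 𝒱.Obj)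
    (D : C.A X) : Prop :=
  ∀ i : ℕ, 2 * i + 1 < X.dim → ∀ x : H.A X, H.Deg (2 * i + 1) x →
    ∃ y : H.A X, H.Deg 1 y ∧ x = lefPow H D i y

/-- The inverse of `D^(d-1) : H^1(X) → H^(2d-1)(X)`, `d = dim X`, is induced by a divisor class `Λ` on
`X × X` (for ample `D` this is known over any field). -/
def InverseOnHOne {K : Type w} [Field K] (H : WeilTheoryData.{u, v, w} C K) (X : 𝒱.Obj)
    (D : C.A X) : Prop :=
  ∃ Λ : C.A (X.prod X), C.Deg 1 Λ ∧
    ∀ y : H.A X, H.Deg 1 y → H.act (H.cl Λ) (lefPow H D (X.dim - 1) y) = y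

/-- Homologically trivial divisor classes on `X × X` are of the form `a × X + X × b` (this is known
over any field: `Pic^0` of a product is the product of the `Pic^0`). -/
def PicardOfSquare {K : Type w} [Field K] (H : WeilTheoryData.{u, v, w} C K) (X : 𝒱.Obj) : Prop :=
  ∀ z : C.A (X.prod X), C.Deg 1 z → H.cl z = 0 →
    ∃ a b : C.A X, C.Deg 1 a ∧ C.Deg 1 b ∧ z = boxSum C a b

/-- The cohomology of `X` in degrees below the middle `d = dim X` is generated by algebraic classes
and `H^1(X)`: for `2 i < d` the group `H^(2i)(X)` is spanned by the classes of finitely many cycles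
and `D^(d-2i)` is injective on it; for `2 i + 1 < d` one has `H^(2i+1)(X) = D^i H^1(X)`. If `d ≥ 2`,
the two classical facts on divisors of `X × X` hold: the inverse of `D^(d-1) : H^1 → H^(2d-1)` is
induced by a divisor class, and homologically trivial divisor classes are `a × X + X × b`. -/
structure SimpleBelow {K : Type w} [Field K] (H : WeilTheoryData.{u, v, w} C K) (X : 𝒱.Obj)
    (D : C.A X) : Prop where
  deg : C.Deg 1 D
  even : EvenBelow H X D
  odd : OddBelow H X D
  inverse : 2 ≤ X.dim → InverseOnHOne H X D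
  picard : 2 ≤ X.dim → PicardOfSquare H X

/-- `i^* : H^n(Y) → H^n(X)` is surjective in the degrees `n < dim X`. -/
def OntoBelow {K : Type w} [Field K] (H : WeilTheoryData.{u, v, w} C K) {X Y : 𝒱.Obj}
    (i : X ⟶ Y) : Prop :=
  ∀ n < X.dim, ∀ x : H.A X, H.Deg n x → ∃ y : H.A Y, H.Deg n y ∧ H.pull i y = x

/-- The morphism `i : X → Y`, of codimension `c = dim Y - dim X ≥ 0`, behaves like the inclusion of a
complete intersection of `c` multiples of the divisor class `D` of `Y`, or like a finite cover
branched along multiples of `D` (if `c = 0`): `i_* [X]` is a non-zero multiple of `D^c`, and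
`i^* : H^n(Y) → H^n(X)` is surjective for `n < dim X`. -/
structure IsSection {K : Type w} [Field K] (H : WeilTheoryData.{u, v, w} C K) {X Y : 𝒱.Obj}
    (i : X ⟶ Y) (c : ℕ) (D : C.A Y) : Prop where
  dim : Y.dim = X.dim + c
  push_one : ∃ m : ℚ, m ≠ 0 ∧ C.push i 1 = m • D ^ c
  onto : OntoBelow H i

/-- The smallest class of pairs `(X, D)` of a variety and a divisor class which contains
* the pairs with simple cohomology below the middle dimension (`SimpleBelow`: curves, surfaces,
  threefolds whose `H^2` is algebraic, ...),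
* the pairs with motivic hard Lefschetz (`Homogeneous`: abelian varieties, ...),
and is stable under
* non-zero multiples of `D`,
* products, with the divisor class `D × Z + X × E`,
* smooth complete intersections of multiples of `D`, and covers branched along multiples of `D`
  (`IsSection`), with the divisor class `i^* D`. -/
inductive Generated {K : Type w} [Field K] (H : WeilTheoryData.{u, v, w} C K) :
    ∀ X : 𝒱.Obj, C.A X → Prop
  | simple (X : 𝒱.Obj) (D : C.A X) (h : SimpleBelow H X D) : Generated H X D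
  | homogeneous (X : 𝒱.Obj) (D : C.A X) (h : Homogeneous H X D) : Generated H X D
  | smul (X : 𝒱.Obj) (D : C.A X) (q : ℚ) (hq : q ≠ 0) (h : Generated H X D) :
      Generated H X (q • D)
  | prod (X Z : 𝒱.Obj) (D : C.A X) (E : C.A Z) (h : Generated H X D) (h' : Generated H Z E) :
      Generated H (X.prod Z) (boxSum C D E)
  | sect (X Y : 𝒱.Obj) (i : X ⟶ Y) (c : ℕ) (D : C.A Y) (h : Generated H Y D)
      (hi : IsSection H i c D) : Generated H X (C.pull i D)

end Pool.Agent.H92SD
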