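import Pool.Agent.H92SD.Curve

/-!
# Degrees of zero-cycles and traces
-/

set_option autoImplicit false

open CategoryTheory AlgebraicGeometry

universe u v w

namespace Pool.Agent.H92SD

open Pool.Agent.H914 Pool.Agent.H914.VarClass Pool.Agent.H914.VarClass.Obj Pool.Agent.W492.BB
  Pool.Agent.W550.Corr Pool.Agent.TH133 Pool.Agent.Y107

set_option linter.unusedSectionVars false

variable {k : Type u} [Field k] {𝒱 : VarClass k}

variable {C : TheoryData.{u, v, 0} 𝒱 ℚ} [hC : IsChowProj C] {X Y Z : 𝒱.Obj}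

section chow

include hC

variable (C X) in
/-- There is a zero-cycle of degree one. -/
lemma exists_point : ∃ x : C.A X, C.Deg X.dim x ∧ HasDegree C x 1 := by
  obtain ⟨a, h1, h2, h3⟩ := exists_deg_one C X
  exact ⟨a, h1, fun Y => ⟨by rw [one_smul]; exact h3 Y, by rw [one_smul]; exact h2 Y⟩⟩

lemma hasDegree_sub {z w : C.A X} {q r : ℚ} (h : HasDegree C z q) (h' : HasDegree C w r) :
    HasDegree C (z - w) (q - r) := by
  intro Y
  rw [map_sub, map_sub, (h Y).1, (h' Y).1, map_sub, map_sub, (h Y).2, (h' Y).2, sub_smul]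
  exact ⟨rfl, rfl⟩

lemma hasDegree_add {z w : C.A X} {q r : ℚ} (h : HasDegree C z q) (h' : HasDegree C w r) :
    HasDegree C (z + w) (q + r) := by
  intro Y
  rw [map_add, map_add, (h Y).1, (h' Y).1, map_add, map_add, (h Y).2, (h' Y).2, add_smul]
  exact ⟨rfl, rfl⟩

end chow

variable {K : Type w} [Field K] {H : WeilTheoryData.{u, v, w} C K} [hH : IsWeilProj H]

include hC hH

/-- The trace of a zero-cycle of degree one. -/
lemma tr_point_ne_zero {x : C.A X} (hx : C.Deg X.dim x) (hx1 : HasDegree C x 1) :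
    H.tr X (H.cl x) ≠ 0 := by
  intro h
  have h1 : H.cl x = 0 := by
    apply H.nondeg
    have h2 : H.tr X ∘ₗ LinearMap.mulLeft K (H.cl x) = 0 := by
      apply ext_gr H
      intro l y hy
      rw [LinearMap.comp_apply, LinearMap.mulLeft_apply, LinearMap.zero_apply]
      by_cases hl : l = 0
      · subst hl
        obtain ⟨c, rfl⟩ := hH.gr_zero X y hy
        rw [mul_smul_comm, mul_one, map_smul, h, smul_zero]
      · exact tr_zero H (H.mul_mem (H.cl_mem hx) hy) (by omega)
    exact fun y => LinearMap.congr_fun h2 y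
  have h2 := hasDegree_zero_of_cl H hx h1
  have h3 := hasDegree_unique H hx1 h2
  exact one_ne_zero h3

/-- `H^(2d)` is spanned by the class of a zero-cycle of degree one. -/
lemma top_span_point {x : C.A X} (hx : C.Deg X.dim x) (hx1 : HasDegree C x 1) {v : H.A X}
    (hv : v ∈ H.gr X (2 * X.dim)) : ∃ c : K, v = c • H.cl x := by
  have ht := tr_point_ne_zero (H := H) hx hx1
  refine ⟨H.tr X v / H.tr X (H.cl x), ?_⟩
  rw [← sub_eq_zero]
  apply H.nondeg
  have hw : v - (H.tr X v / H.tr X (H.cl x)) • H.cl x ∈ H.gr X (2 * X.dim) :=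
    Submodule.sub_mem _ hv (Submodule.smul_mem _ _ (H.cl_mem hx))
  have h2 : H.tr X ∘ₗ LinearMap.mulLeft K (v - (H.tr X v / H.tr X (H.cl x)) • H.cl x) = 0 := by
    apply ext_gr H
    intro l y hy
    rw [LinearMap.comp_apply, LinearMap.mulLeft_apply, LinearMap.zero_apply]
    by_cases hl : l = 0
    · subst hl
      obtain ⟨c, rfl⟩ := hH.gr_zero X y hy
      rw [mul_smul_comm, mul_one, map_smul, map_sub, map_smul, smul_eq_mul, smul_eq_mul,
        div_mul_cancel₀ _ ht, sub_self, mul_zero]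
    · exact tr_zero H (H.mul_mem hw hy) (by omega)
  exact fun y => LinearMap.congr_fun h2 y

/-- The class of a zero-cycle with push-forward `q` to the point is `q` times the class of a
point. -/
lemma cl_eq_of_push {x : C.A X} (hx : C.Deg X.dim x) (hx1 : HasDegree C x 1) {z : C.A X}
    (hz : C.Deg X.dim z) {q : ℚ}
    (hq : C.push (snd X X) (C.pull (fst X X) z) = q • (1 : C.A X)) :
    H.cl z = H.cl (q • x) := by
  have e0 : ∀ (a : C.A X), H.push (snd X X) (H.pull (fst X X) (H.cl a)) =
      H.cl (C.push (snd X X) (C.pull (fst X X) a)) := by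
    intro a
    rw [H.cl_push, H.cl_pull]
  obtain ⟨c, hc⟩ := top_span_point (H := H) hx hx1 (v := H.cl (z - q • x)) (by
    have h1 : z - q • x ∈ C.gr X X.dim := Submodule.sub_mem _ hz (Submodule.smul_mem _ _ hx)
    exact H.cl_mem h1)
  have h2 := congrArg (fun v => H.push (snd X X) (H.pull (fst X X) v)) hc
  simp only [map_smul] at h2
  rw [e0, e0, (hx1 X).1, map_sub, map_sub, hq, map_smul, map_smul, (hx1 X).1, one_smul, sub_self,
    map_zero, map_one] at h2
  have h3 : c = 0 := by
    rcases smul_eq_zero.1 h2.symm with h | h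
    · exact h
    · exact absurd h (hH.one_ne_zero X)
  rw [h3, zero_smul, map_sub, sub_eq_zero] at hc
  exact hc

variable (H) in
/-- Every zero-cycle has a degree. -/
lemma exists_hasDegree {z : C.A X} (hz : C.Deg X.dim z) : ∃ q : ℚ, HasDegree C z q := by
  obtain ⟨x, hx, hx1⟩ := exists_point C X
  have h1 : C.push (snd X X) (C.pull (fst X X) z) ∈ C.gr X 0 := by
    have := C.push_mem (snd X X) (C.pull_mem (fst X X) hz)
    rwa [dim_prod, show (X.dim : ℤ) + 1 * ((X.dim : ℤ) - ((X.dim + X.dim : ℕ) : ℤ)) = 0 by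
      push_cast; ring] at this
  obtain ⟨q, hq⟩ := hC.gr_zero X _ h1
  refine ⟨q, ?_⟩
  have h2 := cl_eq_of_push (H := H) hx hx1 hz hq
  have h3 : HasDegree C (z - q • x) 0 := by
    apply hasDegree_zero_of_cl H
    · exact Submodule.sub_mem _ hz (Submodule.smul_mem _ _ hx)
    · rw [map_sub, h2, sub_self]
  have h4 := hasDegree_add h3 (hasDegree_smul hx1 q)
  rwa [sub_add_cancel, zero_add, mul_one] at h4

/-- The class of a zero-cycle of degree zero is zero. -/
lemma cl_eq_zero_of_hasDegree {z : C.A X} (hz : C.Deg X.dim z) (h : HasDegree C z 0) :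
    H.cl z = 0 := by
  obtain ⟨x, hx, hx1⟩ := exists_point C X
  have h1 := cl_eq_of_push (H := H) hx hx1 hz (h X).1
  rw [h1, zero_smul, map_zero]

variable (H X) in
/-- The degree extends to a linear function. -/
lemma exists_degree : ∃ φ : C.A X →ₗ[ℚ] ℚ, ∀ z q, HasDegree C z q → φ z = q := by
  have h1 : (1 : C.A X) ≠ 0 := one_ne_zeroC X H
  obtain ⟨ε, hε⟩ := Module.Projective.exists_dual_eq_one ℚ h1
  refine ⟨ε ∘ₗ (C.push (snd X X)) ∘ₗ (C.pull (fst X X)).toLinearMap, fun z q hz => ?_⟩
  rw [LinearMap.comp_apply, LinearMap.comp_apply]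
  have h2 := (hz X).1
  have h3 : C.push (snd X X) ((C.pull (fst X X)).toLinearMap z) = q • (1 : C.A X) := h2
  rw [h3, map_smul, hε, smul_eq_mul, mul_one]

end Pool.Agent.H92SD
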