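import Pool.Agent.H92SD.Dec

/-!
# The inverse of the Lefschetz operator on algebraic cohomology
-/

set_option autoImplicit false

open CategoryTheory AlgebraicGeometry Module

universe u v w

namespace Pool.Agent.H92SD

open Pool.Agent.H914 Pool.Agent.H914.VarClass Pool.Agent.H914.VarClass.Obj Pool.Agent.W492.BB
  Pool.Agent.W550.Corr Pool.Agent.TH133 Pool.Agent.Y107

set_option linter.unusedSectionVars false

variable {k : Type u} [Field k] {𝒱 : VarClass k}

variable {C : TheoryData.{u, v, 0} 𝒱 ℚ} [hC : IsChowProj C] {X Y Z : 𝒱.Obj}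

variable {K : Type w} [Field K] {H : WeilTheoryData.{u, v, w} C K} [hH : IsWeilProj H]

include hC hH

/-- The inductive step. -/
lemma even_step {D : C.A X} (hD : C.Deg 1 D) {i r : ℕ} (hr : r + 2 * (i + 1) = X.dim)
    {E : Cor C X} (hE : E ∈ Dec C X i) (hEt : tpR C X E = E)
    (hEE : E * (mc D * mc D ^ r * mc D) * E = E) (S : Finset (C.A X))
    (hS : ∀ b ∈ S, b ∈ C.gr X ((i + 1 : ℕ) : ℤ))
    (hspan : ∀ y ∈ H.gr X (2 * ((i + 1 : ℕ) : ℤ)), y ∈ Submodule.span K (H.cl '' (S : Set (C.A X))))
    (hHL : ∀ y ∈ H.gr X (2 * ((i + 1 : ℕ) : ℤ)), actH C X H (mc D ^ r) y = 0 → y = 0) :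
    ∃ E' ∈ Dec C X (i + 1), tpR C X E' = E' ∧ E' * mc D ^ r * E' = E' ∧
      (∀ y ∈ H.gr X (2 * ((i + 1 : ℕ) : ℤ)), actH C X H (E' * mc D ^ r) y = y) ∧
      E' * (mc D ^ r * mc D) * E = mc D * E := by
  have hL := mc_mem (C := C) hD
  obtain ⟨L, hLdef⟩ : ∃ L, L = mc D := ⟨_, rfl⟩
  obtain ⟨M, hMdef⟩ : ∃ M, M = mc D ^ r := ⟨_, rfl⟩
  have hLt : tpR C X L = L := by rw [hLdef]; exact tpR_mc' D
  have hMt : tpR C X M = M := by rw [hMdef]; exact tpR_pow (tpR_mc' D) r
  have hLM : L * M = M * L := by rw [hLdef, hMdef, ← pow_succ', ← pow_succ]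
  have hMac : ∀ b, ac M b = D ^ r * b := fun b => by rw [hMdef, ac_pow]
  have hMm : M ∈ crg C X r := by
    have := crg_pow hL r
    rwa [mul_one, ← hMdef] at this
  rw [← hMdef] at hHL hEE ⊢
  rw [← hLdef] at hL hEE ⊢
  obtain ⟨φ, hφ⟩ := exists_degree X H
  have hφ' : ∀ z ∈ C.gr X X.dim, HasDegree C z (φ z) := by
    intro z hz
    obtain ⟨q, hq⟩ := exists_hasDegree H hz
    rwa [hφ z q hq]
  have hEm := dec_crg hE
  -- the projector onto the image of `L`
  obtain ⟨P, hP⟩ : ∃ P, P = L * E * (L * M) := ⟨_, rfl⟩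
  have hPm : P ∈ crg C X 0 := by
    rw [hP]
    have := crg_mul (crg_mul hL hEm) (crg_mul hL hMm)
    rwa [show (1 : ℤ) + (2 * i - X.dim) + (1 + r) = 0 by omega] at this
  have hPt : tpR C X P = (M * L) * E * L := by
    rw [hP, tpR_mul, tpR_mul, tpR_mul, hEt, hLt, hMt]
    simp only [mul_assoc]
  have hEP : E * (L * M) * P = E * (L * M) := by
    calc E * (L * M) * P = E * (L * M * L) * E * (L * M) := by rw [hP]; simp only [mul_assoc]
      _ = E * (L * M) := by rw [hEE]
  have hPP : P * P = P := by
    calc P * P = L * (E * (L * M) * P) := by rw [hP]; simp only [mul_assoc]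
      _ = P := by rw [hEP, hP]; simp only [mul_assoc]
  have hPgr : ∀ b ∈ C.gr X ((i + 1 : ℕ) : ℤ), ac P b ∈ C.gr X ((i + 1 : ℕ) : ℤ) := by
    intro b hb
    have := ac_mem hPm hb
    rwa [add_zero] at this
  -- the primitive part
  obtain ⟨V, hV⟩ : ∃ V : Submodule ℚ (C.A X),
      V = Submodule.span ℚ ((fun b => b - ac P b) '' (S : Set (C.A X))) := ⟨_, rfl⟩
  have hVfin : FiniteDimensional ℚ V := by
    rw [hV]
    exact FiniteDimensional.span_of_finite ℚ (S.finite_toSet.image _)
  have hVgr : ∀ v ∈ V, v ∈ C.gr X ((i + 1 : ℕ) : ℤ) := by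
    have : V ≤ C.gr X ((i + 1 : ℕ) : ℤ) := by
      rw [hV, Submodule.span_le]
      rintro _ ⟨b, hb, rfl⟩
      exact Submodule.sub_mem _ (hS b hb) (hPgr b (hS b hb))
    exact fun v hv => this hv
  have hVprim : ∀ v ∈ V, ac (E * (L * M)) v = 0 := by
    intro v hv
    rw [hV] at hv
    induction hv using Submodule.span_induction with
    | mem z hz =>
      obtain ⟨b, hb, rfl⟩ := hz
      rw [ac_map_sub, ← ac_mul, hEP, sub_self]
    | zero => exact ac_zero _
    | add a b _ _ ha hb => rw [ac_map_add, ha, hb, add_zero]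
    | smul q a _ ha => rw [ac_smul, ha, smul_zero]
  have hSV : ∀ b ∈ S, b - ac P b ∈ V := by
    intro b hb
    rw [hV]
    exact Submodule.subset_span ⟨b, hb, rfl⟩
  -- products
  have hprod : ∀ v ∈ V, ∀ w ∈ V, D ^ r * v * w ∈ C.gr X X.dim := by
    intro v hv w hw
    have h1 := C.mul_mem (pow_mul_gr hD r (hVgr v hv)) (hVgr w hw)
    rwa [show (r : ℤ) + ((i + 1 : ℕ) : ℤ) + ((i + 1 : ℕ) : ℤ) = X.dim by push_cast; omega] at h1
  -- the intersection form
  obtain ⟨B, hB⟩ : ∃ B : LinearMap.BilinForm ℚ V, ∀ v w : V,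
      B v w = φ (D ^ r * (v : C.A X) * (w : C.A X)) := by
    refine ⟨LinearMap.mk₂ ℚ (fun v w : V => φ (D ^ r * (v : C.A X) * (w : C.A X))) ?_ ?_ ?_ ?_,
      fun v w => rfl⟩
    · intro v v' w
      simp only [Submodule.coe_add, mul_add, add_mul, map_add]
    · intro q v w
      simp only [Submodule.coe_smul, mul_smul_comm, smul_mul_assoc, map_smul]
    · intro v w w'
      simp only [Submodule.coe_add, mul_add, map_add]
    · intro q v w
      simp only [Submodule.coe_smul, mul_smul_comm, map_smul]
  have hBsymm : B.IsSymm := by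
    rw [LinearMap.BilinForm.isSymm_def]
    intro v w
    rw [hB, hB, mul_assoc, mul_assoc, ch_comm C (v : C.A X) (w : C.A X)]
  have : Invertible (2 : ℚ) := invertibleOfNonzero two_ne_zero
  obtain ⟨v, hv⟩ := LinearMap.BilinForm.exists_orthogonal_basis
    (LinearMap.BilinForm.isSymm_iff.1 hBsymm)
  have hvo : ∀ j l, j ≠ l → B (v j) (v l) = 0 := fun j l hjl => hv hjl
  obtain ⟨lam, hlam⟩ : ∃ lam : Fin (finrank ℚ V) → ℚ, ∀ j, lam j = (B (v j) (v j))⁻¹ :=
    ⟨_, fun _ => rfl⟩
  obtain ⟨T, hT⟩ : ∃ T : Cor C X, T = ∑ j, lam j • ex (v j : C.A X) (v j : C.A X) := ⟨_, rfl⟩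
  have hTdec : T ∈ Dec C X (i + 1) := by
    rw [hT]
    exact Submodule.sum_mem _ fun j _ => Submodule.smul_mem _ _
      (ex_mem_dec (hVgr _ (v j).2) (hVgr _ (v j).2))
  have hTt : tpR C X T = T := by
    rw [hT, map_sum]
    refine Finset.sum_congr rfl fun j _ => ?_
    rw [tpR_smul, tpR_ex]
  -- the action of `T`
  have hTac : ∀ w : V, ac (T * M) (w : C.A X) =
      ((∑ j, (lam j * B (v j) w) • v j : V) : C.A X) := by
    intro w
    rw [ac_mul, hMac, hT, ac_sum, Submodule.coe_sum]
    refine Finset.sum_congr rfl fun j _ => ?_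
    rw [smul_ac]
    have h1 : HasDegree C ((v j : C.A X) * (D ^ r * (w : C.A X))) (B (v j) w) := by
      have h2 := hφ' _ (hprod _ (v j).2 _ w.2)
      rw [← hB] at h2
      rwa [← mul_assoc, ch_comm C (v j : C.A X) (D ^ r)]
    rw [ac_ex h1, smul_smul, Submodule.coe_smul]
  have hTacv : ∀ l, ac (T * M) (v l : C.A X) = (lam l * B (v l) (v l)) • (v l : C.A X) := by
    intro l
    rw [hTac, Finset.sum_eq_single l]
    · rw [Submodule.coe_smul]
    · intro j _ hj
      rw [hvo j l hj, mul_zero, zero_smul]
    · intro h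
      exact absurd (Finset.mem_univ l) h
  have hTT : T * M * T = T := by
    have h1 : T * M * T = ∑ l, lam l • (T * M * ex (v l : C.A X) (v l : C.A X)) := by
      calc T * M * T = T * M * ∑ l, lam l • ex (v l : C.A X) (v l : C.A X) := by rw [← hT]
        _ = ∑ l, lam l • (T * M * ex (v l : C.A X) (v l : C.A X)) := by
          rw [Finset.mul_sum]
          refine Finset.sum_congr rfl fun l _ => ?_
          rw [mul_smul_comm]
    rw [h1]
    conv_rhs => rw [hT]
    refine Finset.sum_congr rfl fun l _ => ?_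
    rw [mul_ex, hTacv, ex_smul_right, smul_smul]
    congr 1
    rw [hlam]
    by_cases h0 : B (v l) (v l) = 0
    · rw [h0, inv_zero, zero_mul]
    · rw [inv_mul_cancel₀ h0, mul_one]
  have hET : E * (L * M) * T = 0 := by
    rw [hT, Finset.mul_sum]
    refine Finset.sum_eq_zero fun l _ => ?_
    rw [mul_smul_comm, mul_ex, hVprim _ (v l).2, ex_zero_right, smul_zero]
  have hTE : T * (M * L) * E = 0 := by
    have h1 := congrArg (tpR C X) hET
    rw [tpR_mul, tpR_mul, tpR_mul, hEt, hLt, hMt, hTt, map_zero] at h1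
    rw [mul_assoc]
    exact h1
  -- the kernel of the form
  have hker : ∀ u : V, (∀ w, B u w = 0) → H.cl (u : C.A X) = 0 := by
    intro u hu
    apply hHL
    · exact H.cl_mem (hVgr _ u.2)
    · rw [← cl_ac]
      apply H.nondeg
      intro y
      have h1 : H.tr X ∘ₗ LinearMap.mulLeft K (H.cl (ac M (u : C.A X))) = 0 := by
        apply ext_gr H
        intro l y hy
        rw [LinearMap.comp_apply, LinearMap.mulLeft_apply, LinearMap.zero_apply]
        have h2 : ac M (u : C.A X) ∈ C.gr X (r + ((i + 1 : ℕ) : ℤ)) := by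
          rw [hMac]
          exact pow_mul_gr hD r (hVgr _ u.2)
        by_cases hl : l = 2 * ((i + 1 : ℕ) : ℤ)
        · subst hl
          have h3 := hspan y hy
          clear hy
          induction h3 using Submodule.span_induction with
          | mem z hz =>
            obtain ⟨b, hb, rfl⟩ := hz
            have h4 : H.cl b = H.cl (b - ac P b) + actH C X H P (H.cl b) := by
              rw [map_sub, ← cl_ac, sub_add_cancel]
            rw [h4, mul_add, map_add]
            have h5 : H.tr X (H.cl (ac M (u : C.A X)) * H.cl (b - ac P b)) = 0 := by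
              rw [← map_mul, hMac]
              have h6 : HasDegree C (D ^ r * (u : C.A X) * (b - ac P b)) 0 := by
                have h7 := hφ' _ (hprod _ u.2 _ (hSV b hb))
                have h8 := hu ⟨b - ac P b, hSV b hb⟩
                rw [hB] at h8
                rwa [h8] at h7
              rw [cl_eq_zero_of_hasDegree (hprod _ u.2 _ (hSV b hb)) h6, map_zero]
            have h6 : H.tr X (H.cl (ac M (u : C.A X)) * actH C X H P (H.cl b)) = 0 := by
              rw [← tr_tpR', hPt, ← cl_ac, ← ac_mul]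
              have h7 : M * L * E * L * M = (M * L) * (E * (L * M)) := by simp only [mul_assoc]
              rw [h7, ac_mul, hVprim _ u.2, ac_zero, map_zero, zero_mul, map_zero]
            rw [h5, h6, add_zero]
          | zero => rw [mul_zero, map_zero]
          | add a b _ _ ha hb => rw [mul_add, map_add, ha, hb, add_zero]
          | smul q a _ ha => rw [mul_smul_comm, map_smul, ha, smul_zero]
        · exact tr_zero H (H.mul_mem (H.cl_mem h2) hy) (by push_cast at hl ⊢; omega)
      exact LinearMap.congr_fun h1 y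
  have hTcl : ∀ w : V, H.cl (ac (T * M) (w : C.A X)) = H.cl (w : C.A X) := by
    intro w
    rw [hTac]
    have h1 := hker ((∑ j, (lam j * B (v j) w) • v j) - w) ?_
    · rw [Submodule.coe_sub, map_sub, sub_eq_zero] at h1
      exact h1
    · intro w'
      have h2 : ∀ l, B (∑ j, (lam j * B (v j) w) • v j - w) (v l) = 0 := by
        intro l
        rw [map_sub, LinearMap.sub_apply, map_sum, LinearMap.sum_apply,
          Finset.sum_eq_single l]
        · rw [map_smul, LinearMap.smul_apply, smul_eq_mul, hlam]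
          by_cases h0 : B (v l) (v l) = 0
          · have h3 : B (v l) = 0 := by
              apply v.ext
              intro j
              rw [LinearMap.zero_apply]
              by_cases hj : l = j
              · rw [← hj]; exact h0
              · exact hvo l j hj
            rw [h0, mul_zero, hBsymm.eq w (v l), h3, LinearMap.zero_apply, sub_zero]
          · rw [hBsymm.eq w (v l)]
            field_simp
            ring
        · intro j _ hj
          rw [map_smul, LinearMap.smul_apply, hvo j l hj, smul_zero]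
        · intro h
          exact absurd (Finset.mem_univ l) h
      have h3 : B (∑ j, (lam j * B (v j) w) • v j - w) = 0 := by
        apply v.ext
        intro l
        rw [h2, LinearMap.zero_apply]
      rw [h3, LinearMap.zero_apply]
  -- the conclusion
  have hEL : E * (L * M * L) = E * (L * M) * L := by simp only [mul_assoc]
  refine ⟨L * E * L + T, Submodule.add_mem _ (by rw [hLdef]; exact dec_conj hD hE) hTdec, ?_, ?_,
    ?_, ?_⟩
  · rw [map_add, tpR_mul, tpR_mul, hEt, hLt, hTt]
    simp only [mul_assoc]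
  · have e1 : L * E * L * M * (L * E * L) = L * E * L := by
      calc L * E * L * M * (L * E * L) = L * (E * (L * M * L) * E) * L := by
            simp only [mul_assoc]
        _ = L * E * L := by rw [hEE]
    have e2 : L * E * L * M * T = 0 := by
      calc L * E * L * M * T = L * (E * (L * M) * T) := by simp only [mul_assoc]
        _ = 0 := by rw [hET, mul_zero]
    have e3 : T * M * (L * E * L) = 0 := by
      calc T * M * (L * E * L) = (T * (M * L) * E) * L := by simp only [mul_assoc]
        _ = 0 := by rw [hTE, zero_mul]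
    rw [add_mul, add_mul, mul_add, mul_add, e1, e2, e3, hTT, add_zero, zero_add]
  · intro y hy
    have h3 := hspan y hy
    clear hy
    induction h3 using Submodule.span_induction with
    | mem z hz =>
      obtain ⟨b, hb, rfl⟩ := hz
      rw [← cl_ac]
      have e1 : L * E * L * M = P := by rw [hP]; simp only [mul_assoc]
      have e2 : T * M * P = 0 := by
        calc T * M * P = (T * (M * L) * E) * (L * M) := by rw [hP]; simp only [mul_assoc]
          _ = 0 := by rw [hTE, zero_mul]
      have e3 : ac (T * M) b = ac (T * M) (b - ac P b) := by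
        rw [ac_map_sub, ← ac_mul, e2, zero_ac, sub_zero]
      have e4 := hTcl ⟨b - ac P b, hSV b hb⟩
      rw [add_mul, ac_add, e1, e3, map_add, e4, map_sub]
      abel
    | zero => rw [map_zero]
    | add a b _ _ ha hb => rw [map_add, ha, hb]
    | smul q a _ ha => rw [map_smul, ha]
  · calc (L * E * L + T) * (M * L) * E
        = L * (E * (L * M * L) * E) + T * (M * L) * E := by
          rw [add_mul, add_mul]
          simp only [mul_assoc]
      _ = L * E := by rw [hEE, hTE, add_zero]

end Pool.Agent.H92SD
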