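import Pool.Agent.H92SD.WL

/-!
# Decomposable correspondences in the ring of correspondences
-/

set_option autoImplicit false

open CategoryTheory AlgebraicGeometry

universe u v w

namespace Pool.Agent.H92SD

open Pool.Agent.H914 Pool.Agent.H914.VarClass Pool.Agent.H914.VarClass.Obj Pool.Agent.W492.BB
  Pool.Agent.W550.Corr Pool.Agent.TH133 Pool.Agent.Y107

set_option linter.unusedSectionVars false

variable {k : Type u} [Field k] {𝒱 : VarClass k}

variable {C : TheoryData.{u, v, 0} 𝒱 ℚ} [hC : IsChowProj C] {X Y Z : 𝒱.Obj}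

section chow

include hC

lemma ext_then (v : C.A X) (α : C.A Y) (Γ : C.A (Y.prod Z)) :
    C.comp (C.ext v α) Γ = C.ext v (C.act Γ α) := by
  rw [comp_eq_extR]
  exact C.extR_ext Γ (fun c => ch_comm C _ _) v α

omit hC in
/-- The decomposable correspondence `v × α`, which maps `x` to `deg(v x) α`. -/
noncomputable def ex (v α : C.A X) : Cor C X := C.ext v α

omit hC in
/-- The action on the Chow groups. -/
noncomputable def ac (a : Cor C X) (x : C.A X) : C.A X := C.act (X := X) (Y := X) a x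

lemma mul_ex (a : Cor C X) (v α : C.A X) : a * ex v α = ex v (ac a α) :=
  ext_then (X := X) (Y := X) (Z := X) v α a

lemma tpR_ex (v α : C.A X) : tpR C X (ex v α) = ex α v := tp_ext (X := X) (Y := X) v α

lemma ex_mul (a : Cor C X) (v α : C.A X) : ex v α * a = ex (ac (tpR C X a) v) α := by
  have h1 := congrArg (tpR C X) (mul_ex (tpR C X a) α v)
  rw [tpR_mul, tpR_ex, tpR_tpR, tpR_ex] at h1
  exact h1

lemma ac_mul (a b : Cor C X) (x : C.A X) : ac (a * b) x = ac a (ac b x) :=
  C.act_comp (X := X) (Y := X) (Z := X) b a x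

lemma ac_ex {v x α : C.A X} {q : ℚ} (hq : HasDegree C (v * x) q) : ac (ex v α) x = q • α :=
  act_ext' (X := X) (Y := X) hq

lemma ac_sub (a b : Cor C X) (x : C.A X) : ac (a - b) x = ac a x - ac b x :=
  C.act_sub (X := X) (Y := X) a b x

lemma ac_add (a b : Cor C X) (x : C.A X) : ac (a + b) x = ac a x + ac b x :=
  C.act_add (X := X) (Y := X) a b x

lemma ac_zero (a : Cor C X) : ac a (0 : C.A X) = 0 := C.act_map_zero (X := X) (Y := X) a

lemma zero_ac (x : C.A X) : ac (0 : Cor C X) x = 0 := C.act_zero (X := X) (Y := X) x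

lemma ac_smul (a : Cor C X) (q : ℚ) (x : C.A X) : ac a (q • x) = q • ac a x :=
  act_map_smul C (X := X) (Y := X) a q x

lemma smul_ac (q : ℚ) (a : Cor C X) (x : C.A X) : ac (q • a) x = q • ac a x := by
  have h1 : actC C X (q • a) x = (q • actC C X a) x := by
    rw [Algebra.smul_def, map_mul, Module.End.mul_apply]
    have h2 : actC C X (algebraMap ℚ (Cor C X) q) = q • (1 : Module.End ℚ (C.A X)) := by
      have h3 : ((actC C X).comp (algebraMap ℚ (Cor C X)) : ℚ →+* Module.End ℚ (C.A X)) =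
          algebraMap ℚ (Module.End ℚ (C.A X)) := Subsingleton.elim _ _
      have h4 := congrArg (fun f : ℚ →+* Module.End ℚ (C.A X) => f q) h3
      simp only [RingHom.comp_apply] at h4
      rw [h4, Algebra.algebraMap_eq_smul_one]
    rw [h2]
    rfl
  exact h1

lemma ac_mem {a : Cor C X} {i j : ℤ} (ha : a ∈ crg C X j) {x : C.A X} (hx : x ∈ C.gr X i) :
    ac a x ∈ C.gr X (i + j) := act_mem' C (X := X) (Y := X) ha hx

lemma ex_mem {i j : ℤ} {v α : C.A X} (hv : v ∈ C.gr X i) (hα : α ∈ C.gr X j) :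
    ex v α ∈ crg C X (i + j - X.dim) := by
  have h := ext_mem' (C := C) hv hα
  rw [mem_crg, show (X.dim : ℤ) + (i + j - X.dim) = i + j by ring]
  exact h

/-- Cycles which are not zero-cycles have degree zero. -/
lemma hasDegree_zero_of_ne {z : C.A X} {i : ℤ} (hz : z ∈ C.gr X i) (hi : i ≠ X.dim) :
    HasDegree C z 0 := by
  intro Y
  rw [zero_smul]
  rcases lt_or_gt_of_ne hi with h | h
  · constructor
    · have h2 := C.push_mem (snd X Y) (C.pull_mem (fst X Y) hz)
      rw [C.gr_neg Y _ (by rw [dim_prod]; push_cast; omega)] at h2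
      exact (Submodule.mem_bot _).1 h2
    · have h2 := C.push_mem (fst Y X) (C.pull_mem (snd Y X) hz)
      rw [C.gr_neg Y _ (by rw [dim_prod]; push_cast; omega)] at h2
      exact (Submodule.mem_bot _).1 h2
  · have h0 : z = 0 := hC.gr_top X i z hz h
    rw [h0]
    simp only [map_zero]
    exact ⟨trivial, trivial⟩

lemma hasDegree_smul {z : C.A X} {q : ℚ} (h : HasDegree C z q) (r : ℚ) :
    HasDegree C (r • z) (r * q) := by
  intro Y
  rw [map_smul, map_smul, (h Y).1, map_smul, map_smul, (h Y).2, smul_smul]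
  exact ⟨rfl, rfl⟩

lemma ex_mul_ex {v α v' α' : C.A X} {q : ℚ} (hq : HasDegree C (α' * v) q) :
    ex v α * ex v' α' = q • ex v' α :=
  comp_ext_ext (X := X) (Y := X) (Z := X) hq

lemma ex_zero_right (v : C.A X) : ex v (0 : C.A X) = 0 := C.ext_zero_right v

lemma ex_zero_left (v : C.A X) : ex (0 : C.A X) v = 0 := C.ext_zero_left v

lemma ex_smul_right (q : ℚ) (v α : C.A X) : ex v (q • α) = q • ex v α := by
  have h1 : C.ext v (q • α) = q • C.ext v α := by
    rw [TheoryData.ext, map_smul, mul_smul_comm]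
    rfl
  exact h1

lemma ex_smul_left (q : ℚ) (v α : C.A X) : ex (q • v) α = q • ex v α := by
  have h1 : C.ext (q • v) α = q • C.ext v α := by
    rw [TheoryData.ext, map_smul, smul_mul_assoc]
    rfl
  exact h1

lemma ac_mc (D x : C.A X) : C.act (C.mulCorr D) x = D * x := C.act_mulCorr D x

end chow

variable {K : Type w} [Field K] {H : WeilTheoryData.{u, v, w} C K} [hH : IsWeilProj H]

include hC hH

/-- The action of `x × 1`, for a zero-cycle `x` of degree one, on the cohomology. -/
lemma actH_ex_one {x : C.A X} (hx : C.Deg X.dim x) (hd : HasDegree C x 1) (m : ℤ) {y : H.A X}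
    (hy : y ∈ H.gr X m) : actH C X H (ex x 1) y = if m = 0 then y else 0 := by
  split_ifs with hm
  · subst hm
    obtain ⟨c, rfl⟩ := hH.gr_zero X y hy
    rw [map_smul]
    congr 1
    have h1 : actH C X H (ex x 1) (H.cl (1 : C.A X)) = H.cl (ac (ex x 1) (1 : C.A X)) :=
      (cl_act H (X := X) (Y := X) _ _).symm
    rw [map_one] at h1
    rw [h1, ac_ex (q := 1) (by rw [mul_one]; exact hd), one_smul, map_one]
  · have hx' : x ∈ C.gr X ((X.dim : ℤ) - ((0 : ℕ) : ℤ)) := by
      rw [Nat.cast_zero, sub_zero]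
      exact hx
    exact act_ext_ne (P := X) (r := 0) (a := (1 : C.A X)) (b := x)
      (by rw [Nat.cast_zero]; exact C.one_mem X) hx' (by rw [Nat.cast_zero, mul_zero]; exact hm) hy

/-- Decomposable correspondences act as zero in all degrees but one. -/
lemma actH_ex_ne {i : ℤ} {v α : C.A X} (hv : C.Deg i v) {j : ℤ} (hj : j + 2 * i ≠ 2 * X.dim)
    {y : H.A X} (hy : y ∈ H.gr X j) : actH C X H (ex v α) y = 0 := by
  have h1 : H.cl (C.ext v α) = H.ext (H.cl v) (H.cl α) := by
    rw [TheoryData.ext, map_mul, H.cl_pull, H.cl_pull]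
    rfl
  have h2 : H.cl v * y ∈ H.gr X (2 * i + j) := H.mul_mem (H.cl_mem hv) hy
  have h3 : H.push (snd X X) (H.pull (fst X X) (H.cl v * y)) = 0 := by
    rcases lt_or_gt_of_ne hj with h | h
    · have h4 := H.push_mem (snd X X) (H.pull_mem (fst X X) h2)
      rw [H.gr_neg X _ (by rw [dim_prod]; push_cast; omega)] at h4
      exact (Submodule.mem_bot _).1 h4
    · rw [gr_top H (by omega)] at h2
      rw [(Submodule.mem_bot _).1 h2, map_zero, map_zero]
  have h4 : H.act (H.cl (C.ext v α)) y = 0 := by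
    rw [TheoryData.act_apply, h1, TheoryData.ext, mul_assoc, ← H.cl_pull, ← H.cl_pull,
      H.cl_central (C.pull (snd X X) α), ← mul_assoc, H.cl_pull, H.cl_pull, ← map_mul,
      H.proj_right, h3, zero_mul]
  exact h4

lemma actH_mc (D : C.A X) (y : H.A X) :
    H.act (H.cl (C.mulCorr D)) y = H.cl D * y := by
  have : H.cl (C.mulCorr D) = H.mulCorr (H.cl D) := by
    rw [TheoryData.mulCorr, TheoryData.mulCorr, H.cl_push]
  rw [this, H.act_mulCorr]

lemma cl_ac (a : Cor C X) (x : C.A X) : H.cl (ac a x) = actH C X H a (H.cl x) :=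
  cl_act H (X := X) (Y := X) a x

/-- Homologically trivial cycles of codimension zero vanish. -/
lemma eq_zero_of_deg_zero {z : C.A X} (hz : C.Deg 0 z) (h : H.cl z = 0) : z = 0 := by
  obtain ⟨q, rfl⟩ := hC.gr_zero X z hz
  by_cases hq : q = 0
  · rw [hq, zero_smul]
  · exfalso
    have h2 : H.cl (1 : C.A X) = 0 := by
      have e1 : (1 : C.A X) = (algebraMap ℚ (C.A X) q⁻¹) * (q • (1 : C.A X)) := by
        rw [Algebra.algebraMap_eq_smul_one, smul_mul_smul_comm, inv_mul_cancel₀ hq, one_smul,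
          one_mul]
      rw [e1, map_mul, h, mul_zero]
    rw [map_one] at h2
    exact hH.one_ne_zero X h2

variable (H X) in
lemma one_ne_zeroC : (1 : C.A X) ≠ 0 := by
  intro h
  have h1 : (1 : H.A X) = 0 := by
    rw [← map_one H.cl, h, map_zero]
  exact IsWeilProj.one_ne_zero X h1

end Pool.Agent.H92SD
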