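import Pool.Agent.H92SD.Alg

/-!
# Leading parts with respect to a family of orthogonal idempotents
-/

set_option autoImplicit false

open Finset

namespace Pool.Agent.H92SD

section

variable {A : Type*} [Ring A]

/-- The element `L` raises the weights at most by `w`, and `e` is its leading part. -/
structure IsLeading (π : ℕ → A) (w : ℕ) (L e : A) : Prop where
  bounded : ∀ a b, a + w < b → π b * L * π a = 0
  lead : ∀ a, π (a + w) * L * π a = e * π a

variable {π : ℕ → A} {N : ℕ} (hππ : ∀ i j, π i * π j = if i = j then π i else 0)
  (hsum : ∑ i ∈ range N, π i = 1)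

include hππ hsum

lemma sum_insert (x y : A) : x * y = ∑ j ∈ range N, x * π j * (π j * y) := by
  have h1 : ∀ j ∈ range N, x * π j * (π j * y) = x * π j * y := by
    intro j _
    rw [← mul_assoc, mul_assoc x, hππ, if_pos rfl]
  rw [sum_congr rfl h1, ← sum_mul, ← mul_sum, hsum, mul_one]

lemma IsLeading.one : IsLeading π 0 1 1 where
  bounded a b h := by rw [mul_one, hππ, if_neg (by omega)]
  lead a := by rw [add_zero, mul_one, hππ, if_pos rfl, one_mul]

lemma IsLeading.mul {w w' : ℕ} {L e L' e' : A} (h : IsLeading π w L e) (h' : IsLeading π w' L' e') :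
    IsLeading π (w + w') (L * L') (e * e') where
  bounded a b hab := by
    have e1 : π b * (L * L') * π a = (π b * L) * (L' * π a) := by simp only [mul_assoc]
    rw [e1, sum_insert hππ hsum]
    apply sum_eq_zero
    intro j _
    by_cases hj : a + w' < j
    · rw [← mul_assoc (π j), h'.bounded a j hj, mul_zero]
    · rw [h.bounded j b (by omega), zero_mul]
  lead a := by
    have e1 : π (a + (w + w')) * (L * L') * π a = (π (a + (w + w')) * L) * (L' * π a) := by
      simp only [mul_assoc]
    rw [e1, sum_insert hππ hsum]
    have e2 : ∀ j ∈ range N, π (a + (w + w')) * L * π j * (π j * (L' * π a)) =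
        e * (π j * (if j = a + w' then e' * π a else 0)) := by
      intro j _
      split_ifs with hj
      · subst hj
        have e3 : a + (w + w') = a + w' + w := by omega
        rw [e3, h.lead, ← mul_assoc (π (a + w')) L', h'.lead, mul_assoc]
      · rw [mul_zero, mul_zero]
        by_cases hj2 : a + w' < j
        · rw [← mul_assoc (π j), h'.bounded a j hj2, mul_zero]
        · rw [h.bounded j _ (by omega), zero_mul]
    have e4 : ∀ j, π j * (if j = a + w' then e' * π a else 0) =
        if j = a + w' then π j * (e' * π a) else 0 := by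
      intro j
      split_ifs
      · rfl
      · rw [mul_zero]
    rw [sum_congr rfl e2, ← mul_sum, sum_congr rfl fun j _ => e4 j, sum_ite_eq']
    have e5 : π (a + w') * (e' * π a) = e' * π a := by
      rw [← h'.lead, ← mul_assoc, ← mul_assoc, hππ, if_pos rfl]
    split_ifs with h2
    · rw [e5, mul_assoc]
    · have h3 : π (a + w') = 0 := by
        have h4 : π (a + w') = π (a + w') * ∑ i ∈ range N, π i := by rw [hsum, mul_one]
        rw [h4, mul_sum]
        apply sum_eq_zero
        intro i hi
        rw [hππ, if_neg]
        intro h5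
        exact h2 (h5 ▸ hi)
      rw [mul_zero, mul_assoc, ← e5, h3, zero_mul, mul_zero]

lemma IsLeading.pow {w : ℕ} {L e : A} (h : IsLeading π w L e) (r : ℕ) :
    IsLeading π (r * w) (L ^ r) (e ^ r) := by
  induction r with
  | zero =>
    rw [zero_mul, pow_zero, pow_zero]
    exact IsLeading.one hππ hsum
  | succ r ih =>
    have := ih.mul hππ hsum h
    rw [show (r + 1) * w = r * w + w by ring, pow_succ, pow_succ]
    exact this

/-- The leading part is homogeneous. -/
lemma IsLeading.homogeneous {w : ℕ} {L e : A} (h : IsLeading π w L e) (a : ℕ) :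
    π (a + w) * e = e * π a := by
  have e1 : π (a + w) * e = π (a + w) * e * ∑ j ∈ range N, π j := by rw [hsum, mul_one]
  have e2 : ∀ j, π (a + w) * e * π j = if j = a then e * π j else 0 := by
    intro j
    rw [mul_assoc, ← h.lead j, ← mul_assoc, ← mul_assoc, hππ]
    by_cases hj : j = a
    · subst hj
      rw [if_pos rfl, if_pos rfl]
    · rw [if_neg (by omega), if_neg hj, zero_mul, zero_mul]
  rw [e1, mul_sum, sum_congr rfl fun j _ => e2 j, sum_ite_eq']
  split_ifs with h2
  · rfl
  · have h3 : π a = 0 := by
      have h4 : π a = π a * ∑ i ∈ range N, π i := by rw [hsum, mul_one]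
      rw [h4, mul_sum]
      apply sum_eq_zero
      intro i hi
      rw [hππ, if_neg]
      intro h5
      exact h2 (h5 ▸ hi)
    rw [h3, mul_zero]

omit hsum in
/-- The leading part exists. -/
lemma exists_leading (w : ℕ) (L : A) (hout : ∀ n, N ≤ n → π n = 0)
    (hb : ∀ a b, a + w < b → π b * L * π a = 0) :
    IsLeading π w L (∑ n ∈ range N, π (n + w) * L * π n) where
  bounded := hb
  lead a := by
    rw [sum_mul]
    have e1 : ∀ n ∈ range N, π (n + w) * L * π n * π a =
        if n = a then π (n + w) * L * π n else 0 := by
      intro n _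
      rw [mul_assoc, hππ]
      split_ifs
      · rfl
      · rw [mul_zero]
    rw [sum_congr rfl e1, sum_ite_eq']
    split_ifs with h
    · rfl
    · rw [mem_range, not_lt] at h
      rw [hout a h, mul_zero]

end

section

variable {A : Type*} [Ring A]

lemma IsLeading.add {π : ℕ → A} {w : ℕ} {L e L' e' : A} (h : IsLeading π w L e)
    (h' : IsLeading π w L' e') : IsLeading π w (L + L') (e + e') where
  bounded a b hab := by rw [mul_add, add_mul, h.bounded a b hab, h'.bounded a b hab, add_zero]
  lead a := by rw [mul_add, add_mul, add_mul, h.lead, h'.lead]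

end

end Pool.Agent.H92SD
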