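import Pool.Agent.TH133.Hyper
import Pool.Agent.Y107.SDMul
import Pool.Agent.Helper45M.SK.Crit

/-!
# A self-dual Chow-Kunneth decomposition with prescribed first half

This is `Pool.Agent.TH133.selfDual_of_half` together with the information that the decomposition
extends the given family.
-/

set_option autoImplicit false

open CategoryTheory AlgebraicGeometry

universe u v w

namespace Pool.Agent.H92SD

open Pool.Agent.H914 Pool.Agent.H914.VarClass Pool.Agent.H914.VarClass.Obj Pool.Agent.W492.BB
  Pool.Agent.W550.Corr Pool.Agent.TH133 Pool.Agent.Y107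

set_option linter.unusedSectionVars false

variable {k : Type u} [Field k] {𝒱 : VarClass k}

variable {C : TheoryData.{u, v, 0} 𝒱 ℚ} [hC : IsChowProj C] {K : Type w} [Field K]
  {H : WeilTheoryData.{u, v, w} C K} [hH : IsWeilProj H] {X Y Z W : 𝒱.Obj}

include hC hH

/-- A self-dual Chow-Kunneth decomposition from its first half. -/
theorem selfDual_of_half' (q : ℕ → Cor C X) (hm : ∀ n, q n ∈ cor0 C X)
    (hout : ∀ n, X.dim ≤ n → q n = 0)
    (hqq : ∀ m n, q m * q n = if m = n then q m else 0)
    (h1 : ∀ m n, q m * tpR C X (q n) = 0) (h2 : ∀ m n, tpR C X (q m) * q n = 0)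
    (hact : ∀ (n : ℕ) (m : ℤ) (a : H.A X), n < X.dim → a ∈ H.gr X m →
      actH C X H (q n) a = if m = n then a else 0)
    (hact' : ∀ (n : ℕ) (m : ℤ) (a : H.A X), n < X.dim → a ∈ H.gr X m →
      actH C X H (tpR C X (q n)) a = if m = (2 * X.dim - n : ℕ) then a else 0) :
    ∃ π : ℕ → Cor C X, IsCK H X π ∧ IsSelfDual C (X := X) π ∧ ∀ n < X.dim, π n = q n := by
  set d := X.dim with hd
  have htt : ∀ m n, tpR C X (q m) * tpR C X (q n) = if m = n then tpR C X (q m) else 0 := by
    intro m n
    rw [← tpR_mul, hqq]
    by_cases h : n = m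
    · rw [if_pos h, if_pos h.symm, h]
    · rw [if_neg h, if_neg (Ne.symm h), map_zero]
  let e : Cor C X := ∑ n ∈ Finset.range d, (q n + tpR C X (q n))
  have hqe : ∀ m < d, q m * e = q m := by
    intro m hm'
    simp only [e]
    rw [Finset.mul_sum, Finset.sum_eq_single m]
    · rw [mul_add, hqq, if_pos rfl, h1, add_zero]
    · intro n _ hn
      rw [mul_add, hqq, if_neg (Ne.symm hn), h1, add_zero]
    · intro h
      exact absurd (Finset.mem_range.2 hm') h
  have heq : ∀ m < d, e * q m = q m := by
    intro m hm'
    simp only [e]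
    rw [Finset.sum_mul, Finset.sum_eq_single m]
    · rw [add_mul, hqq, if_pos rfl, h2, add_zero]
    · intro n _ hn
      rw [add_mul, hqq, if_neg hn, h2, add_zero]
    · intro h
      exact absurd (Finset.mem_range.2 hm') h
  have hte : ∀ m < d, tpR C X (q m) * e = tpR C X (q m) := by
    intro m hm'
    simp only [e]
    rw [Finset.mul_sum, Finset.sum_eq_single m]
    · rw [mul_add, htt, if_pos rfl, h2, zero_add]
    · intro n _ hn
      rw [mul_add, htt, if_neg (Ne.symm hn), h2, add_zero]
    · intro h
      exact absurd (Finset.mem_range.2 hm') h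
  have het : ∀ m < d, e * tpR C X (q m) = tpR C X (q m) := by
    intro m hm'
    simp only [e]
    rw [Finset.sum_mul, Finset.sum_eq_single m]
    · rw [add_mul, htt, if_pos rfl, h1, zero_add]
    · intro n _ hn
      rw [add_mul, htt, if_neg hn, h1, add_zero]
    · intro h
      exact absurd (Finset.mem_range.2 hm') h
  have hee : e * e = e := by
    have : e * e = ∑ n ∈ Finset.range d, (q n + tpR C X (q n)) * e := by
      rw [← Finset.sum_mul]
    rw [this]
    apply Finset.sum_congr rfl
    intro n hn
    rw [Finset.mem_range] at hn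
    rw [add_mul, hqe n hn, hte n hn]
  have hem : e ∈ cor0 C X := (cor0 C X).sum_mem fun n _ =>
    (cor0 C X).add_mem (hm n) (tpR_mem (hm n))
  let Q : ℕ → Cor C X := fun n => if n < d then q n else if n = d then 1 - e else
    if n ≤ 2 * d then tpR C X (q (2 * d - n)) else 0
  have Q1 : ∀ n < d, Q n = q n := fun n hn => by simp only [Q]; rw [if_pos hn]
  have Q2 : Q d = 1 - e := by simp [Q]
  have Q3 : ∀ n, d < n → n ≤ 2 * d → Q n = tpR C X (q (2 * d - n)) := fun n hn hn' => by
    simp only [Q]; rw [if_neg (by omega), if_neg (by omega), if_pos hn']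
  have Q4 : ∀ n, 2 * d < n → Q n = 0 := fun n hn => by
    simp only [Q]; rw [if_neg (by omega), if_neg (by omega), if_neg (by omega)]
  have Qcases : ∀ n, n < d ∨ n = d ∨ (d < n ∧ n ≤ 2 * d) ∨ 2 * d < n := fun n => by omega
  have Qe : ∀ n, n ≠ d → Q n * e = Q n ∧ e * Q n = Q n := by
    intro n hn
    rcases Qcases n with h | h | h | h
    · rw [Q1 n h]; exact ⟨hqe n h, heq n h⟩
    · exact absurd h hn
    · rw [Q3 n h.1 h.2]; exact ⟨hte _ (by omega), het _ (by omega)⟩
    · rw [Q4 n h]; exact ⟨zero_mul _, mul_zero _⟩
  have Qsum : ∑ n ∈ Finset.range (2 * d + 1), Q n = 1 := by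
    have e1 : Finset.range (2 * d + 1) = Finset.range (d + (d + 1)) := by congr 1; omega
    rw [e1, Finset.sum_range_add, Finset.sum_range_succ']
    have e2 : ∑ x ∈ Finset.range d, Q x = ∑ x ∈ Finset.range d, q x :=
      Finset.sum_congr rfl fun x hx => Q1 x (Finset.mem_range.1 hx)
    have e3 : ∑ x ∈ Finset.range d, Q (d + (x + 1)) = ∑ x ∈ Finset.range d, tpR C X (q x) := by
      rw [← Finset.sum_range_reflect (fun x => tpR C X (q x))]
      apply Finset.sum_congr rfl
      intro x hx
      rw [Finset.mem_range] at hx
      rw [Q3 _ (by omega) (by omega)]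
      congr 2
      omega
    rw [e2, e3, add_zero, Q2]
    simp only [e]
    rw [Finset.sum_add_distrib]
    abel
  refine ⟨Q, isCK_of ?_ ?_ ?_ ?_ ?_, ?_, Q1⟩
  · intro n
    rcases Qcases n with h | h | h | h
    · rw [Q1 n h]; exact hm n
    · rw [h, Q2]; exact (cor0 C X).sub_mem (cor0 C X).one_mem hem
    · rw [Q3 n h.1 h.2]; exact tpR_mem (hm _)
    · rw [Q4 n h]; exact (cor0 C X).zero_mem
  · exact Q4
  · intro m n
    by_cases hmd : m = d
    · rw [hmd]
      by_cases hnd : n = d
      · rw [if_pos hnd.symm, hnd, Q2, mul_sub, mul_one, sub_mul, one_mul, hee, sub_self,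
          sub_zero]
      · rw [if_neg (Ne.symm hnd), Q2, sub_mul, one_mul, (Qe n hnd).2, sub_self]
    · by_cases hnd : n = d
      · rw [if_neg (by omega), hnd, Q2, mul_sub, mul_one, (Qe m hmd).1, sub_self]
      · rcases Qcases m with h | h | h | h
        · rw [Q1 m h]
          rcases Qcases n with h' | h' | h' | h'
          · rw [Q1 n h', hqq]
          · exact absurd h' hnd
          · rw [Q3 n h'.1 h'.2, h1, if_neg (by omega)]
          · rw [Q4 n h', mul_zero, if_neg (by omega)]
        · exact absurd h hmd
        · rw [Q3 m h.1 h.2]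
          rcases Qcases n with h' | h' | h' | h'
          · rw [Q1 n h', h2, if_neg (by omega)]
          · exact absurd h' hnd
          · rw [Q3 n h'.1 h'.2, htt]
            by_cases hmn : m = n
            · rw [if_pos (by omega), if_pos hmn]
            · rw [if_neg (by omega), if_neg hmn]
          · rw [Q4 n h', mul_zero, if_neg (by omega)]
        · rw [Q4 m h, zero_mul]
          split_ifs
          · rfl
          · rfl
  · exact Qsum
  · have hact2 : ∀ (n : ℕ) (m : ℤ) (a : H.A X), n ≠ d → a ∈ H.gr X m →
        actH C X H (Q n) a = if m = n then a else 0 := by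
      intro n m a hn ha
      rcases Qcases n with h | h | h | h
      · rw [Q1 n h, hact n m a h ha]
      · exact absurd h hn
      · rw [Q3 n h.1 h.2, hact' _ m a (by omega) ha]
        congr 1
        rw [show 2 * X.dim - (2 * d - n) = n by omega]
      · rw [Q4 n h, map_zero, LinearMap.zero_apply]
        split_ifs with hmn
        · rw [hmn, gr_top H (by omega)] at ha
          exact ((Submodule.mem_bot _).1 ha).symm
        · rfl
    intro n m a ha
    by_cases hn : n = d
    · have h3 : actH C X H (∑ n ∈ Finset.range (2 * d + 1), Q n) a = a := by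
        rw [Qsum, map_one]; rfl
      rw [map_sum, LinearMap.sum_apply, ← Finset.add_sum_erase _ _
        (Finset.mem_range.2 (show n < 2 * d + 1 by omega))] at h3
      have h4 : ∀ j ∈ (Finset.range (2 * d + 1)).erase n, actH C X H (Q j) a =
          if m = j then a else 0 := fun j hj => hact2 j m a (by
            rw [Finset.mem_erase] at hj
            rw [← hn]; exact hj.1) ha
      rw [Finset.sum_congr rfl h4] at h3
      by_cases hmn : m = n
      · rw [Finset.sum_eq_zero, add_zero] at h3
        · rw [h3, if_pos hmn]
        · intro j hj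
          rw [Finset.mem_erase] at hj
          rw [if_neg]
          intro h5
          apply hj.1
          exact_mod_cast (h5.symm.trans hmn)
      · rw [if_neg hmn]
        by_cases ha0 : a = 0
        · rw [ha0, map_zero]
        · have hm0 := nonneg_of_mem H ha ha0
          have hm1 : m ≤ 2 * X.dim := by
            by_contra hcon
            rw [gr_top H (by omega)] at ha
            exact ha0 ((Submodule.mem_bot _).1 ha)
          obtain ⟨m, rfl⟩ := Int.eq_ofNat_of_zero_le hm0
          rw [Finset.sum_eq_single m] at h3
          · rw [if_pos rfl] at h3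
            exact add_eq_right.1 h3
          · intro j _ hj
            rw [if_neg]
            intro h5
            apply hj
            exact_mod_cast h5.symm
          · intro h5
            exfalso
            apply h5
            rw [Finset.mem_erase, Finset.mem_range]
            constructor
            · intro h6
              apply hmn
              rw [h6]
            · omega
    · exact hact2 n m a hn ha
  · intro n hn
    change tpR C X (Q n) = Q (2 * d - n)
    rcases Qcases n with h | h | h | h
    · by_cases hn0 : n < d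
      · rw [Q1 n h, Q3 _ (by omega) (by omega)]
        congr 2
        omega
      · omega
    · rw [h, show 2 * d - d = d by omega, Q2, map_sub, tpR_one]
      congr 1
      simp only [e]
      rw [map_sum]
      apply Finset.sum_congr rfl
      intro x _
      rw [map_add, tpR_tpR, add_comm]
    · rw [Q3 n h.1 h.2, tpR_tpR, Q1 _ (by omega)]
    · omega


end Pool.Agent.H92SD
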