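import Pool.Agent.H92SD.Alg

/-!
# Triangular systems of partial inverses: algebra
-/

set_option autoImplicit false

open Finset

namespace Pool.Agent.H92SD

section

variable {A : Type*} [Ring A]

/-- `v` lies in the right ideal generated by `Λ 0, …, Λ (a - 1)`. -/
def InW (Λ : ℕ → A) (a : ℕ) (v : A) : Prop := ∃ x : ℕ → A, v = ∑ n ∈ range a, Λ n * x n

variable {Λ : ℕ → A}

lemma InW.zero (a : ℕ) : InW Λ a 0 := ⟨fun _ => 0, by simp⟩

lemma InW.add {a : ℕ} {v w : A} (hv : InW Λ a v) (hw : InW Λ a w) : InW Λ a (v + w) := by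
  obtain ⟨x, rfl⟩ := hv
  obtain ⟨y, rfl⟩ := hw
  exact ⟨fun n => x n + y n, by rw [← sum_add_distrib]; simp only [mul_add]⟩

lemma InW.neg {a : ℕ} {v : A} (hv : InW Λ a v) : InW Λ a (-v) := by
  obtain ⟨x, rfl⟩ := hv
  exact ⟨fun n => -x n, by rw [← sum_neg_distrib]; simp only [mul_neg]⟩

lemma InW.sub {a : ℕ} {v w : A} (hv : InW Λ a v) (hw : InW Λ a w) : InW Λ a (v - w) := by
  rw [sub_eq_add_neg]
  exact hv.add hw.neg

lemma InW.sum {ι : Type*} {a : ℕ} (s : Finset ι) {f : ι → A} (h : ∀ i ∈ s, InW Λ a (f i)) :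
    InW Λ a (∑ i ∈ s, f i) := by
  classical
  induction s using Finset.induction_on with
  | empty => simpa using InW.zero a
  | insert i s hi ih =>
    rw [sum_insert hi]
    exact (h i (mem_insert_self i s)).add (ih fun j hj => h j (mem_insert_of_mem hj))

lemma InW.mul_right {a : ℕ} {v : A} (hv : InW Λ a v) (y : A) : InW Λ a (v * y) := by
  obtain ⟨x, rfl⟩ := hv
  exact ⟨fun n => x n * y, by rw [sum_mul]; simp only [mul_assoc]⟩

lemma InW.of {a n : ℕ} (hn : n < a) (y : A) : InW Λ a (Λ n * y) := by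
  refine ⟨fun i => if i = n then y else 0, ?_⟩
  rw [sum_eq_single n]
  · simp
  · intro i _ hi
    simp [hi]
  · intro h
    exact absurd (mem_range.2 hn) h

lemma InW.mono {a b : ℕ} (hab : a ≤ b) {v : A} (hv : InW Λ a v) : InW Λ b v := by
  obtain ⟨x, rfl⟩ := hv
  exact InW.sum _ fun n hn => InW.of (by rw [mem_range] at hn; omega) _

variable (Λ) in
/-- The products `(1 - p 0) ⋯ (1 - p (n - 1))`, `p n = Λ n L^(d-n)`. -/
def FF (L : A) (d : ℕ) : ℕ → A
  | 0 => 1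
  | n + 1 => FF L d n * (1 - Λ n * L ^ (d - n))

variable (Λ) in
/-- The idempotents `(1 - p 0) ⋯ (1 - p (n - 1)) p n`. -/
def qq (L : A) (d : ℕ) (n : ℕ) : A := FF Λ L d n * (Λ n * L ^ (d - n))

variable (Λ) in
/-- A triangular system of partial inverses `Λ n` of `L^(d-n)`, `n < d`. -/
structure LamSys (σ : A →+ A) (L : A) (d : ℕ) : Prop where
  sL : σ L = L
  sΛ : ∀ n < d, σ (Λ n) = Λ n
  inv : ∀ n < d, Λ n * L ^ (d - n) * Λ n = Λ n
  van : ∀ m < d, ∀ n < d, ∀ j, n + 2 * j + m < 2 * d → Λ m * L ^ j * Λ n = 0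
  low : ∀ n, n + 2 < d → InW Λ (n + 3) (L * Λ n)

variable {σ : A →+ A} {L : A} {d : ℕ} (h : LamSys Λ σ L d)
  (hmul : ∀ a b, σ (a * b) = σ b * σ a)

lemma FF_succ (n : ℕ) : FF Λ L d (n + 1) = FF Λ L d n - qq Λ L d n := by
  change FF Λ L d n * (1 - Λ n * L ^ (d - n)) = _
  rw [mul_sub, mul_one]
  rfl

lemma FF_eq (n : ℕ) : FF Λ L d n = 1 - ∑ m ∈ range n, qq Λ L d m := by
  induction n with
  | zero => simp [FF]
  | succ n ih => rw [FF_succ, sum_range_succ, ih]; abel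

include h

lemma LamSys.p_Λ {m n : ℕ} (hm : m < d) (hnm : n < m) : Λ m * L ^ (d - m) * Λ n = 0 :=
  h.van m hm n (by omega) (d - m) (by omega)

lemma LamSys.p_FF {m k : ℕ} (hm : m < d) (hk : k ≤ m) :
    Λ m * L ^ (d - m) * FF Λ L d k = Λ m * L ^ (d - m) := by
  induction k with
  | zero => simp [FF]
  | succ k ih =>
    have h1 : Λ m * L ^ (d - m) * FF Λ L d (k + 1) =
        (Λ m * L ^ (d - m) * FF Λ L d k) * (1 - Λ k * L ^ (d - k)) := by
      rw [mul_assoc (Λ m * L ^ (d - m))]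
      rfl
    rw [h1, ih (by omega), mul_sub, mul_one, ← mul_assoc, h.p_Λ hm (by omega), zero_mul,
      sub_zero]

lemma LamSys.p_FF_zero {m k : ℕ} (hm : m < d) (hk : m < k) :
    Λ m * L ^ (d - m) * FF Λ L d k = 0 := by
  induction k with
  | zero => omega
  | succ k ih =>
    have h1 : Λ m * L ^ (d - m) * FF Λ L d (k + 1) =
        (Λ m * L ^ (d - m) * FF Λ L d k) * (1 - Λ k * L ^ (d - k)) := by
      rw [mul_assoc (Λ m * L ^ (d - m))]
      rfl
    rcases Nat.lt_or_ge m k with h2 | h2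
    · rw [h1, ih h2, zero_mul]
    · obtain rfl : m = k := by omega
      rw [h1, h.p_FF hm le_rfl, mul_sub, mul_one, ← mul_assoc, h.inv m hm, sub_self]

lemma LamSys.FF_Λ {a n : ℕ} (ha : a ≤ d) (hn : n < a) : FF Λ L d a * Λ n = 0 := by
  induction a with
  | zero => omega
  | succ a ih =>
    have h1 : FF Λ L d (a + 1) * Λ n = FF Λ L d a * (Λ n - Λ a * L ^ (d - a) * Λ n) := by
      change FF Λ L d a * (1 - Λ a * L ^ (d - a)) * Λ n = _
      rw [mul_assoc, sub_mul, one_mul]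
    rcases Nat.lt_or_ge n a with h2 | h2
    · rw [h1, h.p_Λ (by omega) h2, sub_zero, ih (by omega) h2]
    · obtain rfl : n = a := by omega
      rw [h1, h.inv n (by omega), sub_self, mul_zero]

lemma LamSys.FF_W {a : ℕ} (ha : a ≤ d) {v : A} (hv : InW Λ a v) : FF Λ L d a * v = 0 := by
  obtain ⟨x, rfl⟩ := hv
  rw [mul_sum]
  apply sum_eq_zero
  intro n hn
  rw [mem_range] at hn
  rw [← mul_assoc, h.FF_Λ ha hn, zero_mul]

lemma LamSys.sum_q_W {a : ℕ} (ha : a ≤ d) {v : A} (hv : InW Λ a v) :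
    ∑ m ∈ range a, qq Λ L d m * v = v := by
  have h1 := h.FF_W ha hv
  rw [FF_eq, sub_mul, one_mul, sum_mul, sub_eq_zero] at h1
  exact h1.symm

omit h in
lemma qq_mem (n : ℕ) (y : A) : InW Λ (n + 1) (qq Λ L d n * y) := by
  induction n using Nat.strong_induction_on generalizing y with
  | _ n ih =>
    have h1 : qq Λ L d n * y = Λ n * (L ^ (d - n) * y) -
        ∑ m ∈ range n, qq Λ L d m * (Λ n * L ^ (d - n) * y) := by
      change FF Λ L d n * (Λ n * L ^ (d - n)) * y = _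
      rw [FF_eq, sub_mul, sub_mul, one_mul, sum_mul, sum_mul]
      simp only [mul_assoc]
    rw [h1]
    refine (InW.of (by omega) _).sub (InW.sum _ fun m hm => ?_)
    rw [mem_range] at hm
    exact (ih m hm _).mono (by omega)

omit h in
/-- `F n Λ n` and `Λ n` agree modulo the lower part. -/
lemma FF_Λ_sub (n : ℕ) : InW Λ n (Λ n - FF Λ L d n * Λ n) := by
  rw [FF_eq, sub_mul, one_mul, sub_sub_cancel, sum_mul]
  refine InW.sum _ fun m hm => ?_
  rw [mem_range] at hm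
  exact (qq_mem m _).mono (by omega)

include hmul in
/-- **Vanishing.** -/
lemma LamSys.vanish {a l j : ℕ} (ha : a ≤ d) (hl : l ≤ d) (hal : a + l + 2 * j ≤ 2 * d + 1)
    {v w : A} (hv : InW Λ a v) (hw : InW Λ l w) : σ w * L ^ j * v = 0 := by
  obtain ⟨x, rfl⟩ := hv
  obtain ⟨y, rfl⟩ := hw
  rw [map_sum, sum_mul, sum_mul]
  apply sum_eq_zero
  intro m hm
  rw [mul_sum]
  apply sum_eq_zero
  intro n hn
  rw [mem_range] at hm hn
  rw [hmul, h.sΛ m (by omega)]
  have e1 : σ (y m) * Λ m * L ^ j * (Λ n * x n) = σ (y m) * (Λ m * L ^ j * Λ n) * x n := by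
    simp only [mul_assoc]
  rw [e1, h.van m (by omega) n (by omega) j (by omega), mul_zero, zero_mul]

lemma LamSys.L_W {a : ℕ} (ha : a + 2 ≤ d) {v : A} (hv : InW Λ a v) : InW Λ (a + 2) (L * v) := by
  obtain ⟨x, rfl⟩ := hv
  rw [mul_sum]
  refine InW.sum _ fun n hn => ?_
  rw [mem_range] at hn
  rw [← mul_assoc]
  exact ((h.low n (by omega)).mono (by omega)).mul_right _

lemma LamSys.q_mul {m n : ℕ} (hm : m < d) (hn : n < d) :
    qq Λ L d m * qq Λ L d n = if m = n then qq Λ L d m else 0 := by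
  have e1 : qq Λ L d m * qq Λ L d n =
      FF Λ L d m * (Λ m * L ^ (d - m) * FF Λ L d n) * (Λ n * L ^ (d - n)) := by
    unfold qq
    simp only [mul_assoc]
  rw [e1]
  rcases lt_trichotomy m n with h1 | h1 | h1
  · rw [h.p_FF_zero hm h1, mul_zero, zero_mul, if_neg (by omega)]
  · subst h1
    rw [h.p_FF hm le_rfl, if_pos rfl]
    have e2 : FF Λ L d m * (Λ m * L ^ (d - m)) * (Λ m * L ^ (d - m)) =
        FF Λ L d m * ((Λ m * L ^ (d - m) * Λ m) * L ^ (d - m)) := by simp only [mul_assoc]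
    rw [e2, h.inv m hm]
    rfl
  · rw [h.p_FF hm (by omega), if_neg (by omega), mul_assoc (FF Λ L d m),
      ← mul_assoc (Λ m * L ^ (d - m)) (Λ n), h.p_Λ hm h1, zero_mul, mul_zero]

variable [Algebra ℚ A]

omit h in
variable (Λ) in
/-- The sum of the idempotents. -/
def QQ (L : A) (d : ℕ) : A := ∑ n ∈ range d, qq Λ L d n

omit h in
variable (Λ) in
/-- The corrected idempotents. -/
noncomputable def qc (σ : A →+ A) (L : A) (d n : ℕ) : A :=
  qq Λ L d n * (1 - (1 / 2 : ℚ) • σ (QQ Λ L d))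

omit h in
lemma QQ_mem : InW Λ d (QQ Λ L d) := by
  unfold QQ
  refine InW.sum _ fun n hn => ?_
  rw [mem_range] at hn
  have := (qq_mem (L := L) (d := d) (Λ := Λ) n 1).mono (show n + 1 ≤ d by omega)
  rwa [mul_one] at this

omit h in
lemma qc_mem (n : ℕ) : InW Λ (n + 1) (qc Λ σ L d n) := qq_mem n _

include hmul

lemma LamSys.σQ_W {v : A} (hv : InW Λ d v) : σ (QQ Λ L d) * v = 0 := by
  have := h.vanish hmul (j := 0) le_rfl le_rfl (by omega) hv (QQ_mem (Λ := Λ) (L := L) (d := d))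
  rwa [pow_zero, mul_one] at this

lemma LamSys.R_W {v : A} (hv : InW Λ d v) : (1 - (1 / 2 : ℚ) • σ (QQ Λ L d)) * v = v := by
  rw [sub_mul, one_mul, smul_mul_assoc, h.σQ_W hmul hv, smul_zero, sub_zero]

lemma LamSys.qc_W {n : ℕ} {v : A} (hv : InW Λ d v) : qc Λ σ L d n * v = qq Λ L d n * v := by
  unfold qc
  rw [mul_assoc, h.R_W hmul hv]

lemma LamSys.qc_mul {m n : ℕ} (hm : m < d) (hn : n < d) :
    qc Λ σ L d m * qc Λ σ L d n = if m = n then qc Λ σ L d m else 0 := by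
  rw [h.qc_W hmul ((qc_mem n).mono (by omega))]
  have e1 : qq Λ L d m * qc Λ σ L d n =
      qq Λ L d m * qq Λ L d n * (1 - (1 / 2 : ℚ) • σ (QQ Λ L d)) := by
    unfold qc
    rw [mul_assoc]
  rw [e1, h.q_mul hm hn]
  split_ifs with h1
  · rfl
  · rw [zero_mul]

lemma LamSys.σqc_mul {m n : ℕ} (hm : m < d) (hn : n < d) :
    σ (qc Λ σ L d m) * qc Λ σ L d n = 0 := by
  have := h.vanish hmul (j := 0) le_rfl le_rfl (by omega)
    ((qc_mem (σ := σ) (Λ := Λ) (L := L) (d := d) n).mono (show n + 1 ≤ d by omega))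
    ((qc_mem (σ := σ) (Λ := Λ) (L := L) (d := d) m).mono (show m + 1 ≤ d by omega))
  rwa [pow_zero, mul_one] at this

lemma LamSys.qc_σqc (hinv : ∀ a, σ (σ a) = a) (hone : σ 1 = 1) {m n : ℕ} (hm : m < d)
    (hn : n < d) : qc Λ σ L d m * σ (qc Λ σ L d n) = 0 := by
  have hsmul : ∀ (q : ℚ) (x : A), σ (q • x) = q • σ x := fun q x => map_rat_smul σ q x
  have hqQ : ∀ m < d, qq Λ L d m * QQ Λ L d = qq Λ L d m := by
    intro m hm
    unfold QQ
    rw [mul_sum, sum_eq_single m]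
    · rw [h.q_mul hm hm, if_pos rfl]
    · intro i hi him
      rw [mem_range] at hi
      rw [h.q_mul hm hi, if_neg (Ne.symm him)]
    · intro h1
      exact absurd (mem_range.2 hm) h1
  obtain ⟨Q, hQ⟩ : ∃ Q, Q = QQ Λ L d := ⟨_, rfl⟩
  have hQQ : σ Q * Q = 0 := by rw [hQ]; exact h.σQ_W hmul QQ_mem
  have e1 : qq Λ L d m * Q = qq Λ L d m := by rw [hQ]; exact hqQ m hm
  have e2 : σ Q * σ (qq Λ L d n) = σ (qq Λ L d n) := by
    rw [← hmul, hQ, hqQ n hn]
  unfold qc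
  rw [hmul, map_sub, hone, hsmul, hinv, ← hQ]
  have e3 : qq Λ L d m * (1 - (1 / 2 : ℚ) • σ Q) * ((1 - (1 / 2 : ℚ) • Q) * σ (qq Λ L d n)) =
      qq Λ L d m * σ (qq Λ L d n) - (1 / 2 : ℚ) • (qq Λ L d m * (σ Q * σ (qq Λ L d n))) -
        (1 / 2 : ℚ) • (qq Λ L d m * Q * σ (qq Λ L d n)) +
        (1 / 4 : ℚ) • (qq Λ L d m * (σ Q * Q) * σ (qq Λ L d n)) := by
    simp only [sub_mul, mul_sub, smul_mul_assoc, mul_smul_comm, smul_sub, smul_smul, one_mul,
      mul_one, mul_assoc]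
    norm_num
    abel
  rw [e3, e2, e1, hQQ, mul_zero, zero_mul, smul_zero, add_zero, sub_sub, ← add_smul]
  norm_num

end

end Pool.Agent.H92SD
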