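import Pool.Agent.H92SD.Deg

/-!
# The normalised inverse of the Lefschetz operator on `H^1`
-/

set_option autoImplicit false

open CategoryTheory AlgebraicGeometry

universe u v w

namespace Pool.Agent.H92SD

open Pool.Agent.H914 Pool.Agent.H914.VarClass Pool.Agent.H914.VarClass.Obj Pool.Agent.W492.BB
  Pool.Agent.W550.Corr Pool.Agent.TH133 Pool.Agent.Y107

set_option linter.unusedSectionVars false

variable {k : Type u} [Field k] {𝒱 : VarClass k}

variable {C : TheoryData.{u, v, 0} 𝒱 ℚ} [hC : IsChowProj C] {X Y Z : 𝒱.Obj}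

variable {K : Type w} [Field K] {H : WeilTheoryData.{u, v, w} C K} [hH : IsWeilProj H]

include hC hH

/-- The transpose as adjoint. -/
lemma tr_tpR' (a : Cor C X) (y z : H.A X) :
    H.tr X (actH C X H (tpR C X a) y * z) = H.tr X (y * actH C X H a z) :=
  tr_act' H (X := X) (Y := X) a z y

omit hH in
lemma tpR_mc' (D : C.A X) : tpR C X (mc D) = mc D := tp_mulCorr D

omit hH in
lemma tpR_pow {a : Cor C X} (ha : tpR C X a = a) (n : ℕ) : tpR C X (a ^ n) = a ^ n := by
  induction n with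
  | zero => rw [pow_zero, tpR_one]
  | succ n ih => rw [pow_succ, tpR_mul, ha, ih, ← pow_succ', ← pow_succ]

lemma actH_pow_mem {L : Cor C X} (hL : L ∈ crg C X 1) (n : ℕ) {m : ℤ} {y : H.A X}
    (hy : y ∈ H.gr X m) : actH C X H (L ^ n) y ∈ H.gr X (m + 2 * n) := by
  have := actH_crg (H := H) (crg_pow hL n) hy
  rwa [mul_one] at this

/-- If `a` is a left inverse of `L = L^t` on `H^i` then `a^t` is a right inverse on
`H^(2d-i)`. -/
lemma right_inverse' {L a : Cor C X} (hL : tpR C X L = L) {i : ℤ}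
    (h : ∀ y ∈ H.gr X i, actH C X H (a * L) y = y) (hm : L * tpR C X a ∈ crg C X 0) :
    ∀ v ∈ H.gr X (2 * X.dim - i), actH C X H (L * tpR C X a) v = v := by
  intro v hv
  rw [← sub_eq_zero]
  apply H.nondeg
  have h2 : H.tr X ∘ₗ LinearMap.mulLeft K (actH C X H (L * tpR C X a) v) =
      H.tr X ∘ₗ LinearMap.mulLeft K v := by
    apply ext_gr H
    intro l x hx
    rw [LinearMap.comp_apply, LinearMap.comp_apply, LinearMap.mulLeft_apply,
      LinearMap.mulLeft_apply]
    have e1 : L * tpR C X a = tpR C X (a * L) := by rw [tpR_mul, hL]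
    rw [e1, tr_tpR']
    by_cases hl : l = i
    · subst hl
      rw [h x hx]
    · have hx2 : actH C X H (a * L) x ∈ H.gr X l := by
        have e2 : a * L ∈ crg C X 0 := by
          have e3 : a * L = tpR C X (L * tpR C X a) := by rw [tpR_mul, tpR_tpR, hL]
          rw [e3]
          exact crg_zero_iff.2 (tpR_mem (crg_zero_iff.1 hm))
        have := actH_crg (H := H) e2 hx
        rwa [mul_zero, add_zero] at this
      rw [tr_zero H (H.mul_mem hv hx2) (by omega), tr_zero H (H.mul_mem hv hx) (by omega)]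
  intro y
  have h3 := LinearMap.congr_fun h2 y
  rw [LinearMap.comp_apply, LinearMap.comp_apply, LinearMap.mulLeft_apply,
    LinearMap.mulLeft_apply] at h3
  rw [sub_mul, map_sub, h3, sub_self]

/-- The normalised inverse. -/
lemma exists_odd {D : C.A X} (hd : 2 ≤ X.dim) (hD : C.Deg 1 D) {Λ0 : Cor C X}
    (hΛm : Λ0 ∈ crg C X (1 - X.dim))
    (hinv : ∀ y ∈ H.gr X 1, actH C X H (Λ0 * mc D ^ (X.dim - 1)) y = y)
    (hpic : ∀ z ∈ crg C X (1 - X.dim), actH C X H z = 0 → ∃ a b : C.A X, a ∈ C.gr X 1 ∧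
      b ∈ C.gr X 1 ∧ z = ex a 1 + ex 1 b) :
    ∃ Λ ∈ crg C X (1 - X.dim), tpR C X Λ = Λ ∧
      (∀ y ∈ H.gr X 1, actH C X H (Λ * mc D ^ (X.dim - 1)) y = y) ∧
      (∀ j : ℤ, j ≠ 2 * X.dim - 1 → ∀ v ∈ H.gr X j, actH C X H Λ v = 0) ∧
      Λ * mc D ^ (X.dim - 1) * Λ = Λ ∧
      ∀ j : ℕ, j + 1 < X.dim → Λ * mc D ^ j * Λ = 0 := by
  obtain ⟨x, hx, hx1⟩ := exists_point C X
  have hL := mc_mem (C := C) hD
  obtain ⟨M, hM⟩ : ∃ M, M = mc D ^ (X.dim - 1) := ⟨_, rfl⟩
  have hMm : M ∈ crg C X (X.dim - 1) := by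
    have := crg_pow hL (X.dim - 1)
    rwa [mul_one, ← hM, show ((X.dim - 1 : ℕ) : ℤ) = (X.dim : ℤ) - 1 by omega] at this
  have hMt : tpR C X M = M := by
    rw [hM]
    exact tpR_pow (tpR_mc' D) _
  rw [← hM] at hinv ⊢
  have hΛtm : tpR C X Λ0 ∈ crg C X (1 - X.dim) := by
    have : tp C (X := X) (Y := X) Λ0 ∈ C.gr (X.prod X) ((X.dim : ℤ) + (1 - X.dim)) :=
      tp_mem C hΛm
    exact this
  have hLt0 : M * tpR C X Λ0 ∈ crg C X 0 := by
    have := crg_mul hMm hΛtm
    rwa [show (X.dim : ℤ) - 1 + (1 - X.dim) = 0 by ring] at this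
  have hF2 : ∀ v ∈ H.gr X (2 * X.dim - 1), actH C X H (M * tpR C X Λ0) v = v := by
    intro v hv
    exact right_inverse' hMt hinv hLt0 v hv
  have hMmap : ∀ {m : ℤ} {y : H.A X}, y ∈ H.gr X m →
      actH C X H M y ∈ H.gr X (m + 2 * (X.dim - 1)) := by
    intro m y hy
    exact actH_crg (H := H) hMm hy
  have hF3 : ∀ y ∈ H.gr X 1, actH C X H (tpR C X Λ0 * M) y = y := by
    intro y hy
    have h1 : actH C X H M y ∈ H.gr X (2 * X.dim - 1) := by
      have := hMmap hy
      rwa [show (1 : ℤ) + 2 * (X.dim - 1) = 2 * X.dim - 1 by ring] at this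
    have h2 := hF2 _ h1
    have h3 : actH C X H (tpR C X Λ0 * M) y ∈ H.gr X 1 := by
      have := actH_crg (H := H) (crg_mul hΛtm hMm) hy
      rwa [show (1 : ℤ) + 2 * (1 - X.dim + (X.dim - 1)) = 1 by ring] at this
    have h4 := hinv _ h3
    have h5 : actH C X H (Λ0 * M) (actH C X H (tpR C X Λ0 * M) y) =
        actH C X H Λ0 (actH C X H (M * tpR C X Λ0) (actH C X H M y)) := by
      simp only [map_mul, Module.End.mul_apply]
    rw [h5, h2] at h4
    rw [← h4]
    have h6 := hinv y hy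
    rw [map_mul, Module.End.mul_apply] at h6
    exact h6
  -- the symmetric inverse
  obtain ⟨Λ1, hΛ1⟩ : ∃ Λ1, Λ1 = Λ0 * M * tpR C X Λ0 := ⟨_, rfl⟩
  have hΛ1m : Λ1 ∈ crg C X (1 - X.dim) := by
    rw [hΛ1]
    have := crg_mul (crg_mul hΛm hMm) hΛtm
    rwa [show (1 : ℤ) - X.dim + (X.dim - 1) + (1 - X.dim) = 1 - X.dim by ring] at this
  have hΛ1t : tpR C X Λ1 = Λ1 := by
    rw [hΛ1, tpR_mul, tpR_mul, tpR_tpR, hMt, mul_assoc]
  have hF4 : ∀ y ∈ H.gr X 1, actH C X H (Λ1 * M) y = y := by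
    intro y hy
    have h1 := hF3 y hy
    have h2 := hinv y hy
    rw [hΛ1]
    have h3 : actH C X H (Λ0 * M * tpR C X Λ0 * M) y =
        actH C X H (Λ0 * M) (actH C X H (tpR C X Λ0 * M) y) := by
      simp only [map_mul, Module.End.mul_apply]
    rw [h3, h1, h2]
  -- the normalisation
  have hxgr : x ∈ C.gr X X.dim := hx
  obtain ⟨u, hu⟩ : ∃ u, u = ac Λ1 x := ⟨_, rfl⟩
  have hum : u ∈ C.gr X 1 := by
    rw [hu]
    have := ac_mem hΛ1m hxgr
    rwa [show (X.dim : ℤ) + (1 - X.dim) = 1 by ring] at this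
  obtain ⟨Λ, hΛ⟩ : ∃ Λ, Λ = Λ1 - ex 1 u - ex u 1 := ⟨_, rfl⟩
  have hΛm' : Λ ∈ crg C X (1 - X.dim) := by
    rw [hΛ]
    refine Submodule.sub_mem _ (Submodule.sub_mem _ hΛ1m ?_) ?_
    · have := ex_mem (C := C) (C.one_mem X) hum
      rwa [zero_add] at this
    · have := ex_mem (C := C) hum (C.one_mem X)
      rwa [add_zero] at this
  have hΛt : tpR C X Λ = Λ := by
    rw [hΛ, map_sub, map_sub, hΛ1t, tpR_ex, tpR_ex]
    abel
  have hx1' : HasDegree C (1 * x) 1 := by rw [one_mul]; exact hx1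
  have hux : HasDegree C (u * x) 0 := hasDegree_zero_of_ne (C.mul_mem hum hxgr) (by omega)
  have hΛx : ac Λ x = 0 := by
    rw [hΛ, ac_sub, ac_sub, ac_ex hx1', ac_ex hux, ← hu, one_smul, zero_smul, sub_self, sub_zero]
  have hex : ∀ v ∈ H.gr X (2 * X.dim - 1), actH C X H Λ v = actH C X H Λ1 v := by
    intro v hv
    rw [hΛ, map_sub, map_sub, LinearMap.sub_apply, LinearMap.sub_apply,
      actH_ex_ne (H := H) (C.one_mem X) (by omega) hv,
      actH_ex_ne (H := H) hum (by omega) hv, sub_zero, sub_zero]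
  have hG1 : ∀ y ∈ H.gr X 1, actH C X H (Λ * M) y = y := by
    intro y hy
    have h1 : actH C X H M y ∈ H.gr X (2 * X.dim - 1) := by
      have := hMmap hy
      rwa [show (1 : ℤ) + 2 * (X.dim - 1) = 2 * X.dim - 1 by ring] at this
    rw [map_mul, Module.End.mul_apply, hex _ h1]
    have h2 := hF4 y hy
    rw [map_mul, Module.End.mul_apply] at h2
    exact h2
  have hG3 : ∀ j : ℤ, j ≠ 2 * X.dim - 1 → ∀ v ∈ H.gr X j, actH C X H Λ v = 0 := by
    intro j hj v hv
    have hmem : actH C X H Λ v ∈ H.gr X (j + 2 * (1 - X.dim)) := actH_crg (H := H) hΛm' hv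
    rcases lt_or_ge j (2 * X.dim - 2) with h1 | h1
    · rw [H.gr_neg X _ (by omega)] at hmem
      exact (Submodule.mem_bot _).1 hmem
    · rcases eq_or_lt_of_le h1 with h2 | h2
      · subst h2
        rw [show (2 * (X.dim : ℤ) - 2) + 2 * (1 - X.dim) = 0 by ring] at hmem
        obtain ⟨c, hc⟩ := hH.gr_zero X _ hmem
        have e1 : H.tr X (H.cl x * actH C X H Λ v) = 0 := by
          rw [← tr_tpR', hΛt]
          have e2 : actH C X H Λ (H.cl x) = 0 := by
            rw [← cl_ac, hΛx, map_zero]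
          rw [e2, zero_mul, map_zero]
        rw [hc, mul_smul_comm, mul_one, map_smul, smul_eq_mul, mul_eq_zero] at e1
        rcases e1 with e1 | e1
        · rw [hc, e1, zero_smul]
        · exact absurd e1 (tr_point_ne_zero (H := H) hx hx1)
      · rcases lt_or_ge (2 * (X.dim : ℤ)) j with h3 | h3
        · rw [gr_top H (by omega)] at hv
          rw [(Submodule.mem_bot _).1 hv, map_zero]
        · have h4 : j = 2 * X.dim := by omega
          subst h4
          obtain ⟨c, rfl⟩ := top_span_point (H := H) hx hx1 hv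
          rw [map_smul, ← cl_ac, hΛx, map_zero, smul_zero]
  -- the quadratic relation
  have hE1 : Λ * M * Λ = Λ := by
    obtain ⟨z, hz⟩ : ∃ z, z = Λ * M * Λ - Λ := ⟨_, rfl⟩
    have hzm : z ∈ crg C X (1 - X.dim) := by
      rw [hz]
      refine Submodule.sub_mem _ ?_ hΛm'
      have := crg_mul (crg_mul hΛm' hMm) hΛm'
      rwa [show (1 : ℤ) - X.dim + (X.dim - 1) + (1 - X.dim) = 1 - X.dim by ring] at this
    have hzt : tpR C X z = z := by
      rw [hz, map_sub, tpR_mul, tpR_mul, hΛt, hMt, mul_assoc]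
    have hzx : ac z x = 0 := by
      rw [hz, ac_sub, ac_mul, hΛx, ac_zero, sub_zero]
    have hzcl : actH C X H z = 0 := by
      apply ext_gr H
      intro j v hv
      rw [LinearMap.zero_apply, hz, map_sub, LinearMap.sub_apply, map_mul,
        Module.End.mul_apply]
      by_cases hj : j = 2 * X.dim - 1
      · subst hj
        have h2 : actH C X H Λ v ∈ H.gr X 1 := by
          have := actH_crg (H := H) hΛm' hv
          rwa [show (2 * (X.dim : ℤ) - 1) + 2 * (1 - X.dim) = 1 by ring] at this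
        have h3 := hG1 _ h2
        rw [h3, sub_self]
      · rw [hG3 j hj v hv, map_zero, sub_zero]
    obtain ⟨a, b, ha, hb, hab'⟩ := hpic z hzm hzcl
    have hax : HasDegree C (a * x) 0 := hasDegree_zero_of_ne (C.mul_mem ha hxgr) (by omega)
    have hbx : HasDegree C (b * x) 0 := hasDegree_zero_of_ne (C.mul_mem hb hxgr) (by omega)
    have hb0 : b = 0 := by
      rw [hab', ac_add, ac_ex hax, ac_ex hx1', zero_smul, zero_add, one_smul] at hzx
      exact hzx
    have ha0 : a = 0 := by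
      have h5 : ac (tpR C X z) x = 0 := by
        rw [hzt, hz, ac_sub, ac_mul, hΛx, ac_zero, sub_zero]
      rw [hab', map_add, tpR_ex, tpR_ex, ac_add, ac_ex hx1', ac_ex hbx, zero_smul, add_zero,
        one_smul] at h5
      exact h5
    have hz0 : z = 0 := by
      rw [hab', ha0, hb0, ex_zero_left, ex_zero_right, add_zero]
    rw [hz] at hz0
    exact sub_eq_zero.1 hz0
  refine ⟨Λ, hΛm', hΛt, hG1, hG3, hE1, fun j hj => ?_⟩
  have h1 : Λ * mc D ^ j * Λ ∈ crg C X (1 - X.dim + j + (1 - X.dim)) := by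
    have := crg_mul (crg_mul hΛm' (crg_pow hL j)) hΛm'
    rwa [mul_one] at this
  rcases Nat.lt_or_ge (j + 2) X.dim with h2 | h2
  · exact crg_bot h1 (by omega)
  · rw [mem_crg, show (X.dim : ℤ) + (1 - X.dim + j + (1 - X.dim)) = 0 by omega] at h1
    refine eq_zero_of_deg_zero (H := H) (X := X.prod X) h1 ?_
    apply hom_zero_of_act H (X := X) (Y := X)
    have h3 : actH C X H (Λ * mc D ^ j * Λ) = 0 := by
      apply ext_gr H
      intro l v hv
      rw [LinearMap.zero_apply, map_mul, Module.End.mul_apply]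
      by_cases hl : l = 2 * X.dim - 1
      · subst hl
        have h4 : actH C X H Λ v ∈ H.gr X 1 := by
          have := actH_crg (H := H) hΛm' hv
          rwa [show (2 * (X.dim : ℤ) - 1) + 2 * (1 - X.dim) = 1 by ring] at this
        rw [map_mul, Module.End.mul_apply]
        exact hG3 (1 + 2 * j) (by omega) _ (actH_pow_mem hL j h4)
      · rw [hG3 l hl v hv, map_zero]
    exact fun v => LinearMap.congr_fun h3 v

end Pool.Agent.H92SD
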