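import Pool.Agent.H92SD.Defs
import Pool.Agent.H92SD.Gr
import Pool.Agent.H92SD.Half

/-!
# The `sl(2)`-triple of the leading part of a Lefschetz correspondence
-/

set_option autoImplicit false

open CategoryTheory AlgebraicGeometry

universe u v w

namespace Pool.Agent.H92SD

open Pool.Agent.H914 Pool.Agent.H914.VarClass Pool.Agent.H914.VarClass.Obj Pool.Agent.W492.BB
  Pool.Agent.W550.Corr Pool.Agent.TH133 Pool.Agent.Y107

set_option linter.unusedSectionVars false

variable {k : Type u} [Field k] {𝒱 : VarClass k}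

variable {C : TheoryData.{u, v, 0} 𝒱 ℚ} [hC : IsChowProj C] {X Y Z : 𝒱.Obj}

section chow

include hC

omit hC in
/-- The intersection with `D`, as an element of the ring of correspondences. -/
noncomputable def mc (D : C.A X) : Cor C X := C.mulCorr D

lemma mc_pow (D : C.A X) (n : ℕ) : mc D ^ n = mc (D ^ n) := by
  rw [← corPow_eq]
  exact mulCorr_pow D n

lemma component_eq {π : ℕ → Cor C X} (a b : ℕ) (Γ : Cor C X) :
    component C (X := X) π a b Γ = π b * Γ * π a := by
  rw [mul_assoc]
  rfl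

lemma notRaising_iff {π : ℕ → Cor C X} {c : ℕ} {L : Cor C X} :
    NotRaising C (X := X) π c L ↔ ∀ a b, a + 2 * c < b → π b * L * π a = 0 := by
  constructor
  · intro h a b hab
    rw [← component_eq]
    exact h a b hab
  · intro h a b hab
    rw [component_eq]
    exact h a b hab

lemma isoComponent_iff {π : ℕ → Cor C X} (hππ : ∀ i j, π i * π j = if i = j then π i else 0)
    {a b c : ℕ} {Γ : Cor C X} : IsoComponent C (X := X) π a b c Γ ↔
      ∃ g ∈ crg C X (-c), π a * g * π b * Γ * π a = π a ∧ π b * Γ * π a * g * π b = π b := by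
  have ha : π a * π a = π a := by rw [hππ, if_pos rfl]
  have hb : π b * π b = π b := by rw [hππ, if_pos rfl]
  have e1 : ∀ g : Cor C X, (π a * g * π b) * (π b * Γ * π a) = π a * g * π b * Γ * π a := by
    intro g
    calc (π a * g * π b) * (π b * Γ * π a) = π a * g * (π b * π b) * Γ * π a := by
          simp only [mul_assoc]
      _ = π a * g * π b * Γ * π a := by rw [hb]
  have e2 : ∀ g : Cor C X, (π b * Γ * π a) * (π a * g * π b) = π b * Γ * π a * g * π b := by
    intro g
    calc (π b * Γ * π a) * (π a * g * π b) = π b * Γ * (π a * π a) * g * π b := by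
          simp only [mul_assoc]
      _ = π b * Γ * π a * g * π b := by rw [ha]
  have f1 : ∀ g : Cor C X, C.comp (X := X) (Y := X) (Z := X) (component C (X := X) π a b Γ)
      (component C (X := X) π b a g) = π a * g * π b * Γ * π a := by
    intro g
    rw [component_eq, component_eq, ← e1]
    rfl
  have f2 : ∀ g : Cor C X, C.comp (X := X) (Y := X) (Z := X) (component C (X := X) π b a g)
      (component C (X := X) π a b Γ) = π b * Γ * π a * g * π b := by
    intro g
    rw [component_eq, component_eq, ← e2]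
    rfl
  constructor
  · rintro ⟨g, hg, h1, h2⟩
    refine ⟨g, mem_crg.2 hg, ?_, ?_⟩
    · exact (f1 g).symm.trans h1
    · exact (f2 g).symm.trans h2
  · rintro ⟨g, hg, h1, h2⟩
    exact ⟨g, mem_crg.1 hg, (f1 g).trans h1, (f2 g).trans h2⟩

/-- `e^s g - g e^s` is a commutator with `e`. -/
lemma exists_brk {e : Cor C X} (he : e ∈ crg C X 1) (s : ℕ) {i : ℤ} {g : Cor C X}
    (hg : g ∈ crg C X i) : ∃ z ∈ crg C X (i + s - 1), e * z - z * e = e ^ s * g - g * e ^ s := by
  induction s with
  | zero => exact ⟨0, Submodule.zero_mem _, by simp⟩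
  | succ s ih =>
    obtain ⟨z, hz, hz2⟩ := ih
    refine ⟨e * z + g * e ^ s, ?_, ?_⟩
    · refine Submodule.add_mem _ ?_ ?_
      · have := crg_mul he hz
        rwa [show (1 : ℤ) + (i + s - 1) = i + ((s + 1 : ℕ) : ℤ) - 1 by push_cast; ring] at this
      · have := crg_mul hg (crg_pow he s)
        rwa [show i + (s : ℤ) * 1 = i + ((s + 1 : ℕ) : ℤ) - 1 by push_cast; ring] at this
    · have e1 : e * (e * z + g * e ^ s) - (e * z + g * e ^ s) * e =
          e * (e * z - z * e) + (e * (g * e ^ s) - g * e ^ (s + 1)) := by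
        rw [pow_succ]
        noncomm_ring
      rw [e1, hz2, pow_succ' e s]
      have e2 : g * (e * e ^ s) = g * e ^ (s + 1) := by rw [pow_succ']
      rw [e2]
      noncomm_ring

end chow

variable {K : Type w} [Field K] {H : WeilTheoryData.{u, v, w} C K} [hH : IsWeilProj H]

include hC hH

/-- The grading element. -/
noncomputable def gradingElt (C : TheoryData.{u, v, 0} 𝒱 ℚ) [IsChowProj C] (X : 𝒱.Obj)
    (π : ℕ → Cor C X) : Cor C X :=
  ∑ s ∈ Finset.range (X.dim + 1), (s : ℚ) • (π (X.dim + s) - π (X.dim - s))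

lemma gradingElt_mul {π : ℕ → Cor C X} (h : IsCK H X π) (n : ℕ) :
    gradingElt C X π * π n = ((n : ℚ) - X.dim) • π n := by
  have hPP := fun i j => h.mul_eq i j
  rcases Nat.lt_or_ge (2 * X.dim) n with hn | hn
  · rw [show π n = 0 from h.out n hn, mul_zero, smul_zero]
  rcases Nat.lt_or_ge n X.dim with hn2 | hn2
  · unfold gradingElt
    rw [Finset.sum_mul, Finset.sum_eq_single (X.dim - n)]
    · rw [smul_mul_assoc, sub_mul, hPP, hPP, if_neg (by omega), if_pos (by omega),
        show X.dim - (X.dim - n) = n by omega, zero_sub, smul_neg, ← neg_smul]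
      congr 1
      push_cast [Nat.cast_sub hn2.le]
      ring
    · intro s hs hsn
      rw [Finset.mem_range] at hs
      rw [smul_mul_assoc, sub_mul, hPP, hPP, if_neg (by omega), if_neg (by omega), sub_zero,
        smul_zero]
    · intro h1
      exfalso
      apply h1
      rw [Finset.mem_range]
      omega
  · unfold gradingElt
    rw [Finset.sum_mul, Finset.sum_eq_single (n - X.dim)]
    · by_cases hs : n = X.dim
      · rw [hs]
        simp
      · rw [smul_mul_assoc, sub_mul, hPP, hPP, if_pos (by omega), if_neg (by omega), sub_zero,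
          show X.dim + (n - X.dim) = n by omega]
        congr 1
        push_cast [Nat.cast_sub hn2]
        ring
    · intro s hs hsn
      rw [Finset.mem_range] at hs
      rw [smul_mul_assoc, sub_mul, hPP, hPP, if_neg (by omega)]
      by_cases hs0 : s = 0
      · rw [hs0, Nat.cast_zero, zero_smul]
      · rw [if_neg (by omega), sub_zero, smul_zero]
    · intro h1
      exfalso
      apply h1
      rw [Finset.mem_range]
      omega

lemma gradingElt_mem {π : ℕ → Cor C X} (h : IsCK H X π) : gradingElt C X π ∈ crg C X 0 := by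
  unfold gradingElt
  refine Submodule.sum_mem _ fun s _ => Submodule.smul_mem _ _ (Submodule.sub_mem _ ?_ ?_)
  · exact crg_zero_iff.2 (h.deg _)
  · exact crg_zero_iff.2 (h.deg _)

/-- **The `sl(2)`-triple.** If `e` is homogeneous and satisfies hard Lefschetz with respect to `π` then
it is part of an `sl(2)`-triple `(h, e, f)` where `h` acts as `n - d` on `π n`. -/
theorem exists_sl2 {π : ℕ → Cor C X} (hπ : IsCK H X π) {e : Cor C X} (he : e ∈ crg C X 1)
    (hom : ∀ n, π (n + 2) * e = e * π n)
    (hl : ∀ s ≤ X.dim, ∃ g ∈ crg C X (-s), e ^ s * g = π (X.dim + s) ∧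
      g * e ^ s = π (X.dim - s)) :
    ∃ f ∈ crg C X (-1), Sl2 (gradingElt C X π) e f := by
  obtain ⟨z, hz, hz2⟩ : ∃ z ∈ crg C X (-1), e * z - z * e = gradingElt C X π := by
    have h1 : ∀ s : ℕ, ∃ z ∈ crg C X (-1), s ≤ X.dim →
        e * z - z * e = π (X.dim + s) - π (X.dim - s) := by
      intro s
      by_cases hs : s ≤ X.dim
      · obtain ⟨g, hg, hg1, hg2⟩ := hl s hs
        obtain ⟨z, hz, hz2⟩ := exists_brk he s hg
        refine ⟨z, ?_, fun _ => ?_⟩
        · rwa [show -(s : ℤ) + s - 1 = -1 by ring] at hz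
        · rw [hz2, hg1, hg2]
      · exact ⟨0, Submodule.zero_mem _, fun h => absurd h hs⟩
    choose z hz hz2 using h1
    refine ⟨∑ s ∈ Finset.range (X.dim + 1), (s : ℚ) • z s,
      Submodule.sum_mem _ fun s _ => Submodule.smul_mem _ _ (hz s), ?_⟩
    unfold gradingElt
    rw [Finset.mul_sum, Finset.sum_mul, ← Finset.sum_sub_distrib]
    apply Finset.sum_congr rfl
    intro s hs
    rw [Finset.mem_range] at hs
    rw [mul_smul_comm, smul_mul_assoc, ← smul_sub, hz2 s (by omega)]
  have hhe : gradingElt C X π * e - e * gradingElt C X π = 2 * e := by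
    have h2 : ∀ n ∈ Finset.range (2 * X.dim + 1),
        (gradingElt C X π * e - e * gradingElt C X π) * π n = (2 * e) * π n := by
      intro n _
      rw [sub_mul, mul_assoc, ← hom, ← mul_assoc, gradingElt_mul hπ, mul_assoc e,
        gradingElt_mul hπ, smul_mul_assoc, mul_smul_comm, hom, ← sub_smul]
      have e1 : (((n + 2 : ℕ) : ℚ) - X.dim - ((n : ℚ) - X.dim)) = 2 := by
        push_cast
        ring
      rw [e1, Algebra.smul_def, map_ofNat, mul_assoc]
    have h3 := Finset.sum_congr rfl h2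
    rw [← Finset.mul_sum, ← Finset.mul_sum, hπ.sum_eq, mul_one, mul_one] at h3
    exact h3
  have hE : e ^ (X.dim + 1) = 0 := crg_top (crg_pow he (X.dim + 1)) (by push_cast; omega)
  exact morozov hE hz2 hhe (crg C X (-1)) hz (fun x hx => by
    have hh0 := gradingElt_mem hπ
    refine Submodule.sub_mem _ ?_ ?_
    · have := crg_mul hh0 hx
      rwa [zero_add] at this
    · have := crg_mul hx hh0
      rwa [add_zero] at this)

/-- **Hard Lefschetz from an `sl(2)`-triple.** -/
theorem lefschetz_of_sl2 {π : ℕ → Cor C X} (hπ : IsCK H X π) {h e f : Cor C X} (t : Sl2 h e f)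
    (he : e ∈ crg C X 1) (hf : f ∈ crg C X (-1))
    (hh : ∀ n, h * π n = ((n : ℚ) - X.dim) • π n) (s : ℕ) (hs : s ≤ X.dim) :
    ∃ g ∈ crg C X (-s), e ^ s * g = π (X.dim + s) ∧
      g * e ^ s * π (X.dim - s) = π (X.dim - s) := by
  have hE : e ^ (X.dim + 1) = 0 := crg_top (crg_pow he (X.dim + 1)) (by push_cast; omega)
  have hF : f ^ (X.dim + 1) = 0 := crg_bot (crg_pow hf (X.dim + 1)) (by push_cast; omega)
  have hPP := fun i j => hπ.mul_eq i j
  have h1 : ∀ n : ℕ, wp h (X.dim + 1) ((n : ℤ) - X.dim) * π n = π n := by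
    intro n
    apply wp_of_wt t hE hF
    rw [hh]
    push_cast
    rfl
  have h2 : ∀ m n : ℕ, m ≠ n → wp h (X.dim + 1) ((m : ℤ) - X.dim) * π n = 0 := by
    intro m n hmn
    rw [← h1 n, ← mul_assoc, wp_mul t hE hF, if_neg (by omega), zero_mul]
  have h3 : ∀ m < 2 * X.dim + 1, wp h (X.dim + 1) ((m : ℤ) - X.dim) = π m := by
    intro m hm
    rw [← mul_one (wp h (X.dim + 1) ((m : ℤ) - X.dim)), ← hπ.sum_eq, Finset.mul_sum,
      Finset.sum_eq_single m]
    · exact h1 m
    · intro n _ hn
      exact h2 m n (Ne.symm hn)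
    · intro h4
      exact absurd (Finset.mem_range.2 hm) h4
  obtain ⟨g, hg1, hg2, hg3⟩ := exists_lefschetz_inverse t hE hF s
  have e1 : wp h (X.dim + 1) (-(s : ℤ)) = π (X.dim - s) := by
    rw [← h3 (X.dim - s) (by omega)]
    congr 1
    omega
  have e2 : wp h (X.dim + 1) (s : ℤ) = π (X.dim + s) := by
    rw [← h3 (X.dim + s) (by omega)]
    congr 1
    omega
  rw [e1] at hg1
  rw [e2] at hg2
  have hes : e ^ s ∈ crg C X s := by
    have := crg_pow he s
    rwa [mul_one] at this
  have hP0 : ∀ n, π n ∈ crg C X 0 := fun n => crg_zero_iff.2 (hπ.deg n)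
  let φ : Cor C X →ₗ[ℚ] Cor C X := LinearMap.mulRight ℚ (e ^ s * π (X.dim - s))
  let ψ : Cor C X →ₗ[ℚ] Cor C X := LinearMap.mulLeft ℚ (e ^ s)
  have hφ : ∀ i, ∀ x ∈ crg C X i, φ x ∈ crg C X (i + s) := by
    intro i x hx
    have := crg_mul hx (crg_mul hes (hP0 (X.dim - s)))
    rwa [add_zero] at this
  have hψ : ∀ i, ∀ x ∈ crg C X i, ψ x ∈ crg C X (i + s) := by
    intro i x hx
    have := crg_mul hes hx
    rwa [add_comm] at this
  have k1 := cmpc_map φ s hφ (-s) g
  have k2 := cmpc_map ψ s hψ (-s) g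
  have e3 : φ g = π (X.dim - s) := by
    change g * (e ^ s * π (X.dim - s)) = _
    rw [← mul_assoc, hg1]
  have e4 : ψ g = π (X.dim + s) := hg2
  rw [e3, neg_add_cancel, cmpc_of_mem (hP0 _)] at k1
  rw [e4, neg_add_cancel, cmpc_of_mem (hP0 _)] at k2
  refine ⟨cmpc C X (-s) g, cmpc_mem _ _, k2.symm, ?_⟩
  rw [mul_assoc]
  exact k1.symm

end Pool.Agent.H92SD
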