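import Pool.Agent.H92SD.Sl2

/-!
# Weight-bounded Lefschetz correspondences in the ring of correspondences
-/

set_option autoImplicit false

open CategoryTheory AlgebraicGeometry

universe u v w

namespace Pool.Agent.H92SD

open Pool.Agent.H914 Pool.Agent.H914.VarClass Pool.Agent.H914.VarClass.Obj Pool.Agent.W492.BB
  Pool.Agent.W550.Corr Pool.Agent.TH133 Pool.Agent.Y107

set_option linter.unusedSectionVars false

variable {k : Type u} [Field k] {𝒱 : VarClass k}

variable {C : TheoryData.{u, v, 0} 𝒱 ℚ} [hC : IsChowProj C] {X Y Z : 𝒱.Obj}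

variable {K : Type w} [Field K] {H : WeilTheoryData.{u, v, w} C K} [hH : IsWeilProj H]

include hC hH

/-- The conditions in the ring of correspondences. -/
structure WLRing (H : WeilTheoryData.{u, v, w} C K) [IsWeilProj H] {X : 𝒱.Obj} (L : Cor C X)
    (π : ℕ → Cor C X) : Prop where
  ck : IsCK H X π
  selfDual : ∀ n ≤ 2 * X.dim, tpR C X (π n) = π (2 * X.dim - n)
  bounded : ∀ a b, a + 2 < b → π b * L * π a = 0
  iso : ∀ s ≤ X.dim, ∃ g ∈ crg C X (-s),
    π (X.dim - s) * g * π (X.dim + s) * L ^ s * π (X.dim - s) = π (X.dim - s) ∧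
    π (X.dim + s) * L ^ s * π (X.dim - s) * g * π (X.dim + s) = π (X.dim + s)

lemma wl_iff {D : C.A X} {π : ℕ → Cor C X} :
    WeightedLefschetz H (X := X) D π ↔ WLRing H (mc D) π := by
  constructor
  · intro h
    refine ⟨h.ck, h.selfDual, fun a b hab => notRaising_iff.1 h.bounded a b (by omega),
      fun s hs => ?_⟩
    have h1 := (isoComponent_iff (fun i j => h.ck.mul_eq i j)).1 (h.iso s hs)
    rw [mc_pow]
    exact h1
  · intro h
    refine ⟨h.ck, h.selfDual, notRaising_iff.2 fun a b hab => h.bounded a b (by omega),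
      fun s hs => ?_⟩
    refine (isoComponent_iff (fun i j => h.ck.mul_eq i j)).2 ?_
    have h1 := h.iso s hs
    rw [mc_pow] at h1
    exact h1

lemma WLRing.exists_leading {L : Cor C X} {π : ℕ → Cor C X} (h : WLRing H L π)
    (hL : L ∈ crg C X 1) : ∃ e ∈ crg C X 1, IsLeading π 2 L e := by
  have hP0 : ∀ n, π n ∈ crg C X 0 := fun n => crg_zero_iff.2 (h.ck.deg n)
  refine ⟨∑ n ∈ Finset.range (2 * X.dim + 1), π (n + 2) * L * π n,
    Submodule.sum_mem _ fun n _ => ?_, Pool.Agent.H92SD.exists_leading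
    (fun i j => h.ck.mul_eq i j) 2 L (fun n hn => h.ck.out n (by omega)) h.bounded⟩
  have := crg_mul (crg_mul (hP0 (n + 2)) hL) (hP0 n)
  rwa [zero_add, add_zero] at this

lemma IsLeading.pow' {L e : Cor C X} {π : ℕ → Cor C X} (h : IsCK H X π)
    (hl : IsLeading π 2 L e) (s : ℕ) (a : ℕ) : π (a + 2 * s) * L ^ s * π a = e ^ s * π a := by
  have h1 := (hl.pow (fun i j => h.mul_eq i j) h.sum_eq s).lead a
  rwa [show a + s * 2 = a + 2 * s by ring] at h1

lemma IsLeading.hom' {L e : Cor C X} {π : ℕ → Cor C X} (h : IsCK H X π)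
    (hl : IsLeading π 2 L e) (s : ℕ) (a : ℕ) : π (a + 2 * s) * e ^ s = e ^ s * π a := by
  have h1 := (hl.pow (fun i j => h.mul_eq i j) h.sum_eq s).homogeneous
    (fun i j => h.mul_eq i j) h.sum_eq a
  rwa [show a + s * 2 = a + 2 * s by ring] at h1

/-- Hard Lefschetz for the leading part. -/
lemma WLRing.lead_iso {L e : Cor C X} {π : ℕ → Cor C X} (h : WLRing H L π)
    (hl : IsLeading π 2 L e) (s : ℕ) (hs : s ≤ X.dim) :
    ∃ g ∈ crg C X (-s), e ^ s * g = π (X.dim + s) ∧ g * e ^ s = π (X.dim - s) := by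
  obtain ⟨g, hg, h1, h2⟩ := h.iso s hs
  have hPP := fun i j => h.ck.mul_eq i j
  have hP0 : ∀ n, π n ∈ crg C X 0 := fun n => crg_zero_iff.2 (h.ck.deg n)
  have e0 : X.dim - s + 2 * s = X.dim + s := by omega
  have e1 : π (X.dim + s) * L ^ s * π (X.dim - s) = e ^ s * π (X.dim - s) := by
    have := hl.pow' h.ck s (X.dim - s)
    rwa [e0] at this
  have e2 : π (X.dim + s) * e ^ s = e ^ s * π (X.dim - s) := by
    have := hl.hom' h.ck s (X.dim - s)
    rwa [e0] at this
  refine ⟨π (X.dim - s) * g * π (X.dim + s), ?_, ?_, ?_⟩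
  · have := crg_mul (crg_mul (hP0 (X.dim - s)) hg) (hP0 (X.dim + s))
    rwa [zero_add, add_zero] at this
  · calc e ^ s * (π (X.dim - s) * g * π (X.dim + s))
        = (e ^ s * π (X.dim - s)) * g * π (X.dim + s) := by simp only [mul_assoc]
      _ = π (X.dim + s) * L ^ s * π (X.dim - s) * g * π (X.dim + s) := by rw [← e1]
      _ = π (X.dim + s) := h2
  · calc π (X.dim - s) * g * π (X.dim + s) * e ^ s
        = π (X.dim - s) * g * (π (X.dim + s) * e ^ s) := by simp only [mul_assoc]
      _ = π (X.dim - s) * g * (π (X.dim + s) * (e ^ s * π (X.dim - s))) := by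
          rw [e2, ← mul_assoc (π (X.dim + s)), e2, mul_assoc (e ^ s), hPP, if_pos rfl]
      _ = π (X.dim - s) * g * (π (X.dim + s) * (π (X.dim + s) * L ^ s * π (X.dim - s))) := by
          rw [e1]
      _ = π (X.dim - s) * g * ((π (X.dim + s) * π (X.dim + s)) * L ^ s * π (X.dim - s)) := by
          simp only [mul_assoc]
      _ = π (X.dim - s) * g * π (X.dim + s) * L ^ s * π (X.dim - s) := by
          rw [hPP, if_pos rfl]; simp only [mul_assoc]
      _ = π (X.dim - s) := h1

/-- The isomorphisms from hard Lefschetz for the leading part. -/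
lemma iso_of_lead {L e : Cor C X} {π : ℕ → Cor C X} (h : IsCK H X π)
    (hl : IsLeading π 2 L e) (s : ℕ) (hs : s ≤ X.dim)
    (hg : ∃ g ∈ crg C X (-s), e ^ s * g = π (X.dim + s) ∧
      g * e ^ s * π (X.dim - s) = π (X.dim - s)) : ∃ g ∈ crg C X (-s),
    π (X.dim - s) * g * π (X.dim + s) * L ^ s * π (X.dim - s) = π (X.dim - s) ∧
    π (X.dim + s) * L ^ s * π (X.dim - s) * g * π (X.dim + s) = π (X.dim + s) := by
  obtain ⟨g, hg, h1, h2⟩ := hg
  have hPP := fun i j => h.mul_eq i j
  have e0 : X.dim - s + 2 * s = X.dim + s := by omega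
  have e1 : π (X.dim + s) * L ^ s * π (X.dim - s) = e ^ s * π (X.dim - s) := by
    have := hl.pow' h s (X.dim - s)
    rwa [e0] at this
  have e2 : π (X.dim + s) * e ^ s = e ^ s * π (X.dim - s) := by
    have := hl.hom' h s (X.dim - s)
    rwa [e0] at this
  refine ⟨g, hg, ?_, ?_⟩
  · calc π (X.dim - s) * g * π (X.dim + s) * L ^ s * π (X.dim - s)
        = π (X.dim - s) * g * (π (X.dim + s) * L ^ s * π (X.dim - s)) := by
          simp only [mul_assoc]
      _ = π (X.dim - s) * (g * e ^ s * π (X.dim - s)) := by rw [e1]; simp only [mul_assoc]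
      _ = π (X.dim - s) := by rw [h2, hPP, if_pos rfl]
  · calc π (X.dim + s) * L ^ s * π (X.dim - s) * g * π (X.dim + s)
        = π (X.dim + s) * (e ^ s * g) * π (X.dim + s) := by
          rw [e1, ← e2]; simp only [mul_assoc]
      _ = π (X.dim + s) := by rw [h1, hPP, if_pos rfl, hPP, if_pos rfl]

end Pool.Agent.H92SD
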